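import Pool.Agent.W_MP_fefad7_co.Sharp.Upper
import Pool.Agent.W_MP_fefad7_co.Bias

set_option autoImplicit false

namespace Pool.Agent.W_MP_fefad7_co.Sharp

open Finset Filter Topology Asymptotics

/-- The normalised inverse bias when the bias is at most `n ^ (k - 1) / (k! χ) + 1`. -/
lemma eventually_ratio (k : ℕ) (hk : 2 ≤ k) (χ : ℝ) (hχ : 0 < χ) (ε : ℝ) (hε : 0 < ε) :
    ∀ᶠ n : ℕ in atTop, ∀ b : ℕ, 0 < b → (b : ℝ) ≤ (n : ℝ) ^ (k - 1) / (k.factorial * χ) + 1 →
      χ / Real.log 2 - ε ≤ 1 / (n : ℝ) * n.choose k * (b : ℝ)⁻¹ / Real.log 2 := by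
  have hL2 : 0 < Real.log 2 := Real.log_pos (by norm_num)
  have hfact : (0 : ℝ) < k.factorial := by exact_mod_cast Nat.factorial_pos k
  have h1 : Tendsto (fun n : ℕ => (n.choose k : ℝ) / ((n : ℝ) ^ k / k.factorial)) atTop (𝓝 1) := by
    have h2 := isEquivalent_choose k
    rw [isEquivalent_iff_tendsto_one] at h2
    · exact h2
    · filter_upwards [eventually_gt_atTop 0] with n hn
      have : (0 : ℝ) < n := by exact_mod_cast hn
      positivity
  have h2 : Tendsto (fun n : ℕ => ((n : ℝ) ^ (k - 1) / (k.factorial * χ)) /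
      ((n : ℝ) ^ (k - 1) / (k.factorial * χ) + 1)) atTop (𝓝 1) := by
    have h3 : Tendsto (fun n : ℕ => (n : ℝ) ^ (k - 1) / (k.factorial * χ)) atTop atTop := by
      apply Tendsto.atTop_div_const (by positivity)
      exact (tendsto_pow_atTop (by omega)).comp tendsto_natCast_atTop_atTop
    have h4 : Tendsto (fun x : ℝ => x / (x + 1)) atTop (𝓝 1) := by
      have h5 : Tendsto (fun x : ℝ => 1 - 1 / (x + 1)) atTop (𝓝 (1 - 0)) := by
        apply Tendsto.sub tendsto_const_nhds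
        simp only [one_div]
        exact tendsto_inv_atTop_zero.comp (tendsto_atTop_add_const_right _ 1 tendsto_id)
      rw [sub_zero] at h5
      refine h5.congr' ?_
      filter_upwards [eventually_gt_atTop 0] with x hx
      field_simp
      ring
    exact h4.comp h3
  have h3 := (h1.mul h2).const_mul (χ / Real.log 2)
  simp only [mul_one] at h3
  have h4 := h3.eventually_const_le (show χ / Real.log 2 - ε < χ / Real.log 2 by linarith)
  filter_upwards [h4, eventually_gt_atTop 0] with n hn hn0 b hb hble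
  have hnR : (0 : ℝ) < n := by exact_mod_cast hn0
  have hbR : (0 : ℝ) < b := by exact_mod_cast hb
  refine hn.trans ?_
  set X : ℝ := (n : ℝ) ^ (k - 1) / (k.factorial * χ) with hX
  have hX0 : 0 < X := by positivity
  have e1 : (n : ℝ) ^ k / k.factorial = n * χ * X := by
    have : (n : ℝ) ^ k = n * (n : ℝ) ^ (k - 1) := by
      rw [← pow_succ', Nat.sub_add_cancel (by omega)]
    rw [hX, this]
    field_simp
  rw [e1]
  have e2 : χ / Real.log 2 * ((n.choose k : ℝ) / (n * χ * X) * (X / (X + 1))) =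
      (n.choose k : ℝ) / (n * Real.log 2) * (1 / (X + 1)) := by
    field_simp
  have e3 : 1 / (n : ℝ) * n.choose k * (b : ℝ)⁻¹ / Real.log 2 =
      (n.choose k : ℝ) / (n * Real.log 2) * (1 / b) := by
    field_simp
  rw [e2, e3]
  apply mul_le_mul_of_nonneg_left _ (by positivity)
  exact one_div_le_one_div_of_le hbR hble

/-- Lower half of the asymptotics for the Waiter-Client game. -/
theorem biasWC_lower (ε : ℝ) (hε : 0 < ε) : ∃ k0 : ℕ, ∀ k ≥ k0, ∀ᶠ n : ℕ in atTop,
    1 - ε ≤ 1 / (n : ℝ) * n.choose k * (biasWC n k : ℝ)⁻¹ / Real.log 2 := by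
  have hL2 : 0 < Real.log 2 := Real.log_pos (by norm_num)
  set ε' : ℝ := min (ε / 2) (1 / 2) with hε'
  have hε'0 : 0 < ε' := lt_min (by positivity) (by norm_num)
  have hε'1 : ε' ≤ ε / 2 := min_le_left _ _
  have hε'2 : ε' ≤ 1 / 2 := min_le_right _ _
  set χ : ℝ := (1 - ε') * Real.log 2 with hχ
  have hχ0 : 0 < χ := mul_pos (by linarith) hL2
  have hχ1 : χ < Real.log 2 := by rw [hχ]; nlinarith
  obtain ⟨k0, hk0⟩ := clientWinsWC_sharp χ hχ0 hχ1
  refine ⟨max k0 2, ?_⟩
  intro k hk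
  have hk2 : 2 ≤ k := le_trans (le_max_right _ _) hk
  obtain ⟨n0, hn0⟩ := hk0 k (le_trans (le_max_left _ _) hk)
  have hfact : (0 : ℝ) < k.factorial := by exact_mod_cast Nat.factorial_pos k
  filter_upwards [eventually_ge_atTop n0, eventually_gt_atTop 0,
    eventually_ratio k hk2 χ hχ0 ε' hε'0] with n hn hnpos hratio
  have hnR : (0 : ℝ) < n := by exact_mod_cast hnpos
  set X : ℝ := (n : ℝ) ^ (k - 1) / (k.factorial * χ) with hX
  have hX0 : 0 < X := by positivity
  have hspec := biasWC_spec k n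
  have hble : biasWC n k ≤ ⌈X⌉₊ := by
    apply Nat.sInf_le
    refine ⟨Nat.one_le_iff_ne_zero.mpr (Nat.pos_iff_ne_zero.mp (Nat.ceil_pos.mpr hX0)), ?_⟩
    apply hn0 n hn
    have h1 : X ≤ ((⌈X⌉₊ + 1 : ℕ) : ℝ) := by
      push_cast
      have := Nat.le_ceil X
      linarith
    rw [div_le_iff₀ (by positivity)]
    have e : (n : ℝ) ^ k = n * (χ * (k.factorial * X)) := by
      have : (n : ℝ) ^ k = n * (n : ℝ) ^ (k - 1) := by
        rw [← pow_succ', Nat.sub_add_cancel (by omega)]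
      rw [hX, this]
      field_simp
    rw [e]
    calc (n : ℝ) * (χ * (k.factorial * X)) ≤ n * (χ * (k.factorial * ((⌈X⌉₊ + 1 : ℕ) : ℝ))) := by
          apply mul_le_mul_of_nonneg_left _ hnR.le
          apply mul_le_mul_of_nonneg_left _ hχ0.le
          exact mul_le_mul_of_nonneg_left h1 hfact.le
      _ = _ := by ring
  have h2 : (biasWC n k : ℝ) ≤ X + 1 := by
    calc (biasWC n k : ℝ) ≤ (⌈X⌉₊ : ℝ) := by exact_mod_cast hble
      _ ≤ X + 1 := (Nat.ceil_lt_add_one hX0.le).le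
  have h3 := hratio (biasWC n k) (by omega) h2
  have h4 : χ / Real.log 2 = 1 - ε' := by
    rw [hχ]
    field_simp
  rw [h4] at h3
  linarith

/-- **Waiter-Client game**: the normalised inverse bias is `1 + o_k(1)`. -/
theorem biasWC_sharp (ε : ℝ) (hε : 0 < ε) : ∃ k0 : ℕ, ∀ k ≥ k0, ∀ᶠ n : ℕ in atTop,
    |1 / (n : ℝ) * n.choose k * (biasWC n k : ℝ)⁻¹ / Real.log 2 - 1| ≤ ε := by
  obtain ⟨k0, hk0⟩ := biasWC_lower ε hε
  refine ⟨max k0 2, ?_⟩
  intro k hk
  have hk2 : 2 ≤ k := le_trans (le_max_right _ _) hk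
  filter_upwards [hk0 k (le_trans (le_max_left _ _) hk), biasWC_first_moment k hk2 ε hε]
    with n h1 h2
  have h3 := const_lt_one (k := k) (by omega)
  rw [abs_le]
  constructor
  · linarith
  · linarith

end Pool.Agent.W_MP_fefad7_co.Sharp
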