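import Pool.Agent.W_MP_fefad7_co.Sharp.PairStep

set_option autoImplicit false

namespace Pool.Agent.W_MP_fefad7_co.Sharp

open Finset

variable {S C : Type*}

lemma newW_nonneg {θ : ℝ} (hθ : θ < 1) {O : Finset C} {h : C → S → ℝ} {W : S → ℝ} {c : C} {s : S}
    (hW : 0 ≤ W s) (hh : -1 ≤ h c s) : 0 ≤ newW θ O h W c s := by
  unfold newW
  split_ifs with h1
  · have := (abs_le.mp h1).1
    apply div_nonneg (mul_nonneg hW (by linarith)) (by linarith)
  · exact le_rfl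

/-- Average of the total weight. -/
lemma sum_newW [Fintype S] (θ : ℝ) (hθ : θ < 1) {O : Finset C}
    (hO : O.Nonempty) (h : C → S → ℝ) (W : S → ℝ) :
    ∑ c ∈ O, ∑ s, newW θ O h W c s =
      (O.card : ℝ) * ∑ s ∈ Finset.univ.filter (fun s => |avg1 O h s| ≤ θ), W s := by
  classical
  have hc : (0 : ℝ) < (O.card : ℝ) := by exact_mod_cast Finset.card_pos.mpr hO
  rw [Finset.sum_comm, Finset.mul_sum, Finset.sum_filter]
  refine Finset.sum_congr rfl fun s _ => ?_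
  unfold newW
  split_ifs with h1
  · have h3 : (1 + avg1 O h s) ≠ 0 := by
      have := (abs_le.mp h1).1
      intro h'; linarith
    rw [← Finset.sum_div, ← Finset.mul_sum]
    have e : ∑ c ∈ O, (1 + h c s) = (O.card : ℝ) * (1 + avg1 O h s) := by
      rw [Finset.sum_add_distrib]
      unfold avg1
      field_simp
      simp
    rw [e]
    field_simp
  · simp

/-- Squares potential. -/
noncomputable def sqf [Fintype S] (Q ρ : ℝ) (h : C → S → ℝ) (U : Finset C) (W : S → ℝ) : ℝ :=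
  ∑ s, W s ^ 2 * Real.exp (ρ * ker Q h U s s)

lemma sqf_step [Fintype S] [DecidableEq C] {Q : ℝ} (hQ : 0 < Q) (θ : ℝ) (hθ : θ < 1)
    (ρ : ℝ) (hρ : 1 ≤ ρ * (1 - θ) ^ 2)
    (h : C → S → ℝ) (W : S → ℝ) {U O : Finset C} (hO : O ⊆ U)
    (hcard : (O.card : ℝ) = Q) :
    ∑ c ∈ O, sqf Q ρ h (U \ O) (newW θ O h W c) ≤ Q * sqf Q ρ h U W := by
  unfold sqf
  rw [Finset.sum_comm, Finset.mul_sum]
  refine Finset.sum_le_sum fun s _ => ?_
  rw [← Finset.sum_mul]
  have hρ0 : 0 ≤ ρ := by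
    by_contra hcon
    push Not at hcon
    have : ρ * (1 - θ) ^ 2 ≤ 0 := mul_nonpos_of_nonpos_of_nonneg hcon.le (sq_nonneg _)
    linarith
  have hsplit := ker_split h hO hcard s s
  set v : ℝ := avg2 O h s s with hv
  have hv0 : 0 ≤ v := by
    rw [hv]
    unfold avg2
    apply div_nonneg _ (by positivity)
    exact Finset.sum_nonneg fun c _ => mul_self_nonneg _
  have key : ∑ c ∈ O, newW θ O h W c s ^ 2 ≤ Q * W s ^ 2 * Real.exp (ρ * v) := by
    by_cases h1 : |avg1 O h s| ≤ θ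
    · have e1 : ∀ c ∈ O, newW θ O h W c s ^ 2 =
          W s ^ 2 / (1 + avg1 O h s) ^ 2 * (1 + 2 * h c s + h c s * h c s) := by
        intro c _
        unfold newW
        rw [if_pos h1, div_pow, mul_pow]
        ring
      rw [Finset.sum_congr rfl e1, ← Finset.mul_sum, Finset.sum_add_distrib,
        Finset.sum_add_distrib, ← Finset.mul_sum]
      have e2 : ∑ c ∈ O, h c s = Q * avg1 O h s := by
        unfold avg1
        rw [hcard]
        field_simp
      have e3 : ∑ c ∈ O, h c s * h c s = Q * v := by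
        rw [hv]
        unfold avg2
        rw [hcard]
        field_simp
      have e4 : ∑ _c ∈ O, (1 : ℝ) = Q := by
        rw [Finset.sum_const, nsmul_eq_mul, mul_one, hcard]
      rw [e2, e3, e4]
      set ξ := avg1 O h s with hξ
      have h2 : 1 - θ ≤ 1 + ξ := by
        have := (abs_le.mp h1).1
        linarith
      have h3 : 0 < 1 + ξ := by linarith
      have h4 : (1 - θ) ^ 2 ≤ (1 + ξ) ^ 2 := by
        apply pow_le_pow_left₀ (by linarith) h2
      have h5 : 1 + 2 * ξ + v ≤ (1 + ξ) ^ 2 * (1 + ρ * v) := by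
        have h6 : v ≤ (1 + ξ) ^ 2 * (ρ * v) := by
          calc v = 1 * v := (one_mul v).symm
            _ ≤ (ρ * (1 - θ) ^ 2) * v := mul_le_mul_of_nonneg_right hρ hv0
            _ = (1 - θ) ^ 2 * (ρ * v) := by ring
            _ ≤ (1 + ξ) ^ 2 * (ρ * v) := mul_le_mul_of_nonneg_right h4 (by positivity)
        nlinarith [sq_nonneg ξ]
      have h7 : 1 + ρ * v ≤ Real.exp (ρ * v) := by
        have := Real.add_one_le_exp (ρ * v)
        linarith
      have h8 : W s ^ 2 / (1 + ξ) ^ 2 * (Q + 2 * (Q * ξ) + Q * v) =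
          Q * (W s ^ 2 / (1 + ξ) ^ 2) * (1 + 2 * ξ + v) := by ring
      rw [h8]
      have h9 : 0 ≤ W s ^ 2 := sq_nonneg _
      calc Q * (W s ^ 2 / (1 + ξ) ^ 2) * (1 + 2 * ξ + v)
          ≤ Q * (W s ^ 2 / (1 + ξ) ^ 2) * ((1 + ξ) ^ 2 * (1 + ρ * v)) :=
            mul_le_mul_of_nonneg_left h5 (by positivity)
        _ = Q * W s ^ 2 * (1 + ρ * v) := by field_simp
        _ ≤ Q * W s ^ 2 * Real.exp (ρ * v) := mul_le_mul_of_nonneg_left h7 (by positivity)
    · have e1 : ∀ c ∈ O, newW θ O h W c s ^ 2 = 0 := by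
        intro c _
        unfold newW
        rw [if_neg h1]
        ring
      rw [Finset.sum_congr rfl e1, Finset.sum_const_zero]
      positivity
  calc (∑ c ∈ O, newW θ O h W c s ^ 2) * Real.exp (ρ * ker Q h (U \ O) s s)
      ≤ (Q * W s ^ 2 * Real.exp (ρ * v)) * Real.exp (ρ * ker Q h (U \ O) s s) :=
        mul_le_mul_of_nonneg_right key (Real.exp_pos _).le
    _ = Q * (W s ^ 2 * Real.exp (ρ * ker Q h U s s)) := by
        rw [hsplit, mul_add, Real.exp_add]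
        ring

/-- Moment bound for the weight of the assignments with a large average. -/
lemma tail_bound [Fintype S] (θ : ℝ) (hθ0 : 0 < θ) {O : Finset C}
    (hO : O.Nonempty) (h g : C → S → ℝ) (hg : ∀ c ∈ O, ∀ s, |h c s - g c s| ≤ θ / 2)
    (W : S → ℝ) (hW : ∀ s, 0 ≤ W s) (K : S → S → ℝ) (hK : GLe (avg2 O g) K) (r : ℕ)
    (hr : Even r) :
    (∑ s ∈ Finset.univ.filter (fun s => ¬ |avg1 O h s| ≤ θ), W s) ^ 2 ≤
      ((2 / θ) ^ r) ^ 2 * qf Finset.univ W (fun s t => K s t ^ r) := by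
  classical
  have hc : (0 : ℝ) < (O.card : ℝ) := by exact_mod_cast Finset.card_pos.mpr hO
  have h1 : ∑ s ∈ Finset.univ.filter (fun s => ¬ |avg1 O h s| ≤ θ), W s ≤
      (2 / θ) ^ r * ∑ s, W s * avg1 O g s ^ r := by
    rw [Finset.mul_sum, Finset.sum_filter]
    refine Finset.sum_le_sum fun s _ => ?_
    have hnn : 0 ≤ avg1 O g s ^ r := hr.pow_nonneg _
    split_ifs with h2
    · have : 0 ≤ (2 / θ) ^ r * (W s * avg1 O g s ^ r) := by
        have := hW s
        positivity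
      exact this
    · push Not at h2
      have h3 : |avg1 O h s - avg1 O g s| ≤ θ / 2 := by
        unfold avg1
        rw [← sub_div, abs_div, Nat.abs_cast, div_le_iff₀ hc, ← Finset.sum_sub_distrib]
        calc |∑ c ∈ O, (h c s - g c s)| ≤ ∑ c ∈ O, |h c s - g c s| :=
              Finset.abs_sum_le_sum_abs _ _
          _ ≤ ∑ c ∈ O, θ / 2 := Finset.sum_le_sum fun c hc => hg c hc s
          _ = θ / 2 * (O.card : ℝ) := by
              rw [Finset.sum_const, nsmul_eq_mul]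
              ring
      have h4 : θ / 2 ≤ |avg1 O g s| := by
        have h5 : |avg1 O h s| ≤ |avg1 O h s - avg1 O g s| + |avg1 O g s| := by
          have := abs_add_le (avg1 O h s - avg1 O g s) (avg1 O g s)
          simpa using this
        linarith
      have h6 : 1 ≤ (2 / θ) ^ r * avg1 O g s ^ r := by
        rw [← hr.pow_abs (avg1 O g s), ← mul_pow]
        apply one_le_pow₀
        rw [div_mul_eq_mul_div, le_div_iff₀ hθ0]
        linarith
      calc W s = W s * 1 := (mul_one _).symm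
        _ ≤ W s * ((2 / θ) ^ r * avg1 O g s ^ r) := mul_le_mul_of_nonneg_left h6 (hW s)
        _ = (2 / θ) ^ r * (W s * avg1 O g s ^ r) := by ring
  have h2 : 0 ≤ ∑ s ∈ Finset.univ.filter (fun s => ¬ |avg1 O h s| ≤ θ), W s :=
    Finset.sum_nonneg fun s _ => hW s
  have h3 : (∑ s, W s * avg1 O g s ^ r) ^ 2 ≤ qf Finset.univ W (fun s t => K s t ^ r) := by
    rw [← qf_rankOne Finset.univ W (fun s => avg1 O g s ^ r)]
    have h4 : GLe (fun s t => avg1 O g s * avg1 O g t) K :=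
      GLe.trans (X := fun s t => avg1 O g s * avg1 O g t) (Y := avg2 O g) (gram_avg2_sub hO g) hK
    have h5 := (h4.pow (gram_rankOne _) r).qf_le Finset.univ W
    refine le_trans (le_of_eq ?_) h5
    apply qf_congr
    intro s _ t _
    rw [mul_pow]
  calc (∑ s ∈ Finset.univ.filter (fun s => ¬ |avg1 O h s| ≤ θ), W s) ^ 2
      ≤ ((2 / θ) ^ r * ∑ s, W s * avg1 O g s ^ r) ^ 2 := pow_le_pow_left₀ h2 h1 2
    _ = ((2 / θ) ^ r) ^ 2 * (∑ s, W s * avg1 O g s ^ r) ^ 2 := by ring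
    _ ≤ _ := mul_le_mul_of_nonneg_left h3 (by positivity)

/-- The potential. -/
noncomputable def jpot [Fintype S] (Q ρ l1 l2 : ℝ) (κ : S → S → ℝ) (M : ℕ) (h : C → S → ℝ)
    (U : Finset C) (W : S → ℝ) : ℝ :=
  ∑ s, W s - l1 * psi Q κ M h U W - l2 * sqf Q ρ h U W

/-- Some member of the offer does not decrease the potential by more than the loss. -/
lemma jpot_step [Fintype S] [DecidableEq C] {Q : ℝ} (hQ : 0 < Q) (κ : S → S → ℝ) (hκ : Gram κ)
    (hκ0 : ∀ s t, 0 ≤ κ s t) (M : ℕ) (hM : Even M) (θ : ℝ) (hθ1 : θ ≤ 1 / 4)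
    (ρ : ℝ) (hρ : 1 ≤ ρ * (1 - θ) ^ 2) (l1 l2 : ℝ) (hl1 : 0 ≤ l1) (hl2 : 0 ≤ l2)
    (h : C → S → ℝ) (W : S → ℝ) (hW : ∀ s, 0 ≤ W s) {U O : Finset C} (hO : O ⊆ U)
    (hcard : (O.card : ℝ) = Q) (hh : ∀ c ∈ O, ∀ s, |h c s| ≤ 1) (δ : ℝ)
    (hδ : ∑ s ∈ Finset.univ.filter (fun s => ¬ |avg1 O h s| ≤ θ), W s +
      l1 * qf Finset.univ W (fun s t => κ s t * errT M (2 * ker Q h (U \ O) s t)) ≤ δ) :
    ∃ c ∈ O, jpot Q ρ l1 l2 κ M h U W - δ ≤ jpot Q ρ l1 l2 κ M h (U \ O) (newW θ O h W c) := by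
  classical
  have hOne : O.Nonempty := by
    rw [← Finset.card_pos]
    have : (0 : ℝ) < (O.card : ℝ) := by rw [hcard]; exact hQ
    exact_mod_cast this
  by_contra hcon
  push Not at hcon
  have h1 : ∑ c ∈ O, jpot Q ρ l1 l2 κ M h (U \ O) (newW θ O h W c) <
      ∑ _c ∈ O, (jpot Q ρ l1 l2 κ M h U W - δ) :=
    Finset.sum_lt_sum_of_nonempty hOne hcon
  rw [Finset.sum_const, nsmul_eq_mul, hcard] at h1
  have h2 : ∑ c ∈ O, jpot Q ρ l1 l2 κ M h (U \ O) (newW θ O h W c) =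
      ∑ c ∈ O, ∑ s, newW θ O h W c s - l1 * ∑ c ∈ O, psi Q κ M h (U \ O) (newW θ O h W c) -
      l2 * ∑ c ∈ O, sqf Q ρ h (U \ O) (newW θ O h W c) := by
    unfold jpot
    rw [Finset.mul_sum, Finset.mul_sum, ← Finset.sum_sub_distrib, ← Finset.sum_sub_distrib]
  rw [h2] at h1
  have h3 := psi_step hQ κ hκ hκ0 M hM θ hθ1 h W hW hO hcard hh
  have h4 := sqf_step hQ θ (by linarith) ρ hρ h W hO hcard
  have h5 := sum_newW θ (by linarith) hOne h W
  rw [hcard] at h5
  have h6 : ∑ s ∈ Finset.univ.filter (fun s => |avg1 O h s| ≤ θ), W s +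
      ∑ s ∈ Finset.univ.filter (fun s => ¬ |avg1 O h s| ≤ θ), W s = ∑ s, W s :=
    Finset.sum_filter_add_sum_filter_not _ _ _
  set a1 := ∑ s ∈ Finset.univ.filter (fun s => |avg1 O h s| ≤ θ), W s
  set a2 := ∑ s ∈ Finset.univ.filter (fun s => ¬ |avg1 O h s| ≤ θ), W s
  set e1 := qf Finset.univ W (fun s t => κ s t * errT M (2 * ker Q h (U \ O) s t))
  have h7 := mul_le_mul_of_nonneg_left h3 hl1
  have h8 := mul_le_mul_of_nonneg_left h4 hl2
  rw [h5] at h1
  have h9 : jpot Q ρ l1 l2 κ M h U W = ∑ s, W s - l1 * psi Q κ M h U W -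
    l2 * sqf Q ρ h U W := rfl
  rw [h9] at h1
  have h10 : Q * (a2 + l1 * e1) ≤ Q * δ := mul_le_mul_of_nonneg_left hδ hQ.le
  nlinarith

end Pool.Agent.W_MP_fefad7_co.Sharp
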