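import Pool.Agent.W_MP_fefad7_co.Basic
import Pool.Agent.W_MP_fefad7_co.Sharp.Step

set_option autoImplicit false

namespace Pool.Agent.W_MP_fefad7_co.Sharp

open Finset

variable {n : ℕ}

/-- Client wins the Waiter-Client game if the potential stays positive. -/
lemma clientWinsWC_of_jpot (q : ℕ) (κ : (Fin n → Bool) → (Fin n → Bool) → ℝ) (hκ : Gram κ)
    (hκ0 : ∀ s t, 0 ≤ κ s t) (M : ℕ) (hM : Even M) (θ : ℝ) (hθ1 : θ ≤ 1 / 4)
    (ρ : ℝ) (hρ : 1 ≤ ρ * (1 - θ) ^ 2) (l1 l2 : ℝ) (hl1 : 0 ≤ l1) (hl2 : 0 ≤ l2)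
    (h : Clause n → (Fin n → Bool) → ℝ) (B : Finset (Clause n))
    (hh : ∀ c ∈ B, ∀ s, |h c s| ≤ 1)
    (hviol : ∀ c ∈ B, ∀ s : Fin n → Bool, (∀ l ∈ c, s l.1 ≠ l.2) → h c s = -1)
    (δ P0 : ℝ) (hδ0 : 0 ≤ δ) (hP0 : 0 < P0)
    (H : ∀ U ⊆ B, ∀ O ⊆ U, O.card = q + 1 → ∀ W : (Fin n → Bool) → ℝ, (∀ s, 0 ≤ W s) →
      P0 ≤ jpot ((q + 1 : ℕ) : ℝ) ρ l1 l2 κ M h U W →
      ∑ s ∈ Finset.univ.filter (fun s => ¬ |avg1 O h s| ≤ θ), W s +
      l1 * qf Finset.univ W (fun s t => κ s t * errT M (2 * ker ((q + 1 : ℕ) : ℝ) h (U \ O) s t))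
        ≤ δ) :
    ∀ (N : ℕ) (U X : Finset (Clause n)) (W : (Fin n → Bool) → ℝ), U.card ≤ N → U ⊆ B →
      (∀ s, 0 ≤ W s) → (∀ s, 0 < W s → ∀ c ∈ X, ∃ l ∈ c, s l.1 = l.2) →
      P0 + δ * (U.card / ((q + 1 : ℕ) : ℝ)) ≤ jpot ((q + 1 : ℕ) : ℝ) ρ l1 l2 κ M h U W →
      ClientWinsWC q U X := by
  classical
  have hQ : (0 : ℝ) < ((q + 1 : ℕ) : ℝ) := by positivity
  have hM2 : Even (M + 2) := by
    obtain ⟨r, hr⟩ := hM
    exact ⟨r + 1, by omega⟩
  -- a position with a positive potential is satisfiable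
  have hsat : ∀ (U X : Finset (Clause n)) (W : (Fin n → Bool) → ℝ), (∀ s, 0 ≤ W s) →
      (∀ s, 0 < W s → ∀ c ∈ X, ∃ l ∈ c, s l.1 = l.2) →
      P0 + δ * (U.card / ((q + 1 : ℕ) : ℝ)) ≤ jpot ((q + 1 : ℕ) : ℝ) ρ l1 l2 κ M h U W →
      Satisfiable X := by
    intro U X W hW hX hJ
    have h1 : 0 ≤ psi ((q + 1 : ℕ) : ℝ) κ M h U W :=
      qf_nonneg (fun s _ => hW s) fun s _ t _ => mul_nonneg (hκ0 s t) (tex_pos hM2 _).le
    have h2 : 0 ≤ sqf ((q + 1 : ℕ) : ℝ) ρ h U W :=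
      Finset.sum_nonneg fun s _ => by positivity
    have h3 : 0 < ∑ s, W s := by
      unfold jpot at hJ
      have h4 : 0 ≤ δ * (U.card / ((q + 1 : ℕ) : ℝ)) := by positivity
      nlinarith [mul_nonneg hl1 h1, mul_nonneg hl2 h2]
    obtain ⟨s, _, hs⟩ : ∃ s ∈ Finset.univ, 0 < W s := by
      by_contra hcon
      push Not at hcon
      have := Finset.sum_nonpos (s := Finset.univ) (f := W) hcon
      linarith
    exact ⟨s, hX s hs⟩
  intro N
  induction N with
  | zero =>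
    intro U X W hU hUB hW hX hJ
    exact ClientWinsWC.final U X (by omega) (hsat U X W hW hX hJ)
  | succ N ih =>
    intro U X W hU hUB hW hX hJ
    by_cases hlt : U.card < q + 1
    · exact ClientWinsWC.final U X hlt (hsat U X W hW hX hJ)
    · push Not at hlt
      have hstep : ∀ O : Finset (Clause n), ∃ c : Clause n, O ⊆ U → O.card = q + 1 →
          c ∈ O ∧ jpot ((q + 1 : ℕ) : ℝ) ρ l1 l2 κ M h U W - δ ≤
            jpot ((q + 1 : ℕ) : ℝ) ρ l1 l2 κ M h (U \ O) (newW θ O h W c) := by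
        intro O
        by_cases hO : O ⊆ U ∧ O.card = q + 1
        · have hP : P0 ≤ jpot ((q + 1 : ℕ) : ℝ) ρ l1 l2 κ M h U W := by
            have h4 : 0 ≤ δ * (U.card / ((q + 1 : ℕ) : ℝ)) := by positivity
            linarith
          obtain ⟨c, hc, hc'⟩ := jpot_step hQ κ hκ hκ0 M hM θ hθ1 ρ hρ l1 l2 hl1 hl2 h W hW hO.1
            (by rw [hO.2]) (fun c hc s => hh c (hUB (hO.1 hc)) s) δ
            (H U hUB O hO.1 hO.2 W hW hP)
          exact ⟨c, fun _ _ => ⟨hc, hc'⟩⟩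
        · exact ⟨∅, fun h1 h2 => absurd ⟨h1, h2⟩ hO⟩
      choose r hr using hstep
      refine ClientWinsWC.respond U X hlt r (fun O hO hc => (hr O hO hc).1) ?_
      intro O hO hc
      obtain ⟨hrO, hJ'⟩ := hr O hO hc
      have hne : O.Nonempty := Finset.card_pos.mp (by omega)
      have hlt' := sdiff_card_lt hO hne
      refine ih (U \ O) (insert (r O) X) (newW θ O h W (r O)) (by omega)
        (Finset.sdiff_subset.trans hUB) ?_ ?_ ?_
      · intro s
        exact newW_nonneg (by linarith) (hW s) (abs_le.mp (hh (r O) (hUB (hO hrO)) s)).1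
      · intro s hs c hcX
        have hWs : 0 < W s := by
          rcases (hW s).lt_or_eq with h1 | h1
          · exact h1
          · exfalso
            unfold newW at hs
            rw [← h1] at hs
            simp at hs
        rcases Finset.mem_insert.mp hcX with rfl | hcX
        · by_contra hcon
          push Not at hcon
          have := hviol (r O) (hUB (hO hrO)) s hcon
          unfold newW at hs
          rw [this] at hs
          simp at hs
        · exact hX s hWs c hcX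
      · have h5 : (((U \ O).card : ℕ) : ℝ) = (U.card : ℝ) - ((q + 1 : ℕ) : ℝ) := by
          rw [Finset.card_sdiff_of_subset hO, Nat.cast_sub (Finset.card_le_card hO), hc]
        rw [h5]
        have h6 : δ * (((U.card : ℝ) - ((q + 1 : ℕ) : ℝ)) / ((q + 1 : ℕ) : ℝ)) =
            δ * (U.card / ((q + 1 : ℕ) : ℝ)) - δ := by
          field_simp
        rw [h6]
        linarith

end Pool.Agent.W_MP_fefad7_co.Sharp
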