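import Pool.Agent.W_MP_fefad7_co.Sharp.Chernoff
import Pool.Agent.W_MP_fefad7_co.Sharp.Game

set_option autoImplicit false

namespace Pool.Agent.W_MP_fefad7_co.Sharp

open Finset

variable {n k : ℕ}

lemma card_board_le (k n : ℕ) : (k.factorial : ℝ) * ((board k n).card : ℝ) ≤ (2 * (n : ℝ)) ^ k := by
  obtain ⟨T, hT⟩ := exists_tuples k n
  have h1 := hT (fun _ => 1) (fun _ => 1) (fun _ _ => rfl)
  rw [Finset.sum_const, Finset.sum_const, nsmul_eq_mul, nsmul_eq_mul, mul_one, mul_one] at h1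
  rw [h1]
  have h2 : T.card ≤ (2 * n) ^ k := by
    have := Finset.card_le_univ T
    simp only [Fintype.card_pi, Finset.prod_const, Finset.card_univ, Fintype.card_fin,
      Fintype.card_prod, Fintype.card_bool] at this
    rw [mul_comm 2 n]
    exact this
  exact_mod_cast h2

/-- Data and numerical conditions (for fixed `k`, `n`, `q`). -/
structure Data (k n q : ℕ) (b m η χ θ ρ z l ϖ E1 E2 C3 : ℝ) (M : ℕ) : Prop where
  hn : 0 < n
  hP : Params (k + 2) b m η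
  chi_pos : 0 < χ
  chi_le : χ ≤ 7 / 10
  dens : (n : ℝ) ^ (k + 2) / ((k + 2).factorial * ((q + 1 : ℕ) : ℝ)) ≤ χ * n
  th_pos : 0 < θ
  th_le : θ ≤ 1 / 4
  rho : 1 ≤ ρ * (1 - θ) ^ 2
  rho_pos : 0 < ρ
  deg2 : ((k + 2 : ℕ) : ℝ) ^ 2 * (1 / 2) ^ (k + 2) ≤ θ / 2
  z_nonneg : 0 ≤ z
  z_le : z ≤ 1 / 8
  l_nonneg : 0 ≤ l
  mid : (1 - z) ^ (k + 2) + (2 * η + 2 ^ (k + 2) * η ^ 2) ≤ ϖ
  small : 2 * η + 2 ^ (k + 2) * η ^ 2 ≤ 1 / 4
  quad : ((k + 2 : ℕ).choose 2 : ℝ) * (1 - z) ^ k ≤ 1 / 16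
  hM : Even M
  hE1 : ∀ x : ℝ, |x| ≤ 2 * ϖ * n → errT M x ≤ E1
  hE2 : ∀ x : ℝ, |x| ≤ 2 * n → errT M x ≤ E2
  hC3 : 1 ≤ C3
  hT : ∀ x : ℝ, 0 ≤ x → x ≤ 8 * n → tex (M + 2) x ≤ C3 * Real.exp (9 / 128 * n)

/-- Constant for the fixed factor. -/
noncomputable def C2 (k : ℕ) : ℝ := 1 + ((k + 2 : ℕ) : ℝ) ^ 12 * (8 ^ 18 * (Nat.factorial 18 : ℝ))

/-- Bound for the initial value of the normalised pair potential. -/
noncomputable def D0 (k n : ℕ) (C3 : ℝ) : ℝ := C2 k * C3 * (n + 1)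

/-- Bound for the initial value of the squares potential. -/
noncomputable def E0 (k n : ℕ) (η χ ρ : ℝ) : ℝ :=
  Real.exp (ρ * (χ * n * (1 + (2 * η + 2 ^ (k + 2) * η ^ 2))))

lemma C2_pos (k : ℕ) : 1 ≤ C2 k := by
  unfold C2
  have : (0 : ℝ) ≤ ((k + 2 : ℕ) : ℝ) ^ 12 * (8 ^ 18 * (Nat.factorial 18 : ℝ)) := by positivity
  linarith

section

variable {q M : ℕ} {b m η χ θ ρ z l ϖ E1 E2 C3 : ℝ}

lemma Data.D0_pos (D : Data k n q b m η χ θ ρ z l ϖ E1 E2 C3 M) : 0 < D0 k n C3 := by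
  have h1 := C2_pos k
  have h2 := D.hC3
  unfold D0
  positivity

lemma Data.ker_le (D : Data k n q b m η χ θ ρ z l ϖ E1 E2 C3 M) {U : Finset (Clause n)}
    (hU : U ⊆ board (k + 2) n) (s t : Fin n → Bool) :
    |ker ((q + 1 : ℕ) : ℝ) (hc b m) U s t| ≤
      χ * n * (((1 + nov s t) / 2) ^ (k + 2) + (2 * η + 2 ^ (k + 2) * η ^ 2)) := by
  have hnR : (0 : ℝ) < n := by exact_mod_cast D.hn
  have hQ : (0 : ℝ) < ((q + 1 : ℕ) : ℝ) := by positivity
  have hfact : (0 : ℝ) < (k + 2).factorial := by exact_mod_cast Nat.factorial_pos _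
  have h1 := abs_ker_le D.hP hQ hU s t
  have e1 : (((n : ℝ) + ov s t) / 2) = n * ((1 + nov s t) / 2) := by
    unfold nov
    field_simp
  have e2 : ((((n : ℝ) + ov s t) / 2) ^ (k + 2) + 2 * η * (n : ℝ) ^ (k + 2) +
      η ^ 2 * (2 * (n : ℝ)) ^ (k + 2)) / ((k + 2).factorial * ((q + 1 : ℕ) : ℝ)) =
      (n : ℝ) ^ (k + 2) / ((k + 2).factorial * ((q + 1 : ℕ) : ℝ)) *
        (((1 + nov s t) / 2) ^ (k + 2) + (2 * η + 2 ^ (k + 2) * η ^ 2)) := by
    rw [e1, mul_pow, mul_pow]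
    ring
  rw [e2] at h1
  refine h1.trans (mul_le_mul_of_nonneg_right D.dens ?_)
  have h2 := (abs_le.mp (abs_nov_le s t)).1
  have h3 := D.hP.eta_nonneg
  have h4 : 0 ≤ ((1 + nov s t) / 2) ^ (k + 2) := pow_nonneg (by linarith) _
  positivity

lemma Data.two_ker_le (D : Data k n q b m η χ θ ρ z l ϖ E1 E2 C3 M) {U : Finset (Clause n)}
    (hU : U ⊆ board (k + 2) n) (s t : Fin n → Bool) :
    |2 * ker ((q + 1 : ℕ) : ℝ) (hc b m) U s t| ≤ 2 * n := by
  have hnR : (0 : ℝ) < n := by exact_mod_cast D.hn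
  have h1 := D.ker_le hU s t
  have h2 := abs_le.mp (abs_nov_le s t)
  have h4 : ((1 + nov s t) / 2) ^ (k + 2) ≤ 1 := pow_le_one₀ (by linarith) (by linarith)
  have h5 := D.small
  have h6 := D.chi_le
  have h7 := D.chi_pos
  rw [abs_mul, abs_two]
  have h8 : χ * n * (((1 + nov s t) / 2) ^ (k + 2) + (2 * η + 2 ^ (k + 2) * η ^ 2)) ≤
      χ * n * (5 / 4) := mul_le_mul_of_nonneg_left (by linarith) (by positivity)
  nlinarith

lemma Data.two_ker_le_mid (D : Data k n q b m η χ θ ρ z l ϖ E1 E2 C3 M) {U : Finset (Clause n)}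
    (hU : U ⊆ board (k + 2) n) (s t : Fin n → Bool) (h : ov s t ≤ (1 - 2 * z) * n) :
    |2 * ker ((q + 1 : ℕ) : ℝ) (hc b m) U s t| ≤ 2 * ϖ * n := by
  have hnR : (0 : ℝ) < n := by exact_mod_cast D.hn
  have h1 := D.ker_le hU s t
  have h2 := abs_le.mp (abs_nov_le s t)
  have h3 : nov s t ≤ 1 - 2 * z := by
    unfold nov
    rw [div_le_iff₀ hnR]
    exact h
  have h4 : ((1 + nov s t) / 2) ^ (k + 2) ≤ (1 - z) ^ (k + 2) :=
    pow_le_pow_left₀ (by linarith) (by linarith) _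
  have h5 := D.mid
  have h6 := D.chi_le
  have h7 := D.chi_pos
  have h9 := D.hP.eta_nonneg
  have h10 : 0 ≤ (1 - z) ^ (k + 2) + (2 * η + 2 ^ (k + 2) * η ^ 2) := by
    have : 0 ≤ 1 - z := by linarith [D.z_le]
    positivity
  rw [abs_mul, abs_two]
  have h8 : χ * n * (((1 + nov s t) / 2) ^ (k + 2) + (2 * η + 2 ^ (k + 2) * η ^ 2)) ≤
      1 * n * ϖ := by
    apply mul_le_mul _ (by linarith) _ (by positivity)
    · exact mul_le_mul_of_nonneg_right (by linarith) hnR.le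
    · have : 0 ≤ ((1 + nov s t) / 2) ^ (k + 2) := pow_nonneg (by linarith) _
      positivity
  linarith

lemma Data.tex_khat_le (D : Data k n q b m η χ θ ρ z l ϖ E1 E2 C3 M) (s t : Fin n → Bool) :
    tex (M + 2) (2 * khat (k + 2) b m ((q + 1 : ℕ) : ℝ) s t) ≤
      C3 * Real.exp (ov s t ^ 2 / (8 * n)) := by
  have hnR : (0 : ℝ) < n := by exact_mod_cast D.hn
  have hQ : (0 : ℝ) < ((q + 1 : ℕ) : ℝ) := by positivity
  have hchi := D.chi_pos
  have hchi1 := D.chi_le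
  refine (tex_le_abs (M + 2) _).trans ?_
  by_cases h : |ov s t| ≤ (1 - 2 * z) * n
  · have h1 := abs_khat_le_small D.hP hQ z D.hn s t h
    have h2 : |khat (k + 2) b m ((q + 1 : ℕ) : ℝ) s t| ≤ 1 / 16 * (ov s t ^ 2 / n) := by
      refine h1.trans ?_
      have h3 : (n : ℝ) ^ (k + 2) / ((k + 2).factorial * ((q + 1 : ℕ) : ℝ)) ≤ n := by
        refine D.dens.trans ?_
        nlinarith
      have h0 : 0 ≤ (n : ℝ) ^ (k + 2) / ((k + 2).factorial * ((q + 1 : ℕ) : ℝ)) := by positivity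
      have h4 := D.quad
      have h5 : 0 ≤ 1 - z := by linarith [D.z_le]
      calc (n : ℝ) ^ (k + 2) / ((k + 2).factorial * ((q + 1 : ℕ) : ℝ)) *
            ((((k + 2 : ℕ).choose 2 : ℝ) * (1 - z) ^ k) * (ov s t / n) ^ 2)
          ≤ n * (1 / 16 * (ov s t / n) ^ 2) := by
            apply mul_le_mul h3 _ (by positivity) hnR.le
            exact mul_le_mul_of_nonneg_right h4 (by positivity)
        _ = 1 / 16 * (ov s t ^ 2 / n) := by field_simp
    have h3 : |2 * khat (k + 2) b m ((q + 1 : ℕ) : ℝ) s t| ≤ ov s t ^ 2 / (8 * n) := by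
      rw [abs_mul, abs_two]
      calc 2 * |khat (k + 2) b m ((q + 1 : ℕ) : ℝ) s t| ≤ 2 * (1 / 16 * (ov s t ^ 2 / n)) :=
            mul_le_mul_of_nonneg_left h2 (by norm_num)
        _ = ov s t ^ 2 / (8 * n) := by
            field_simp
            ring
    calc tex (M + 2) |2 * khat (k + 2) b m ((q + 1 : ℕ) : ℝ) s t|
        ≤ Real.exp |2 * khat (k + 2) b m ((q + 1 : ℕ) : ℝ) s t| := tex_le_exp _ (abs_nonneg _)
      _ ≤ Real.exp (ov s t ^ 2 / (8 * n)) := Real.exp_le_exp.mpr h3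
      _ ≤ C3 * Real.exp (ov s t ^ 2 / (8 * n)) :=
          le_mul_of_one_le_left (Real.exp_pos _).le D.hC3
  · push Not at h
    have h1 := abs_khat_le D.hP hQ s t
    have h2 : |2 * khat (k + 2) b m ((q + 1 : ℕ) : ℝ) s t| ≤ 8 * n := by
      rw [abs_mul, abs_two]
      have h3 := D.dens
      nlinarith
    refine (D.hT _ (abs_nonneg _) h2).trans ?_
    apply mul_le_mul_of_nonneg_left _ (by linarith [D.hC3])
    apply Real.exp_le_exp.mpr
    have h4 : 3 / 4 * (n : ℝ) ≤ |ov s t| := by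
      have := D.z_le
      nlinarith
    have h5 : (3 / 4 * (n : ℝ)) ^ 2 ≤ ov s t ^ 2 := by
      rw [← sq_abs (ov s t)]
      exact pow_le_pow_left₀ (by positivity) h4 2
    rw [le_div_iff₀ (by positivity)]
    nlinarith

/-- Initial value of the pair potential. -/
lemma Data.psi_init (D : Data k n q b m η χ θ ρ z l ϖ E1 E2 C3 M) :
    psi ((q + 1 : ℕ) : ℝ) (kap (k + 2)) M (hc b m) (board (k + 2) n) (fun _ => 1) ≤
      D0 k n C3 * (2 ^ n) ^ 2 := by
  have hnR : (0 : ℝ) < n := by exact_mod_cast D.hn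
  have hQ : (0 : ℝ) < ((q + 1 : ℕ) : ℝ) := by positivity
  have hG : Gram (ker ((q + 1 : ℕ) : ℝ) (hc b m) (board (k + 2) n)) := gram_ker hQ.le _ _
  have hG2 : Gram (khat (n := n) (k + 2) b m ((q + 1 : ℕ) : ℝ)) :=
    (ker_board_gle (k + 2) b m hQ).gram hG
  have h1 : GLe (fun s t => tex (M + 2) (2 * ker ((q + 1 : ℕ) : ℝ) (hc b m) (board (k + 2) n) s t))
      (fun s t => tex (M + 2) (2 * khat (k + 2) b m ((q + 1 : ℕ) : ℝ) s t)) :=
    gle_tex (M + 2) (hG.smul (by norm_num)) ((ker_board_gle (k + 2) b m hQ).smul (by norm_num))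
  have h2 := (GLe.mul (GLe.refl (kap (n := n) (k + 2))) h1 (gram_kap (k + 2))
    (gram_tex (M + 2) (hG2.smul (c := 2) (by norm_num)))).qf_le Finset.univ (fun _ => 1)
  refine le_trans h2 ?_
  have h3 : qf (Finset.univ : Finset (Fin n → Bool)) (fun _ => 1)
      (fun s t => kap (k + 2) s t * tex (M + 2) (2 * khat (k + 2) b m ((q + 1 : ℕ) : ℝ) s t)) ≤
      qf (Finset.univ : Finset (Fin n → Bool)) (fun _ => 1)
      (fun s t => (C2 k * C3) * Real.exp (ov s t ^ 2 / (4 * n))) := by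
    apply qf_mono (fun _ _ => zero_le_one)
    intro s _ t _
    have h4 := kap_le_exp (k + 2) D.hn s t
    have h5 := D.tex_khat_le s t
    have h6 := C2_pos k
    have hM2 : Even (M + 2) := by
      obtain ⟨r, hr⟩ := D.hM
      exact ⟨r + 1, by omega⟩
    calc kap (k + 2) s t * tex (M + 2) (2 * khat (k + 2) b m ((q + 1 : ℕ) : ℝ) s t)
        ≤ (C2 k * Real.exp (ov s t ^ 2 / (8 * n))) * (C3 * Real.exp (ov s t ^ 2 / (8 * n))) := by
          apply mul_le_mul h4 h5 (tex_pos hM2 _).le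
          positivity
      _ = (C2 k * C3) * Real.exp (ov s t ^ 2 / (4 * n)) := by
          have e : ov s t ^ 2 / (4 * n) = ov s t ^ 2 / (8 * n) + ov s t ^ 2 / (8 * n) := by
            field_simp
            ring
          rw [e, Real.exp_add]
          ring
  refine h3.trans ?_
  rw [qf_smul]
  unfold qf
  have h7 : ∑ s : Fin n → Bool, ∑ t : Fin n → Bool,
      (1 : ℝ) * 1 * Real.exp (ov s t ^ 2 / (4 * n)) ≤ ∑ _s : Fin n → Bool, ((n : ℝ) + 1) * 2 ^ n := by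
    refine Finset.sum_le_sum fun s _ => ?_
    simp only [one_mul]
    exact sum_exp_ov_sq D.hn s
  rw [Finset.sum_const, Finset.card_univ] at h7
  simp only [Fintype.card_pi, Fintype.card_bool, Finset.prod_const, Finset.card_univ,
    Fintype.card_fin, nsmul_eq_mul] at h7
  push_cast at h7
  have h8 := C2_pos k
  have h9 := D.hC3
  unfold D0
  calc C2 k * C3 * ∑ s : Fin n → Bool, ∑ t : Fin n → Bool,
        (1 : ℝ) * 1 * Real.exp (ov s t ^ 2 / (4 * n)) ≤ C2 k * C3 * (2 ^ n * (((n : ℝ) + 1) * 2 ^ n)) :=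
        mul_le_mul_of_nonneg_left h7 (by positivity)
    _ = _ := by ring

/-- Initial value of the squares potential. -/
lemma Data.sqf_init (D : Data k n q b m η χ θ ρ z l ϖ E1 E2 C3 M) :
    sqf ((q + 1 : ℕ) : ℝ) ρ (hc b m) (board (k + 2) n) (fun _ => 1) ≤
      2 ^ n * E0 k n η χ ρ := by
  unfold sqf E0
  have h1 : ∀ s : Fin n → Bool, (1 : ℝ) ^ 2 * Real.exp (ρ * ker ((q + 1 : ℕ) : ℝ) (hc b m)
      (board (k + 2) n) s s) ≤
      Real.exp (ρ * (χ * n * (1 + (2 * η + 2 ^ (k + 2) * η ^ 2)))) := by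
    intro s
    rw [one_pow, one_mul]
    apply Real.exp_le_exp.mpr
    apply mul_le_mul_of_nonneg_left _ D.rho_pos.le
    refine (le_abs_self _).trans ((D.ker_le (Finset.Subset.refl _) s s).trans (le_of_eq ?_))
    have hnR : (0 : ℝ) < n := by exact_mod_cast D.hn
    have : nov s s = 1 := by
      unfold nov
      rw [ov_self]
      field_simp
    rw [this]
    norm_num
  calc ∑ s : Fin n → Bool, (1 : ℝ) ^ 2 * Real.exp (ρ * ker ((q + 1 : ℕ) : ℝ) (hc b m)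
      (board (k + 2) n) s s) ≤ ∑ _s : Fin n → Bool,
      Real.exp (ρ * (χ * n * (1 + (2 * η + 2 ^ (k + 2) * η ^ 2)))) :=
        Finset.sum_le_sum fun s _ => h1 s
    _ = _ := by
      rw [Finset.sum_const, Finset.card_univ]
      simp

end

end Pool.Agent.W_MP_fefad7_co.Sharp
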