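import Pool.Agent.W_MP_fefad7_co.Sharp.Deg3

set_option autoImplicit false

namespace Pool.Agent.W_MP_fefad7_co.Sharp

open Finset

variable {n k : ℕ}

lemma sum_exp_ov (l : ℝ) (s : Fin n → Bool) :
    ∑ t : Fin n → Bool, Real.exp (l * ov s t) = (Real.exp l + Real.exp (-l)) ^ n := by
  have e1 : ∀ t : Fin n → Bool, Real.exp (l * ov s t) =
      ∏ i, Real.exp (l * (if s i = t i then (1 : ℝ) else -1)) := by
    intro t
    unfold ov
    rw [Finset.mul_sum, Real.exp_sum]
  simp only [e1]
  have e2 : ∑ t : Fin n → Bool, ∏ i, Real.exp (l * (if s i = t i then (1 : ℝ) else -1)) =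
      ∏ i : Fin n, ∑ b : Bool, Real.exp (l * (if s i = b then (1 : ℝ) else -1)) := by
    rw [Finset.prod_univ_sum, Fintype.piFinset_univ]
  rw [e2]
  have e3 : ∀ i : Fin n, ∑ b : Bool, Real.exp (l * (if s i = b then (1 : ℝ) else -1)) =
      Real.exp l + Real.exp (-l) := by
    intro i
    rw [Fintype.sum_bool]
    cases s i <;> simp
    ring
  simp only [e3]
  simp

lemma sum_exp_ov_le (l : ℝ) (s : Fin n → Bool) :
    ∑ t : Fin n → Bool, Real.exp (l * ov s t) ≤ 2 ^ n * Real.exp (n * (l ^ 2 / 2)) := by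
  rw [sum_exp_ov]
  have h1 : Real.exp l + Real.exp (-l) = 2 * Real.cosh l := by
    rw [Real.cosh_eq]
    ring
  have h2 := Real.cosh_le_exp_half_sq l
  rw [h1, Real.exp_nat_mul, ← mul_pow]
  apply pow_le_pow_left₀
  · have := Real.cosh_pos l
    positivity
  · linarith

/-- The overlap takes at most `n + 1` values. -/
lemma exists_ov_eq (s t : Fin n → Bool) :
    ∃ a ∈ Finset.range (n + 1), ov s t = 2 * (a : ℝ) - n := by
  classical
  refine ⟨(Finset.univ.filter fun i => s i = t i).card, ?_, ?_⟩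
  · rw [Finset.mem_range]
    have := Finset.card_le_univ (Finset.univ.filter fun i : Fin n => s i = t i)
    simp only [Fintype.card_fin] at this
    omega
  · unfold ov
    have e : ∀ i : Fin n, (if s i = t i then (1 : ℝ) else -1) =
        2 * (if s i = t i then (1 : ℝ) else 0) - 1 := by
      intro i
      split_ifs <;> ring
    simp only [e]
    rw [Finset.sum_sub_distrib, ← Finset.mul_sum, Finset.sum_boole]
    simp

lemma sum_exp_ov_sq (hn : 0 < n) (s : Fin n → Bool) :
    ∑ t : Fin n → Bool, Real.exp (ov s t ^ 2 / (4 * n)) ≤ (n + 1) * 2 ^ n := by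
  have hnR : (0 : ℝ) < n := by exact_mod_cast hn
  have h1 : ∀ t : Fin n → Bool, Real.exp (ov s t ^ 2 / (4 * n)) ≤
      ∑ a ∈ Finset.range (n + 1), Real.exp ((2 * (a : ℝ) - n) ^ 2 / (4 * n) -
        (2 * (a : ℝ) - n) / n * (2 * (a : ℝ) - n)) * Real.exp ((2 * (a : ℝ) - n) / n * ov s t) := by
    intro t
    obtain ⟨a, ha, hov⟩ := exists_ov_eq s t
    have h2 : Real.exp (ov s t ^ 2 / (4 * n)) = Real.exp ((2 * (a : ℝ) - n) ^ 2 / (4 * n) -
        (2 * (a : ℝ) - n) / n * (2 * (a : ℝ) - n)) * Real.exp ((2 * (a : ℝ) - n) / n * ov s t) := by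
      rw [← Real.exp_add, hov]
      congr 1
      ring
    rw [h2]
    exact Finset.single_le_sum (f := fun a : ℕ => Real.exp ((2 * (a : ℝ) - n) ^ 2 / (4 * n) -
        (2 * (a : ℝ) - n) / n * (2 * (a : ℝ) - n)) * Real.exp ((2 * (a : ℝ) - n) / n * ov s t))
      (fun a _ => by positivity) ha
  calc ∑ t : Fin n → Bool, Real.exp (ov s t ^ 2 / (4 * n)) ≤
      ∑ t : Fin n → Bool, ∑ a ∈ Finset.range (n + 1),
        Real.exp ((2 * (a : ℝ) - n) ^ 2 / (4 * n) -
        (2 * (a : ℝ) - n) / n * (2 * (a : ℝ) - n)) * Real.exp ((2 * (a : ℝ) - n) / n * ov s t) :=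
        Finset.sum_le_sum fun t _ => h1 t
    _ = ∑ a ∈ Finset.range (n + 1), Real.exp ((2 * (a : ℝ) - n) ^ 2 / (4 * n) -
        (2 * (a : ℝ) - n) / n * (2 * (a : ℝ) - n)) *
          ∑ t : Fin n → Bool, Real.exp ((2 * (a : ℝ) - n) / n * ov s t) := by
        rw [Finset.sum_comm]
        simp only [Finset.mul_sum]
    _ ≤ ∑ _a ∈ Finset.range (n + 1), (2 : ℝ) ^ n := by
        refine Finset.sum_le_sum fun a _ => ?_
        have h3 := sum_exp_ov_le ((2 * (a : ℝ) - n) / n) s
        calc Real.exp ((2 * (a : ℝ) - n) ^ 2 / (4 * n) -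
              (2 * (a : ℝ) - n) / n * (2 * (a : ℝ) - n)) *
              ∑ t : Fin n → Bool, Real.exp ((2 * (a : ℝ) - n) / n * ov s t) ≤
            Real.exp ((2 * (a : ℝ) - n) ^ 2 / (4 * n) -
              (2 * (a : ℝ) - n) / n * (2 * (a : ℝ) - n)) *
              (2 ^ n * Real.exp (n * (((2 * (a : ℝ) - n) / n) ^ 2 / 2))) :=
              mul_le_mul_of_nonneg_left h3 (Real.exp_pos _).le
          _ = 2 ^ n * Real.exp ((2 * (a : ℝ) - n) ^ 2 / (4 * n) -
              (2 * (a : ℝ) - n) / n * (2 * (a : ℝ) - n) +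
              n * (((2 * (a : ℝ) - n) / n) ^ 2 / 2)) := by
              rw [Real.exp_add]
              ring
          _ ≤ 2 ^ n * 1 := by
              apply mul_le_mul_of_nonneg_left _ (by positivity)
              apply Real.exp_le_one_iff.mpr
              have e : (2 * (a : ℝ) - n) ^ 2 / (4 * n) -
                (2 * (a : ℝ) - n) / n * (2 * (a : ℝ) - n) +
                n * (((2 * (a : ℝ) - n) / n) ^ 2 / 2) = -((2 * (a : ℝ) - n) ^ 2 / (4 * n)) := by
                field_simp
                ring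
              rw [e]
              have : 0 ≤ (2 * (a : ℝ) - n) ^ 2 / (4 * n) := by positivity
              linarith
          _ = 2 ^ n := mul_one _
    _ = (n + 1) * 2 ^ n := by
        rw [Finset.sum_const, Finset.card_range, nsmul_eq_mul]
        push_cast
        ring

lemma card_near_le (z l : ℝ) (hl : 0 ≤ l) (s : Fin n → Bool) :
    ((Finset.univ.filter fun t : Fin n → Bool => (1 - 2 * z) * n < ov s t).card : ℝ) ≤
      Real.exp (n * (Real.exp (-(2 * l)) + 2 * z * l)) := by
  classical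
  have h1 : ((Finset.univ.filter fun t : Fin n → Bool => (1 - 2 * z) * n < ov s t).card : ℝ) ≤
      ∑ t : Fin n → Bool, Real.exp (l * ov s t) * Real.exp (-(l * ((1 - 2 * z) * n))) := by
    rw [Finset.card_eq_sum_ones]
    push_cast
    rw [Finset.sum_filter]
    refine Finset.sum_le_sum fun t _ => ?_
    split_ifs with h
    · rw [← Real.exp_add]
      apply Real.one_le_exp
      have := mul_le_mul_of_nonneg_left h.le hl
      linarith
    · positivity
  refine h1.trans ?_
  rw [← Finset.sum_mul, sum_exp_ov]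
  have h2 : Real.exp l + Real.exp (-l) ≤ Real.exp l * Real.exp (Real.exp (-(2 * l))) := by
    have h3 := Real.add_one_le_exp (Real.exp (-(2 * l)))
    have h4 : Real.exp (-l) = Real.exp l * Real.exp (-(2 * l)) := by
      rw [← Real.exp_add]
      congr 1
      ring
    rw [h4]
    have := Real.exp_pos l
    nlinarith
  calc (Real.exp l + Real.exp (-l)) ^ n * Real.exp (-(l * ((1 - 2 * z) * n))) ≤
      (Real.exp l * Real.exp (Real.exp (-(2 * l)))) ^ n * Real.exp (-(l * ((1 - 2 * z) * n))) := by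
        apply mul_le_mul_of_nonneg_right _ (Real.exp_pos _).le
        exact pow_le_pow_left₀ (by positivity) h2 n
    _ = Real.exp (n * (Real.exp (-(2 * l)) + 2 * z * l)) := by
        rw [← Real.exp_add, ← Real.exp_nat_mul, ← Real.exp_add]
        congr 1
        ring

/-- Near pairs contribute little to the square of the total weight. -/
lemma near_pairs_le (W : (Fin n → Bool) → ℝ) (z l : ℝ) (hl : 0 ≤ l) :
    qf Finset.univ W (fun s t => if (1 - 2 * z) * n < ov s t then 1 else 0) ≤
      Real.exp (n * (Real.exp (-(2 * l)) + 2 * z * l)) * ∑ s, W s ^ 2 := by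
  classical
  have hsymm : ∀ s t : Fin n → Bool, ov s t = ov t s := by
    intro s t
    unfold ov
    refine Finset.sum_congr rfl fun i _ => ?_
    simp only [eq_comm]
  unfold qf
  have h1 : ∀ s t : Fin n → Bool, W s * W t * (if (1 - 2 * z) * n < ov s t then (1 : ℝ) else 0) ≤
      (W s ^ 2 / 2) * (if (1 - 2 * z) * n < ov s t then (1 : ℝ) else 0) +
      (W t ^ 2 / 2) * (if (1 - 2 * z) * n < ov t s then (1 : ℝ) else 0) := by
    intro s t
    rw [hsymm t s]
    split_ifs with h
    · nlinarith [sq_nonneg (W s - W t)]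
    · simp
  have h2 : ∀ s : Fin n → Bool, ∑ t : Fin n → Bool,
      (W s ^ 2 / 2) * (if (1 - 2 * z) * n < ov s t then (1 : ℝ) else 0) ≤
      (W s ^ 2 / 2) * Real.exp (n * (Real.exp (-(2 * l)) + 2 * z * l)) := by
    intro s
    rw [← Finset.mul_sum]
    apply mul_le_mul_of_nonneg_left _ (by positivity)
    rw [Finset.sum_boole]
    exact card_near_le z l hl s
  calc ∑ s : Fin n → Bool, ∑ t : Fin n → Bool,
        W s * W t * (if (1 - 2 * z) * n < ov s t then (1 : ℝ) else 0)
      ≤ ∑ s : Fin n → Bool, ∑ t : Fin n → Bool,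
        ((W s ^ 2 / 2) * (if (1 - 2 * z) * n < ov s t then (1 : ℝ) else 0) +
        (W t ^ 2 / 2) * (if (1 - 2 * z) * n < ov t s then (1 : ℝ) else 0)) :=
        Finset.sum_le_sum fun s _ => Finset.sum_le_sum fun t _ => h1 s t
    _ = ∑ s : Fin n → Bool, ∑ t : Fin n → Bool,
        (W s ^ 2 / 2) * (if (1 - 2 * z) * n < ov s t then (1 : ℝ) else 0) +
        ∑ t : Fin n → Bool, ∑ s : Fin n → Bool,
        (W t ^ 2 / 2) * (if (1 - 2 * z) * n < ov t s then (1 : ℝ) else 0) := by
        simp only [Finset.sum_add_distrib]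
        congr 1
        rw [Finset.sum_comm]
    _ ≤ ∑ s : Fin n → Bool, (W s ^ 2 / 2) * Real.exp (n * (Real.exp (-(2 * l)) + 2 * z * l)) +
        ∑ s : Fin n → Bool, (W s ^ 2 / 2) * Real.exp (n * (Real.exp (-(2 * l)) + 2 * z * l)) :=
        add_le_add (Finset.sum_le_sum fun s _ => h2 s) (Finset.sum_le_sum fun s _ => h2 s)
    _ = _ := by
        rw [← Finset.sum_add_distrib, Finset.mul_sum]
        refine Finset.sum_congr rfl fun s _ => ?_
        ring

end Pool.Agent.W_MP_fefad7_co.Sharp
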