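import Pool.Agent.W_MP_fefad7_co.Sharp.Drift

set_option autoImplicit false

namespace Pool.Agent.W_MP_fefad7_co.Sharp

open Finset

variable {S C : Type*}

/-- The overlap kernel of a set of clauses. -/
noncomputable def ker (Q : ℝ) (h : C → S → ℝ) (U : Finset C) (s t : S) : ℝ :=
  (∑ c ∈ U, h c s * h c t) / Q

lemma gram_ker {Q : ℝ} (hQ : 0 ≤ Q) (h : C → S → ℝ) (U : Finset C) : Gram (ker Q h U) := by
  have h1 : Gram (fun s t => ∑ c ∈ U, h c s * h c t) :=
    gram_sum U (fun c s t => h c s * h c t) fun c _ => gram_rankOne (h c)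
  refine (h1.smul (c := 1 / Q) (by positivity)).congr fun s t => ?_
  unfold ker
  ring

lemma ker_split [DecidableEq C] {Q : ℝ} (h : C → S → ℝ) {U O : Finset C} (hO : O ⊆ U)
    (hc : (O.card : ℝ) = Q) (s t : S) :
    ker Q h U s t = ker Q h (U \ O) s t + avg2 O h s t := by
  unfold ker avg2
  rw [hc, ← add_div, Finset.sum_sdiff hO]

/-- Client's new weights after taking the clause `c` out of the offer `O`. -/
noncomputable def newW (θ : ℝ) (O : Finset C) (h : C → S → ℝ) (W : S → ℝ) (c : C) (s : S) : ℝ :=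
  if |avg1 O h s| ≤ θ then W s * (1 + h c s) / (1 + avg1 O h s) else 0

/-- Error term coming from the truncation. -/
noncomputable def errT (M : ℕ) (x : ℝ) : ℝ :=
  4 * (|x| ^ (M + 2) / ((M + 2).factorial : ℝ)) + 2 * (|x| ^ (M + 1) / ((M + 1).factorial : ℝ))

lemma errT_nonneg (M : ℕ) (x : ℝ) : 0 ≤ errT M x := by
  unfold errT
  positivity

/-- Pairs potential. -/
noncomputable def psi [Fintype S] (Q : ℝ) (κ : S → S → ℝ) (M : ℕ) (h : C → S → ℝ) (U : Finset C)
    (W : S → ℝ) : ℝ :=
  qf Finset.univ W (fun s t => κ s t * tex (M + 2) (2 * ker Q h U s t))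

lemma sum_qf_newW [Fintype S] (θ : ℝ) (hθ : θ < 1) {O : Finset C}
    (hO : O.Nonempty) (h : C → S → ℝ) (W : S → ℝ) (K : S → S → ℝ) :
    ∑ c ∈ O, qf Finset.univ (newW θ O h W c) K =
      (O.card : ℝ) * qf (Finset.univ.filter fun s => |avg1 O h s| ≤ θ) W
        (fun s t => K s t * ((1 + avg1 O h s + avg1 O h t + avg2 O h s t) /
          ((1 + avg1 O h s) * (1 + avg1 O h t)))) := by
  classical
  have hc : (0 : ℝ) < (O.card : ℝ) := by exact_mod_cast Finset.card_pos.mpr hO
  set P : Finset S := Finset.univ.filter fun s => |avg1 O h s| ≤ θ with hP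
  have e1 : ∀ c ∈ O, qf Finset.univ (newW θ O h W c) K =
      qf P W (fun s t => K s t * ((1 + h c s) * (1 + h c t) /
        ((1 + avg1 O h s) * (1 + avg1 O h t)))) := by
    intro c _
    unfold qf
    have h0 : ∀ s, s ∉ P → newW θ O h W c s = 0 := by
      intro s hs
      have : ¬ |avg1 O h s| ≤ θ := by
        intro h'
        exact hs (by simp [hP, h'])
      simp [newW, this]
    have h1 : ∀ s, s ∈ P → newW θ O h W c s = W s * (1 + h c s) / (1 + avg1 O h s) := by
      intro s hs
      have : |avg1 O h s| ≤ θ := (Finset.mem_filter.mp hs).2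
      simp [newW, this]
    rw [← Finset.sum_subset (Finset.subset_univ P)]
    · refine Finset.sum_congr rfl fun s hs => ?_
      rw [← Finset.sum_subset (Finset.subset_univ P)]
      · refine Finset.sum_congr rfl fun t ht => ?_
        rw [h1 s hs, h1 t ht]
        have h3 : (1 + avg1 O h s) ≠ 0 := by
          have := (abs_le.mp (Finset.mem_filter.mp hs).2).1
          intro h'; linarith
        have h4 : (1 + avg1 O h t) ≠ 0 := by
          have := (abs_le.mp (Finset.mem_filter.mp ht).2).1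
          intro h'; linarith
        field_simp
      · intro t _ ht
        rw [h0 t ht]
        ring
    · intro s _ hs
      refine Finset.sum_eq_zero fun t _ => ?_
      rw [h0 s hs]
      ring
  rw [Finset.sum_congr rfl e1]
  unfold qf
  rw [Finset.sum_comm, Finset.mul_sum]
  refine Finset.sum_congr rfl fun s _ => ?_
  rw [Finset.sum_comm, Finset.mul_sum]
  refine Finset.sum_congr rfl fun t _ => ?_
  rw [← Finset.mul_sum, ← Finset.mul_sum, ← Finset.sum_div]
  have e2 : ∑ c ∈ O, (1 + h c s) * (1 + h c t) =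
      (O.card : ℝ) * (1 + avg1 O h s + avg1 O h t + avg2 O h s t) := by
    have e3 : ∑ c ∈ O, (1 + h c s) * (1 + h c t) =
        (O.card : ℝ) + ∑ c ∈ O, h c s + ∑ c ∈ O, h c t + ∑ c ∈ O, h c s * h c t := by
      rw [Finset.cast_card, ← Finset.sum_add_distrib, ← Finset.sum_add_distrib,
        ← Finset.sum_add_distrib]
      refine Finset.sum_congr rfl fun c _ => ?_
      ring
    rw [e3]
    unfold avg1 avg2
    field_simp
  rw [e2]
  ring

/-- One step estimate for the pairs potential, averaged over the offer. -/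
lemma psi_step [Fintype S] [DecidableEq C] {Q : ℝ} (hQ : 0 < Q) (κ : S → S → ℝ) (hκ : Gram κ)
    (hκ0 : ∀ s t, 0 ≤ κ s t) (M : ℕ) (hM : Even M) (θ : ℝ) (hθ1 : θ ≤ 1 / 4)
    (h : C → S → ℝ) (W : S → ℝ) (hW : ∀ s, 0 ≤ W s) {U O : Finset C} (hO : O ⊆ U)
    (hcard : (O.card : ℝ) = Q) (hh : ∀ c ∈ O, ∀ s, |h c s| ≤ 1) :
    ∑ c ∈ O, psi Q κ M h (U \ O) (newW θ O h W c) ≤
      Q * (psi Q κ M h U W +
        qf Finset.univ W (fun s t => κ s t * errT M (2 * ker Q h (U \ O) s t))) := by
  have hOne : O.Nonempty := by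
    rw [← Finset.card_pos]
    have : (0 : ℝ) < (O.card : ℝ) := by rw [hcard]; exact hQ
    exact_mod_cast this
  set P : Finset S := Finset.univ.filter fun s => |avg1 O h s| ≤ θ with hP
  have hwP : ∀ s ∈ P, 0 ≤ W s := fun s _ => hW s
  set X : S → S → ℝ := fun s t => 2 * ker Q h (U \ O) s t with hX
  set a : S → S → ℝ := avg2 O h with ha
  have hXG : Gram X := (gram_ker hQ.le h (U \ O)).smul (by norm_num)
  have haG : Gram a := gram_avg2 O h
  have hM2 : Even (M + 2) := by
    obtain ⟨r, hr⟩ := hM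
    exact ⟨r + 1, by omega⟩
  set B : S → S → ℝ := fun s t => κ s t * tex (M + 2) (X s t) with hB
  have hBG : Gram B := hκ.mul (gram_tex (M + 2) hXG)
  have hB0 : ∀ s t, 0 ≤ B s t := fun s t => mul_nonneg (hκ0 s t) (tex_pos hM2 _).le
  have ha1 : ∀ s t, |a s t| ≤ 1 := by
    intro s t
    rw [ha]
    unfold avg2
    rw [abs_div, Nat.abs_cast]
    have hc : (0 : ℝ) < (O.card : ℝ) := by rw [hcard]; exact hQ
    rw [div_le_one hc]
    calc |∑ c ∈ O, h c s * h c t| ≤ ∑ c ∈ O, |h c s * h c t| := Finset.abs_sum_le_sum_abs _ _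
      _ ≤ ∑ c ∈ O, (1 : ℝ) := by
          refine Finset.sum_le_sum fun c hc => ?_
          rw [abs_mul]
          exact mul_le_one₀ (hh c hc s) (abs_nonneg _) (hh c hc t)
      _ = O.card := by simp
  -- averaging
  have h1 : ∑ c ∈ O, psi Q κ M h (U \ O) (newW θ O h W c) =
      Q * qf P W (fun s t => B s t * ((1 + avg1 O h s + avg1 O h t + avg2 O h s t) /
          ((1 + avg1 O h s) * (1 + avg1 O h t)))) := by
    unfold psi
    rw [sum_qf_newW θ (by linarith) hOne h W, hcard]
  rw [h1]
  apply mul_le_mul_of_nonneg_left _ hQ.le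
  refine (drift_main hOne h θ hθ1 P W hwP (fun s hs => (Finset.mem_filter.mp hs).2) B hBG
    hB0).trans ?_
  -- comparison with the expansion
  have hrem := hκ.mul (gram_tex_remainder hXG (haG.smul (c := 2) (by norm_num)) M)
  have h2 : qf P W (fun s t => κ s t * (tex (M + 2) (X s t) + tex (M + 1) (X s t) * (2 * a s t) +
      tex M (X s t) * (2 * a s t) ^ 2 / 2)) ≤
      qf P W (fun s t => κ s t * tex (M + 2) (X s t + 2 * a s t)) := by
    have h3 := hrem.qf_nonneg P W
    rw [← sub_nonneg, ← qf_sub]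
    refine h3.trans (le_of_eq ?_)
    apply qf_congr
    intro s _ t _
    ring
  have h3 : qf P W (fun s t => κ s t * tex (M + 2) (X s t + 2 * a s t)) ≤
      psi Q κ M h U W := by
    unfold psi
    have e : ∀ s t, X s t + 2 * a s t = 2 * ker Q h U s t := by
      intro s t
      rw [ker_split h hO hcard s t]
      ring
    have e2 : qf P W (fun s t => κ s t * tex (M + 2) (X s t + 2 * a s t)) =
        qf P W (fun s t => κ s t * tex (M + 2) (2 * ker Q h U s t)) := by
      apply qf_congr
      intro s _ t _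
      rw [e]
    rw [e2]
    exact qf_subset (Finset.subset_univ P) (fun s _ => hW s)
      (fun s _ t _ => mul_nonneg (hκ0 s t) (tex_pos hM2 _).le)
  have h4 : qf P W (fun s t => B s t * (1 + 2 * a s t + 2 * a s t ^ 2)) -
      qf P W (fun s t => κ s t * (tex (M + 2) (X s t) + tex (M + 1) (X s t) * (2 * a s t) +
      tex M (X s t) * (2 * a s t) ^ 2 / 2)) ≤
      qf Finset.univ W (fun s t => κ s t * errT M (X s t)) := by
    rw [← qf_sub]
    refine le_trans (qf_mono hwP (L := fun s t => κ s t * errT M (X s t)) ?_)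
      (qf_subset (Finset.subset_univ P) (fun s _ => hW s)
        (fun s _ t _ => mul_nonneg (hκ0 s t) (errT_nonneg M _)))
    intro s _ t _
    have e1 : B s t * (1 + 2 * a s t + 2 * a s t ^ 2) -
        κ s t * (tex (M + 2) (X s t) + tex (M + 1) (X s t) * (2 * a s t) +
          tex M (X s t) * (2 * a s t) ^ 2 / 2) =
        κ s t * (2 * a s t * (X s t ^ (M + 2) / ((M + 2).factorial : ℝ)) +
          2 * a s t ^ 2 * (X s t ^ (M + 2) / ((M + 2).factorial : ℝ) +
            X s t ^ (M + 1) / ((M + 1).factorial : ℝ))) := by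
      simp only [hB]
      rw [tex_succ (M + 1) (X s t), tex_succ M (X s t)]
      ring
    rw [e1]
    apply mul_le_mul_of_nonneg_left _ (hκ0 s t)
    set p : ℝ := X s t ^ (M + 2) / ((M + 2).factorial : ℝ) with hp
    set r : ℝ := X s t ^ (M + 1) / ((M + 1).factorial : ℝ) with hr
    have ep : |p| = |X s t| ^ (M + 2) / ((M + 2).factorial : ℝ) := by
      rw [hp, abs_div, abs_pow, Nat.abs_cast]
    have er : |r| = |X s t| ^ (M + 1) / ((M + 1).factorial : ℝ) := by
      rw [hr, abs_div, abs_pow, Nat.abs_cast]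
    have hfinal : errT M (X s t) = 4 * |p| + 2 * |r| := by
      unfold errT
      rw [ep, er]
    rw [hfinal]
    have hA := ha1 s t
    have hA2 : a s t ^ 2 ≤ 1 := by
      rw [← sq_abs]
      exact pow_le_one₀ (abs_nonneg _) hA
    have hA2' : 0 ≤ a s t ^ 2 := sq_nonneg _
    have q1 : a s t * p ≤ |p| := by
      calc a s t * p ≤ |a s t * p| := le_abs_self _
        _ = |a s t| * |p| := abs_mul _ _
        _ ≤ 1 * |p| := mul_le_mul_of_nonneg_right hA (abs_nonneg _)
        _ = |p| := one_mul _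
    have q2 : a s t ^ 2 * (p + r) ≤ |p| + |r| := by
      calc a s t ^ 2 * (p + r) ≤ a s t ^ 2 * (|p| + |r|) :=
            mul_le_mul_of_nonneg_left (add_le_add (le_abs_self _) (le_abs_self _)) hA2'
        _ ≤ 1 * (|p| + |r|) :=
            mul_le_mul_of_nonneg_right hA2 (add_nonneg (abs_nonneg _) (abs_nonneg _))
        _ = _ := one_mul _
    nlinarith
  linarith

end Pool.Agent.W_MP_fefad7_co.Sharp
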