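import Pool.Agent.W_MP_fefad7_co.Sharp.Tuple
import Pool.Agent.W_MP_fefad7_co.Sharp.PairStep

set_option autoImplicit false

namespace Pool.Agent.W_MP_fefad7_co.Sharp

open Finset

variable {n k : ℕ}

lemma exists_enum (c : Clause n) (h : c.card = k) :
    ∃ p : Fin k → Literal n, Function.Injective p ∧ Finset.univ.image p = c := by
  refine ⟨fun i => ((c.equivFinOfCardEq h).symm i : Literal n), ?_, ?_⟩
  · intro i j hij
    have := Subtype.ext hij
    exact (c.equivFinOfCardEq h).symm.injective this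
  · ext l
    constructor
    · intro hl
      obtain ⟨i, _, rfl⟩ := Finset.mem_image.mp hl
      exact ((c.equivFinOfCardEq h).symm i).2
    · intro hl
      refine Finset.mem_image.mpr ⟨c.equivFinOfCardEq h ⟨l, hl⟩, Finset.mem_univ _, ?_⟩
      simp

/-- The tuples representing the clauses of the board, each clause being represented `k!` times. -/
lemma exists_tuples (k n : ℕ) : ∃ T : Finset (Fin k → Literal n),
    ∀ (f : Clause n → ℝ) (F : (Fin k → Literal n) → ℝ),
      (∀ p : Fin k → Literal n, Function.Injective p → F p = f (Finset.univ.image p)) →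
      (k.factorial : ℝ) * ∑ c ∈ board k n, f c = ∑ p ∈ T, F p := by
  classical
  have hcard : ∀ c : {c // c ∈ board k n}, c.1.card = k := by
    intro c
    have := c.2
    unfold board at this
    exact (Finset.mem_filter.mp this).2.1
  choose e he1 he2 using fun c : {c // c ∈ board k n} => exists_enum c.1 (hcard c)
  set m : {c // c ∈ board k n} × Equiv.Perm (Fin k) → (Fin k → Literal n) :=
    fun x => e x.1 ∘ x.2 with hm
  have himg : ∀ x, Finset.univ.image (m x) = x.1.1 := by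
    intro x
    rw [← he2 x.1]
    ext l
    simp only [Finset.mem_image, Finset.mem_univ, true_and, hm, Function.comp]
    constructor
    · rintro ⟨i, hi⟩
      exact ⟨x.2 i, hi⟩
    · rintro ⟨i, hi⟩
      exact ⟨x.2.symm i, by simpa using hi⟩
  have hinj : Function.Injective m := by
    intro x y hxy
    have h1 : x.1 = y.1 := by
      apply Subtype.ext
      rw [← himg x, ← himg y, hxy]
    obtain ⟨c, π⟩ := x
    obtain ⟨c', π'⟩ := y
    simp only at h1
    subst h1
    congr 1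
    ext i
    have h2 := congrFun hxy i
    simp only [hm, Function.comp] at h2
    exact congrArg Fin.val (he1 c h2)
  refine ⟨Finset.univ.image m, ?_⟩
  intro f F hF
  rw [Finset.sum_image (fun x _ y _ h => hinj h), Fintype.sum_prod_type]
  have h1 : ∀ c : {c // c ∈ board k n}, ∑ π : Equiv.Perm (Fin k), F (m (c, π)) =
      (k.factorial : ℝ) * f c.1 := by
    intro c
    have h2 : ∀ π : Equiv.Perm (Fin k), F (m (c, π)) = f c.1 := by
      intro π
      rw [hF, himg]
      exact (he1 c).comp π.injective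
    simp only [h2, Finset.sum_const, Finset.card_univ, Fintype.card_perm, Fintype.card_fin,
      nsmul_eq_mul]
  simp only [h1]
  rw [← Finset.mul_sum]
  congr 1
  exact (Finset.sum_coe_sort (board k n) f).symm

/-- The function of a clause used for the weights. -/
noncomputable def hc (b m : ℝ) (c : Clause n) (s : Fin n → Bool) : ℝ :=
  (∏ l ∈ c, (-(b * sg s l) + (1 - b)) - ∏ l ∈ c, (-(1 / 2 * sg s l) + 1 / 2)) / m - 1

lemma hf_eq_hc (b m : ℝ) (p : Fin k → Literal n) (hp : Function.Injective p)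
    (s : Fin n → Bool) : hf b m p s = hc b m (Finset.univ.image p) s := by
  unfold hf hc
  rw [Finset.prod_image (fun i _ j _ h => hp h), Finset.prod_image (fun i _ j _ h => hp h)]

/-- Parameters of the weights. -/
structure Params (k : ℕ) (b m η : ℝ) : Prop where
  b_pos : 0 < b
  b_le : b ≤ 1 / 4
  crit : b * (1 - b) ^ (k - 1) = (1 / 2) ^ k
  m_eq : m = (1 - b) ^ k - (1 / 2) ^ k
  m_ge : 1 / 2 ≤ m
  m_le : m ≤ 1
  eta_nonneg : 0 ≤ η
  eta_le : η ≤ 1
  low : 1 - η ≤ (1 - 2 * b) ^ k / m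
  up : 1 / m ≤ 1 + η

lemma exists_params (k : ℕ) (hk : 3 ≤ k) (hx : (k : ℝ) * (1 / 2) ^ k ≤ 1 / 8) :
    ∃ b m : ℝ, Params k b m (6 * (k * (1 / 2) ^ k)) := by
  set x : ℝ := (1 / 2) ^ k with hxdef
  have hx0 : 0 < x := by positivity
  have hk3 : (3 : ℝ) ≤ k := by exact_mod_cast hk
  have hx1 : x ≤ 1 / 24 := by nlinarith
  obtain ⟨j, rfl⟩ : ∃ j, k = j + 1 := ⟨k - 1, by omega⟩
  have hj : ((j + 1 : ℕ) : ℝ) = (j : ℝ) + 1 := by push_cast; ring
  rw [hj] at hx hk3
  have hcont : ContinuousOn (fun b : ℝ => b * (1 - b) ^ j) (Set.Icc x (2 * x)) := by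
    fun_prop
  have hlow : x * (1 - x) ^ j ≤ x := by
    have : (1 - x) ^ j ≤ 1 := pow_le_one₀ (by linarith) (by linarith)
    nlinarith
  have hhigh : x ≤ (2 * x) * (1 - 2 * x) ^ j := by
    have h1 : 1 + (j : ℝ) * (-(2 * x)) ≤ (1 + -(2 * x)) ^ j :=
      one_add_mul_le_pow (by linarith) j
    have h2 : (1 : ℝ) / 2 ≤ (1 - 2 * x) ^ j := by
      rw [show (1 : ℝ) - 2 * x = 1 + -(2 * x) by ring]
      nlinarith
    nlinarith
  obtain ⟨b, hb, hbx⟩ := intermediate_value_Icc (by linarith : x ≤ 2 * x) hcont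
    (show x ∈ Set.Icc _ _ from ⟨hlow, hhigh⟩)
  simp only at hbx
  have hb1 : x ≤ b := hb.1
  have hb2 : b ≤ 2 * x := hb.2
  have hB1 : 1 + ((j + 1 : ℕ) : ℝ) * (-b) ≤ (1 + -b) ^ (j + 1) :=
    one_add_mul_le_pow (by linarith) (j + 1)
  have hB2 : 1 + ((j + 1 : ℕ) : ℝ) * (-(2 * b)) ≤ (1 + -(2 * b)) ^ (j + 1) :=
    one_add_mul_le_pow (by linarith) (j + 1)
  rw [hj] at hB1 hB2
  have hm0 : 1 - 3 * (((j : ℝ) + 1) * x) ≤ (1 - b) ^ (j + 1) - x := by
    have e : (1 - b) ^ (j + 1) = (1 + -b) ^ (j + 1) := by ring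
    rw [e]
    nlinarith
  have hm1 : (1 - b) ^ (j + 1) - x ≤ 1 := by
    have : (1 - b) ^ (j + 1) ≤ 1 := pow_le_one₀ (by linarith) (by linarith)
    linarith
  refine ⟨b, (1 - b) ^ (j + 1) - x, ⟨by linarith, by linarith, ?_, rfl, by linarith, hm1, by positivity,
    ?_, ?_, ?_⟩⟩
  · show b * (1 - b) ^ (j + 1 - 1) = x
    rw [Nat.add_sub_cancel]
    exact hbx
  · rw [hj]; linarith
  · have hmpos : 0 < (1 - b) ^ (j + 1) - x := by linarith
    rw [le_div_iff₀ hmpos, hj]
    have e : (1 - 2 * b) ^ (j + 1) = (1 + -(2 * b)) ^ (j + 1) := by ring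
    rw [e]
    have h3 : (1 - 6 * (((j : ℝ) + 1) * x)) * ((1 - b) ^ (j + 1) - x) ≤
        1 - 6 * (((j : ℝ) + 1) * x) := by
      have : 0 ≤ 1 - 6 * (((j : ℝ) + 1) * x) := by linarith
      nlinarith
    nlinarith
  · have hmpos : 0 < (1 - b) ^ (j + 1) - x := by linarith
    rw [div_le_iff₀ hmpos, hj]
    have h3 : 0 ≤ ((j : ℝ) + 1) * x := by positivity
    nlinarith

lemma prod_bounds {b : ℝ} (hb0 : 0 < b) (hb1 : b ≤ 1 / 4) (p : Fin k → Literal n)
    (s : Fin n → Bool) :
    (1 - 2 * b) ^ k ≤ ∏ i, (-(b * sg s (p i)) + (1 - b)) ∧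
      ∏ i, (-(b * sg s (p i)) + (1 - b)) ≤ 1 := by
  have h1 : ∀ i : Fin k, 1 - 2 * b ≤ -(b * sg s (p i)) + (1 - b) := by
    intro i
    unfold sg
    split_ifs <;> linarith
  have h2 : ∀ i : Fin k, -(b * sg s (p i)) + (1 - b) ≤ 1 := by
    intro i
    unfold sg
    split_ifs <;> linarith
  constructor
  · calc (1 - 2 * b) ^ k = ∏ _i : Fin k, (1 - 2 * b) := by simp
      _ ≤ _ := Finset.prod_le_prod (fun i _ => by linarith) fun i _ => h1 i
  · exact Finset.prod_le_one (fun i _ => by linarith [h1 i]) fun i _ => h2 i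

lemma hf_viol {b m : ℝ} (p : Fin k → Literal n) (s : Fin n → Bool)
    (h : ∀ i, s (p i).1 ≠ (p i).2) : hf b m p s = -1 := by
  have h1 : ∏ i, (-(b * sg s (p i)) + (1 - b)) = 1 := by
    refine Finset.prod_eq_one fun i _ => ?_
    simp only [sg, h i, if_false]
    ring
  have h2 : ∏ i, (-(1 / 2 * sg s (p i)) + 1 / 2) = 1 := vf_eq_one h
  unfold hf
  rw [h1, h2]
  simp

lemma abs_hf_le {b m η : ℝ} (hP : Params k b m η) (p : Fin k → Literal n) (s : Fin n → Bool) :
    |hf b m p s| ≤ vf p s + η ∧ |hf b m p s| ≤ 1 := by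
  have hm : 0 < m := lt_of_lt_of_le (by norm_num) hP.m_ge
  by_cases h : ∀ i, s (p i).1 ≠ (p i).2
  · rw [hf_viol p s h, vf_eq_one h]
    have := hP.eta_nonneg
    constructor
    · simpa using this
    · simp
  · push Not at h
    have hv : vf p s = 0 := vf_eq_zero h
    have h2 : ∏ i, (-(1 / 2 * sg s (p i)) + 1 / 2) = 0 := hv
    obtain ⟨h3, h4⟩ := prod_bounds hP.b_pos hP.b_le p s
    have h5 : |hf b m p s| ≤ η := by
      unfold hf
      rw [h2, sub_zero, abs_le]
      constructor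
      · have : (1 - 2 * b) ^ k / m ≤ (∏ i, (-(b * sg s (p i)) + (1 - b))) / m :=
          div_le_div_of_nonneg_right h3 hm.le
        have := hP.low
        linarith
      · have : (∏ i, (-(b * sg s (p i)) + (1 - b))) / m ≤ 1 / m :=
          div_le_div_of_nonneg_right h4 hm.le
        have := hP.up
        linarith
    rw [hv, zero_add]
    exact ⟨h5, h5.trans hP.eta_le⟩

lemma mem_board_enum {c : Clause n} (hc' : c ∈ board k n) :
    ∃ p : Fin k → Literal n, Function.Injective p ∧ Finset.univ.image p = c := by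
  unfold board at hc'
  exact exists_enum c (Finset.mem_filter.mp hc').2.1

lemma abs_hc_le_one {b m η : ℝ} (hP : Params k b m η) {c : Clause n} (hcb : c ∈ board k n)
    (s : Fin n → Bool) : |hc b m c s| ≤ 1 := by
  obtain ⟨p, hp, rfl⟩ := mem_board_enum hcb
  rw [← hf_eq_hc b m p hp s]
  exact (abs_hf_le hP p s).2

lemma hc_viol {b m : ℝ} {c : Clause n} (hcb : c ∈ board k n)
    (s : Fin n → Bool) (h : ∀ l ∈ c, s l.1 ≠ l.2) : hc b m c s = -1 := by
  obtain ⟨p, hp, rfl⟩ := mem_board_enum hcb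
  rw [← hf_eq_hc b m p hp s]
  apply hf_viol
  intro i
  exact h (p i) (Finset.mem_image_of_mem p (Finset.mem_univ i))

/-- Bound for the kernel of any set of clauses of the board. -/
lemma abs_ker_le {b m η : ℝ} (hP : Params k b m η) {Q : ℝ} (hQ : 0 < Q)
    {U : Finset (Clause n)} (hU : U ⊆ board k n) (s t : Fin n → Bool) :
    |ker Q (hc b m) U s t| ≤ ((((n : ℝ) + ov s t) / 2) ^ k + 2 * η * (n : ℝ) ^ k +
      η ^ 2 * (2 * (n : ℝ)) ^ k) / (k.factorial * Q) := by
  classical
  have hfact : (0 : ℝ) < k.factorial := by exact_mod_cast Nat.factorial_pos k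
  obtain ⟨T, hT⟩ := exists_tuples k n
  have h1 := hT (fun c => |hc b m c s| * |hc b m c t|) (fun p => |hf b m p s| * |hf b m p t|)
    (fun p hp => by simp only [hf_eq_hc b m p hp])
  have h2 : ∑ p ∈ T, |hf b m p s| * |hf b m p t| ≤
      ∑ p : Fin k → Literal n, (vf p s + η) * (vf p t + η) := by
    calc ∑ p ∈ T, |hf b m p s| * |hf b m p t| ≤
        ∑ p : Fin k → Literal n, |hf b m p s| * |hf b m p t| :=
          Finset.sum_le_sum_of_subset_of_nonneg (Finset.subset_univ T)
            fun p _ _ => mul_nonneg (abs_nonneg _) (abs_nonneg _)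
      _ ≤ _ := Finset.sum_le_sum fun p _ =>
          mul_le_mul (abs_hf_le hP p s).1 (abs_hf_le hP p t).1 (abs_nonneg _)
            (add_nonneg (vf_nonneg p s) hP.eta_nonneg)
  have h3 : ∑ p : Fin k → Literal n, (vf p s + η) * (vf p t + η) =
      (((n : ℝ) + ov s t) / 2) ^ k + 2 * η * (n : ℝ) ^ k + η ^ 2 * (2 * (n : ℝ)) ^ k := by
    have e1 : ∀ p : Fin k → Literal n, (vf p s + η) * (vf p t + η) =
        vf p s * vf p t + η * vf p s + η * vf p t + η ^ 2 * 1 := by
      intro p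
      ring
    simp only [e1]
    rw [Finset.sum_add_distrib, Finset.sum_add_distrib, Finset.sum_add_distrib,
      ← Finset.mul_sum, ← Finset.mul_sum, ← Finset.mul_sum, sum_vf_mul, sum_vf, sum_vf]
    have e2 : ∑ _p : Fin k → Literal n, (1 : ℝ) = (2 * (n : ℝ)) ^ k := by
      simp
      ring
    rw [e2]
    ring
  have h4 : |ker Q (hc b m) U s t| ≤ (∑ c ∈ board k n, |hc b m c s| * |hc b m c t|) / Q := by
    unfold ker
    rw [abs_div, abs_of_pos hQ]
    apply div_le_div_of_nonneg_right _ hQ.le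
    calc |∑ c ∈ U, hc b m c s * hc b m c t| ≤ ∑ c ∈ U, |hc b m c s * hc b m c t| :=
          Finset.abs_sum_le_sum_abs _ _
      _ = ∑ c ∈ U, |hc b m c s| * |hc b m c t| := by simp only [abs_mul]
      _ ≤ _ := Finset.sum_le_sum_of_subset_of_nonneg hU
          fun c _ _ => mul_nonneg (abs_nonneg _) (abs_nonneg _)
  refine h4.trans ?_
  rw [div_le_div_iff₀ hQ (by positivity), ← h3]
  have h5 : (k.factorial : ℝ) * ∑ c ∈ board k n, |hc b m c s| * |hc b m c t| ≤
      ∑ p : Fin k → Literal n, (vf p s + η) * (vf p t + η) := by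
    rw [h1]
    exact h2
  calc (∑ c ∈ board k n, |hc b m c s| * |hc b m c t|) * (k.factorial * Q) =
        ((k.factorial : ℝ) * ∑ c ∈ board k n, |hc b m c s| * |hc b m c t|) * Q := by ring
    _ ≤ _ := mul_le_mul_of_nonneg_right h5 hQ.le

/-- Explicit kernel dominating the kernel of the whole board in the Gram order. -/
noncomputable def khat (k : ℕ) (b m Q : ℝ) (s t : Fin n → Bool) : ℝ :=
  (∑ J : Finset (Fin k), co k b m J.card ^ 2 *
        ((2 * ov s t) ^ J.card * (2 * (n : ℝ)) ^ (k - J.card))) / (k.factorial * Q)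

lemma ker_board_gle (k : ℕ) (b m : ℝ) {Q : ℝ} (hQ : 0 < Q) :
    GLe (ker Q (hc b m) (board k n)) (khat (n := n) k b m Q) := by
  classical
  have hfact : (0 : ℝ) < k.factorial := by exact_mod_cast Nat.factorial_pos k
  obtain ⟨T, hT⟩ := exists_tuples k n
  have hG : Gram (fun s t => ∑ p ∈ Finset.univ \ T, hf b m p s * hf b m p t) :=
    gram_sum _ (fun (p : Fin k → Literal n) s t => hf b m p s * hf b m p t)
      fun p _ => gram_rankOne (hf b m p)
  refine (hG.smul (c := 1 / (k.factorial * Q)) (by positivity)).congr fun s t => ?_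
  have h1 := hT (fun c => hc b m c s * hc b m c t) (fun p => hf b m p s * hf b m p t)
    (fun p hp => by simp only [hf_eq_hc b m p hp])
  have h2 : ∑ p ∈ Finset.univ \ T, hf b m p s * hf b m p t +
      ∑ p ∈ T, hf b m p s * hf b m p t = ∑ p : Fin k → Literal n, hf b m p s * hf b m p t :=
    Finset.sum_sdiff (Finset.subset_univ T)
  unfold khat ker
  rw [← sum_hf_mul, ← h2, ← h1]
  field_simp
  ring

end Pool.Agent.W_MP_fefad7_co.Sharp
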