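import Pool.Agent.W_MP_fefad7_co.Sharp.Khat

set_option autoImplicit false

namespace Pool.Agent.W_MP_fefad7_co.Sharp

open Finset

variable {n k : ℕ}

/-- Normalised overlap. -/
noncomputable def nov (s t : Fin n → Bool) : ℝ := ov s t / n

lemma gram_nov : Gram (nov : (Fin n → Bool) → (Fin n → Bool) → ℝ) := by
  refine (gram_ov.smul (c := 1 / (n : ℝ)) (by positivity)).congr fun s t => ?_
  unfold nov
  ring

lemma abs_nov_le (s t : Fin n → Bool) : |nov s t| ≤ 1 := by
  unfold nov
  rw [abs_div, Nat.abs_cast]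
  exact div_le_one_of_le₀ (abs_ov_le s t) (Nat.cast_nonneg n)

/-- Powers of degree at least three of the overlap. -/
noncomputable def gR (k : ℕ) (s t : Fin n → Bool) : ℝ := ∑ j ∈ Finset.Icc 3 k, nov s t ^ j

lemma gram_gR (k : ℕ) : Gram (gR (n := n) k) :=
  gram_sum _ (fun j s t => nov s t ^ j) fun j _ => gram_nov.pow j

lemma abs_gR_le (k : ℕ) (s t : Fin n → Bool) : |gR k s t| ≤ k * |nov s t| ^ 3 := by
  unfold gR
  calc |∑ j ∈ Finset.Icc 3 k, nov s t ^ j| ≤ ∑ j ∈ Finset.Icc 3 k, |nov s t ^ j| :=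
        Finset.abs_sum_le_sum_abs _ _
    _ ≤ ∑ _j ∈ Finset.Icc 3 k, |nov s t| ^ 3 := by
        refine Finset.sum_le_sum fun j hj => ?_
        rw [abs_pow]
        exact pow_le_pow_of_le_one (abs_nonneg _) (abs_nov_le s t) (Finset.mem_Icc.mp hj).1
    _ = ((k + 1 - 3 : ℕ) : ℝ) * |nov s t| ^ 3 := by
        rw [Finset.sum_const, Nat.card_Icc, nsmul_eq_mul]
    _ ≤ k * |nov s t| ^ 3 := by
        apply mul_le_mul_of_nonneg_right _ (by positivity)
        have : k + 1 - 3 ≤ k := by omega
        exact_mod_cast this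

/-- The fixed factor of the pair potential. -/
noncomputable def kap (k : ℕ) (s t : Fin n → Bool) : ℝ := 1 + (n : ℝ) ^ 18 * gR k s t ^ 12

lemma gram_kap_sub (k : ℕ) : Gram (fun s t : Fin n → Bool => (n : ℝ) ^ 18 * gR k s t ^ 12) :=
  ((gram_gR k).pow 12).smul (by positivity)

lemma gram_kap (k : ℕ) : Gram (kap (n := n) k) := gram_one.add (gram_kap_sub k)

lemma one_le_kap (k : ℕ) (s t : Fin n → Bool) : 1 ≤ kap k s t := by
  unfold kap
  have : 0 ≤ gR k s t ^ 12 := Even.pow_nonneg (by decide) _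
  have h2 : 0 ≤ (n : ℝ) ^ 18 * gR k s t ^ 12 := by positivity
  linarith

lemma gR_pow_le (k : ℕ) (s t : Fin n → Bool) :
    gR k s t ^ 12 ≤ (k : ℝ) ^ 12 * nov s t ^ 36 := by
  have h1 := pow_le_pow_left₀ (abs_nonneg _) (abs_gR_le k s t) 12
  rw [mul_pow, ← pow_mul] at h1
  have e1 : |gR k s t| ^ 12 = gR k s t ^ 12 := Even.pow_abs (by decide) _
  have e2 : |nov s t| ^ (3 * 12) = nov s t ^ 36 := Even.pow_abs (by decide) _
  rw [e1, e2] at h1
  exact h1

lemma kap_le (k : ℕ) (s t : Fin n → Bool) : kap k s t ≤ 1 + (k : ℝ) ^ 12 * (n : ℝ) ^ 18 := by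
  unfold kap
  have h1 := gR_pow_le k s t
  have h2 : nov s t ^ 36 ≤ 1 := by
    have e2 : |nov s t| ^ 36 = nov s t ^ 36 := Even.pow_abs (by decide) _
    rw [← e2]
    exact pow_le_one₀ (abs_nonneg _) (abs_nov_le s t)
  have h3 : gR k s t ^ 12 ≤ (k : ℝ) ^ 12 := by
    refine h1.trans ?_
    calc (k : ℝ) ^ 12 * nov s t ^ 36 ≤ (k : ℝ) ^ 12 * 1 :=
          mul_le_mul_of_nonneg_left h2 (by positivity)
      _ = _ := mul_one _
  have h4 : (n : ℝ) ^ 18 * gR k s t ^ 12 ≤ (n : ℝ) ^ 18 * (k : ℝ) ^ 12 :=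
    mul_le_mul_of_nonneg_left h3 (by positivity)
  linarith

lemma kap_le_exp (k : ℕ) (hn : 0 < n) (s t : Fin n → Bool) :
    kap k s t ≤ (1 + (k : ℝ) ^ 12 * (8 ^ 18 * (Nat.factorial 18 : ℝ))) *
      Real.exp (ov s t ^ 2 / (8 * n)) := by
  have hnR : (0 : ℝ) < n := by exact_mod_cast hn
  set y : ℝ := ov s t ^ 2 / (8 * n) with hy
  have hy0 : 0 ≤ y := by positivity
  have h1 : y ^ 18 / (Nat.factorial 18 : ℝ) ≤ Real.exp y := Real.pow_div_factorial_le_exp y hy0 18
  have hf : (0 : ℝ) < (Nat.factorial 18 : ℝ) := by positivity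
  have h2 : y ^ 18 ≤ (Nat.factorial 18 : ℝ) * Real.exp y := by
    rw [div_le_iff₀ hf] at h1
    linarith
  have h3 : (n : ℝ) ^ 18 * nov s t ^ 36 = 8 ^ 18 * y ^ 18 := by
    have e : (n : ℝ) * nov s t ^ 2 = 8 * y := by
      unfold nov
      rw [hy]
      field_simp
    calc (n : ℝ) ^ 18 * nov s t ^ 36 = ((n : ℝ) * nov s t ^ 2) ^ 18 := by ring
      _ = 8 ^ 18 * y ^ 18 := by rw [e, mul_pow]
  have h4 : (n : ℝ) ^ 18 * gR k s t ^ 12 ≤ (k : ℝ) ^ 12 * (8 ^ 18 * ((Nat.factorial 18 : ℝ) *
      Real.exp y)) := by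
    calc (n : ℝ) ^ 18 * gR k s t ^ 12 ≤ (n : ℝ) ^ 18 * ((k : ℝ) ^ 12 * nov s t ^ 36) :=
          mul_le_mul_of_nonneg_left (gR_pow_le k s t) (by positivity)
      _ = (k : ℝ) ^ 12 * ((n : ℝ) ^ 18 * nov s t ^ 36) := by ring
      _ = (k : ℝ) ^ 12 * (8 ^ 18 * y ^ 18) := by rw [h3]
      _ ≤ _ := by
          apply mul_le_mul_of_nonneg_left _ (by positivity)
          exact mul_le_mul_of_nonneg_left h2 (by positivity)
  have h5 : 1 ≤ Real.exp y := Real.one_le_exp hy0
  unfold kap
  calc 1 + (n : ℝ) ^ 18 * gR k s t ^ 12 ≤ Real.exp y + (k : ℝ) ^ 12 * (8 ^ 18 *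
        ((Nat.factorial 18 : ℝ) * Real.exp y)) := add_le_add h5 h4
    _ = _ := by ring

/-- The part of degree at least three of a clause function. -/
noncomputable def gc (k : ℕ) (b m : ℝ) (c : Clause n) (s : Fin n → Bool) : ℝ := by
  classical
  exact if h : c ∈ board k n then gf b m (mem_board_enum h).choose s else 0

lemma gc_eq {b m : ℝ} {c : Clause n} (h : c ∈ board k n) (s : Fin n → Bool) :
    gc k b m c s = gf b m (mem_board_enum h).choose s := by
  unfold gc
  rw [dif_pos h]

lemma hf_sub_gf {b m η : ℝ} (hP : Params k b m η) (p : Fin k → Literal n) (s : Fin n → Bool) :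
    |hf b m p s - gf b m p s| ≤ (k : ℝ) ^ 2 * (1 / 2) ^ k := by
  classical
  rw [hf_eq_fexp]
  unfold gf fexp
  rw [← Finset.sum_sub_distrib]
  have h1 : ∀ J : Finset (Fin k), |co k b m J.card * chi J p s -
      (if 3 ≤ J.card then co k b m J.card else 0) * chi J p s| ≤
      if J.card = 2 then 2 * (1 / 2) ^ k else 0 := by
    intro J
    by_cases h3 : 3 ≤ J.card
    · rw [if_pos h3, if_neg (by omega), sub_self, abs_zero]
    · rw [if_neg h3, zero_mul, sub_zero, abs_mul, abs_chi, mul_one]
      by_cases h2 : J.card = 2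
      · rw [if_pos h2]
        exact abs_co_le hP (card_fin_le J)
      · rw [if_neg h2]
        have : co k b m J.card = 0 := by
          rcases Nat.eq_zero_or_pos J.card with h | h
          · rw [h]; exact co_zero hP
          · have : J.card = 1 := by omega
            rw [this]; exact co_one hP
        rw [this, abs_zero]
  calc |∑ J : Finset (Fin k), (co k b m J.card * chi J p s -
      (if 3 ≤ J.card then co k b m J.card else 0) * chi J p s)| ≤
      ∑ J : Finset (Fin k), |co k b m J.card * chi J p s -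
      (if 3 ≤ J.card then co k b m J.card else 0) * chi J p s| := Finset.abs_sum_le_sum_abs _ _
    _ ≤ ∑ J : Finset (Fin k), if J.card = 2 then 2 * (1 / 2 : ℝ) ^ k else 0 :=
        Finset.sum_le_sum fun J _ => h1 J
    _ = (k.choose 2 : ℝ) * (2 * (1 / 2) ^ k) := by
        rw [← Finset.sum_filter, Finset.sum_const, nsmul_eq_mul]
        congr 2
        rw [Finset.univ_filter_card_eq, Finset.card_powersetCard, Finset.card_univ,
          Fintype.card_fin]
    _ ≤ (k : ℝ) ^ 2 * (1 / 2) ^ k := by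
        rw [Nat.cast_choose_two]
        have : (0 : ℝ) ≤ k := Nat.cast_nonneg k
        have h5 : (0 : ℝ) < (1 / 2) ^ k := by positivity
        nlinarith

lemma hc_sub_gc {b m η : ℝ} (hP : Params k b m η) {c : Clause n} (h : c ∈ board k n)
    (s : Fin n → Bool) : |hc b m c s - gc k b m c s| ≤ (k : ℝ) ^ 2 * (1 / 2) ^ k := by
  rw [gc_eq h]
  have h1 := (mem_board_enum h).choose_spec
  have h2 : hc b m c s = hf b m (mem_board_enum h).choose s := by
    rw [hf_eq_hc b m _ h1.1 s, h1.2]
  rw [h2]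
  exact hf_sub_gf hP _ s

lemma gle_gc {b m η : ℝ} (hP : Params k b m η) (hn : 0 < n) {O : Finset (Clause n)}
    (hO : O ⊆ board k n) :
    GLe (avg2 O (gc k b m)) (fun s t => (4 * (n : ℝ)) ^ k / O.card * gR k s t) := by
  classical
  have hnR : (0 : ℝ) < n := by exact_mod_cast hn
  -- the image of the offer in the set of tuples
  set e : {c // c ∈ O} → (Fin k → Literal n) := fun c => (mem_board_enum (hO c.2)).choose with he
  have he_img : ∀ c, Finset.univ.image (e c) = c.1 := fun c =>
    (mem_board_enum (hO c.2)).choose_spec.2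
  have he_inj : Function.Injective e := by
    intro c c' h
    apply Subtype.ext
    rw [← he_img c, ← he_img c', h]
  set T : Finset (Fin k → Literal n) := Finset.univ.image e with hT
  have h1 : GLe (fun s t => ∑ c ∈ O, gc k b m c s * gc k b m c t)
      (fun s t => ∑ p : Fin k → Literal n, gf b m p s * gf b m p t) := by
    have hG : Gram (fun s t => ∑ p ∈ Finset.univ \ T, gf b m p s * gf b m p t) :=
      gram_sum _ (fun (p : Fin k → Literal n) s t => gf b m p s * gf b m p t)
        fun p _ => gram_rankOne (gf b m p)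
    refine hG.congr fun s t => ?_
    have h2 : ∑ p ∈ Finset.univ \ T, gf b m p s * gf b m p t +
      ∑ p ∈ T, gf b m p s * gf b m p t = ∑ p : Fin k → Literal n, gf b m p s * gf b m p t :=
      Finset.sum_sdiff (Finset.subset_univ T)
    have h3 : ∑ p ∈ T, gf b m p s * gf b m p t = ∑ c ∈ O, gc k b m c s * gc k b m c t := by
      rw [hT, Finset.sum_image (fun x _ y _ h => he_inj h)]
      rw [← Finset.sum_coe_sort O]
      refine Finset.sum_congr rfl fun c _ => ?_
      rw [gc_eq (hO c.2), gc_eq (hO c.2)]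
    beta_reduce
    rw [← h2, h3]
    ring
  have h2 : GLe (fun s t => ∑ p : Fin k → Literal n, gf b m p s * gf b m p t)
      (fun s t => (4 * (n : ℝ)) ^ k * gR k s t) := by
    have e1 : ∀ s t : Fin n → Bool, ∑ p : Fin k → Literal n, gf b m p s * gf b m p t =
        ∑ J : Finset (Fin k), (if 3 ≤ J.card then co k b m J.card else 0) ^ 2 *
          (2 * (n : ℝ)) ^ k * nov s t ^ J.card := by
      intro s t
      unfold gf
      rw [sum_fexp_mul]
      refine Finset.sum_congr rfl fun J _ => ?_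
      have hJ := card_fin_le J
      rw [mul_assoc]
      congr 1
      have : 2 * ov s t = 2 * (n : ℝ) * nov s t := by
        unfold nov
        field_simp
      rw [this, mul_pow]
      calc (2 * (n : ℝ)) ^ J.card * nov s t ^ J.card * (2 * (n : ℝ)) ^ (k - J.card) =
          ((2 * (n : ℝ)) ^ J.card * (2 * (n : ℝ)) ^ (k - J.card)) * nov s t ^ J.card := by ring
        _ = _ := by rw [← pow_add, Nat.add_sub_cancel' hJ]
    have e2 : ∀ s t : Fin n → Bool, (4 * (n : ℝ)) ^ k * gR k s t =
        ∑ _J : Finset (Fin k), (2 * (n : ℝ)) ^ k * gR k s t := by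
      intro s t
      rw [Finset.sum_const, Finset.card_univ, Fintype.card_finset, Fintype.card_fin, nsmul_eq_mul]
      push_cast
      rw [← mul_assoc, ← mul_pow]
      ring
    have h3 := gle_sum (Finset.univ : Finset (Finset (Fin k)))
      (fun J (s t : Fin n → Bool) => (if 3 ≤ J.card then co k b m J.card else 0) ^ 2 *
          (2 * (n : ℝ)) ^ k * nov s t ^ J.card)
      (fun J (s t : Fin n → Bool) => (2 * (n : ℝ)) ^ k * gR k s t) ?_
    · exact h3.congr fun s t => by
        beta_reduce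
        rw [e1, e2]
    · intro J _
      by_cases h3 : 3 ≤ J.card
      · have hco : co k b m J.card ^ 2 ≤ 1 := by
          have h4 := abs_co_le hP (card_fin_le J)
          have h5 : 2 * (1 / 2 : ℝ) ^ k ≤ 1 := by
            have hk : 1 ≤ k := by
              have := card_fin_le J
              omega
            calc 2 * (1 / 2 : ℝ) ^ k ≤ 2 * (1 / 2 : ℝ) ^ 1 := by
                  apply mul_le_mul_of_nonneg_left _ (by norm_num)
                  exact pow_le_pow_of_le_one (by norm_num) (by norm_num) hk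
              _ = 1 := by norm_num
          rw [← sq_abs]
          exact pow_le_one₀ (abs_nonneg _) (h4.trans h5)
        have hmem : J.card ∈ Finset.Icc 3 k := Finset.mem_Icc.mpr ⟨h3, card_fin_le J⟩
        have g1 : Gram (fun s t : Fin n → Bool => ((1 - co k b m J.card ^ 2) *
            (2 * (n : ℝ)) ^ k) * nov s t ^ J.card) := by
          apply (gram_nov.pow J.card).smul
          have : 0 ≤ 1 - co k b m J.card ^ 2 := by linarith
          positivity
        have g2 : Gram (fun s t : Fin n → Bool => (2 * (n : ℝ)) ^ k *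
            ∑ j ∈ (Finset.Icc 3 k).erase J.card, nov s t ^ j) := by
          apply Gram.smul _ (by positivity)
          exact gram_sum _ (fun j s t => nov s t ^ j) fun j _ => gram_nov.pow j
        refine (g1.add g2).congr fun s t => ?_
        rw [if_pos h3]
        unfold gR
        beta_reduce
        rw [← Finset.add_sum_erase _ _ hmem]
        ring
      · have g1 : Gram (fun s t : Fin n → Bool => (2 * (n : ℝ)) ^ k * gR k s t) :=
          (gram_gR k).smul (by positivity)
        refine g1.congr fun s t => ?_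
        rw [if_neg h3]
        ring
  have h3 : GLe (fun s t => ∑ c ∈ O, gc k b m c s * gc k b m c t)
      (fun s t => (4 * (n : ℝ)) ^ k * gR k s t) :=
    GLe.trans (Y := fun s t => ∑ p : Fin k → Literal n, gf b m p s * gf b m p t) h1 h2
  refine (h3.smul (c := 1 / (O.card : ℝ)) (by positivity)).congr fun s t => ?_
  unfold avg2
  ring

end Pool.Agent.W_MP_fefad7_co.Sharp
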