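import Pool.Agent.W_MP_fefad7_co.Sharp.TruncExp

set_option autoImplicit false

namespace Pool.Agent.W_MP_fefad7_co.Sharp

open Finset

variable {S C : Type*}

/-- Average of the functions `h c`, `c ∈ O`. -/
noncomputable def avg1 (O : Finset C) (h : C → S → ℝ) (s : S) : ℝ :=
  (∑ c ∈ O, h c s) / (O.card : ℝ)

/-- Average of the kernels `h c s * h c t`, `c ∈ O`. -/
noncomputable def avg2 (O : Finset C) (h : C → S → ℝ) (s t : S) : ℝ :=
  (∑ c ∈ O, h c s * h c t) / (O.card : ℝ)

lemma gram_avg2 (O : Finset C) (h : C → S → ℝ) : Gram (avg2 O h) := by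
  have h1 : Gram (fun s t => ∑ c ∈ O, h c s * h c t) :=
    gram_sum O (fun c s t => h c s * h c t) fun c _ => gram_rankOne (h c)
  refine (h1.smul (c := 1 / (O.card : ℝ)) (by positivity)).congr fun s t => ?_
  unfold avg2
  ring

lemma gram_avg2_sub {O : Finset C} (hO : O.Nonempty) (h : C → S → ℝ) :
    Gram (fun s t => avg2 O h s t - avg1 O h s * avg1 O h t) := by
  have hc : (0 : ℝ) < (O.card : ℝ) := by exact_mod_cast Finset.card_pos.mpr hO
  have h1 : Gram (fun s t => ∑ c ∈ O, (h c s - avg1 O h s) * (h c t - avg1 O h t)) :=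
    gram_sum O (fun c s t => (h c s - avg1 O h s) * (h c t - avg1 O h t))
      fun c _ => gram_rankOne (fun s => h c s - avg1 O h s)
  refine (h1.smul (c := 1 / (O.card : ℝ)) (by positivity)).congr fun s t => ?_
  have e1 : ∑ c ∈ O, (h c s - avg1 O h s) * (h c t - avg1 O h t) =
      ∑ c ∈ O, h c s * h c t - avg1 O h t * ∑ c ∈ O, h c s - avg1 O h s * ∑ c ∈ O, h c t +
        (O.card : ℝ) * (avg1 O h s * avg1 O h t) := by
    rw [Finset.mul_sum, Finset.mul_sum, ← nsmul_eq_mul, ← Finset.sum_const,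
      ← Finset.sum_sub_distrib, ← Finset.sum_sub_distrib, ← Finset.sum_add_distrib]
    refine Finset.sum_congr rfl fun c _ => ?_
    ring
  rw [e1]
  have e2 : ∑ c ∈ O, h c s = (O.card : ℝ) * avg1 O h s := by
    unfold avg1; field_simp
  have e3 : ∑ c ∈ O, h c t = (O.card : ℝ) * avg1 O h t := by
    unfold avg1; field_simp
  rw [e2, e3]
  unfold avg2
  field_simp
  ring

/-- The key drift inequality: on the set where the average `ξ` is small the exact multiplicative
drift of pairs is dominated, in the sense of quadratic forms, by `1 + 2a + 2a²`. -/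
lemma drift_main {O : Finset C} (hO : O.Nonempty) (h : C → S → ℝ) (θ : ℝ)
    (hθ1 : θ ≤ 1 / 4) (P : Finset S) (w : S → ℝ) (hw : ∀ s ∈ P, 0 ≤ w s)
    (hP : ∀ s ∈ P, |avg1 O h s| ≤ θ) (B : S → S → ℝ) (hB : Gram B) (hB0 : ∀ s t, 0 ≤ B s t) :
    qf P w (fun s t => B s t * ((1 + avg1 O h s + avg1 O h t + avg2 O h s t) /
      ((1 + avg1 O h s) * (1 + avg1 O h t)))) ≤
    qf P w (fun s t => B s t * (1 + 2 * avg2 O h s t + 2 * avg2 O h s t ^ 2)) := by
  set ξ := avg1 O h with hξ
  set a := avg2 O h with ha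
  set ζ : S → ℝ := fun s => ξ s / (1 + ξ s) with hζ
  have hpos : ∀ s ∈ P, 3 / 4 ≤ 1 + ξ s := by
    intro s hs
    have := (abs_le.mp (hP s hs)).1
    linarith
  have hGa : Gram a := gram_avg2 O h
  have hGo : Gram (fun s t => a s t - ξ s * ξ t) := gram_avg2_sub hO h
  have hGx : Gram (fun s t => ξ s * ξ t) := gram_rankOne ξ
  -- step 1
  have e1 : qf P w (fun s t => B s t * ((1 + ξ s + ξ t + a s t) / ((1 + ξ s) * (1 + ξ t)))) =
      qf P w B + qf P w (fun s t => B s t * (a s t - ξ s * ξ t) * ((1 - ζ s) * (1 - ζ t))) := by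
    rw [← qf_add]
    apply qf_congr
    intro s hs t ht
    have h1 := hpos s hs
    have h2 := hpos t ht
    have h3 : (1 + ξ s) ≠ 0 := by linarith
    have h4 : (1 + ξ t) ≠ 0 := by linarith
    simp only [hζ]
    field_simp
    ring
  -- step 2
  have h2 : qf P w (fun s t => B s t * (a s t - ξ s * ξ t) * ((1 - ζ s) * (1 - ζ t))) ≤
      2 * qf P w (fun s t => B s t * (a s t - ξ s * ξ t)) +
        2 * qf P w (fun s t => B s t * (a s t - ξ s * ξ t) * (ζ s * ζ t)) := by
    have hK := hB.mul hGo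
    have h3 := (hK.scale (fun s => 1 + ζ s)).qf_nonneg P w
    have e2 : qf P w (fun s t => (1 + ζ s) * (1 + ζ t) * (B s t * (a s t - ξ s * ξ t))) =
        2 * qf P w (fun s t => B s t * (a s t - ξ s * ξ t)) +
        2 * qf P w (fun s t => B s t * (a s t - ξ s * ξ t) * (ζ s * ζ t)) -
        qf P w (fun s t => B s t * (a s t - ξ s * ξ t) * ((1 - ζ s) * (1 - ζ t))) := by
      rw [← qf_smul, ← qf_smul, ← qf_add, ← qf_sub]
      apply qf_congr
      intro s _ t _
      ring
    rw [e2] at h3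
    linarith
  -- step 3
  have h3 : qf P w (fun s t => B s t * (a s t - ξ s * ξ t)) ≤
      qf P w (fun s t => B s t * a s t) := by
    have h4 := (hB.mul hGx).qf_nonneg P w
    have e3 : qf P w (fun s t => B s t * (a s t - ξ s * ξ t)) =
        qf P w (fun s t => B s t * a s t) - qf P w (fun s t => B s t * (ξ s * ξ t)) := by
      rw [← qf_sub]
      apply qf_congr
      intro s _ t _
      ring
    rw [e3]
    linarith
  -- step 4
  have h4 : qf P w (fun s t => B s t * (a s t - ξ s * ξ t) * (ζ s * ζ t)) ≤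
      qf P w (fun s t => B s t * ((ξ s * ξ t) ^ 2 + (a s t - ξ s * ξ t) ^ 2)) := by
    apply qf_mono hw
    intro s hs t ht
    rw [mul_assoc]
    apply mul_le_mul_of_nonneg_left _ (hB0 s t)
    have h1 := hpos s hs
    have h2 := hpos t ht
    have h5 : (ζ s * ζ t) = (ξ s * ξ t) / ((1 + ξ s) * (1 + ξ t)) := by
      simp only [hζ]
      rw [div_mul_div_comm]
    have h6 : 1 / 2 ≤ (1 + ξ s) * (1 + ξ t) := by nlinarith
    have h7 : |ζ s * ζ t| ≤ 2 * |ξ s * ξ t| := by
      rw [h5, abs_div, abs_of_pos (show 0 < (1 + ξ s) * (1 + ξ t) by linarith), div_le_iff₀ (by linarith)]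
      have := abs_nonneg (ξ s * ξ t)
      nlinarith
    calc (a s t - ξ s * ξ t) * (ζ s * ζ t) ≤ |(a s t - ξ s * ξ t) * (ζ s * ζ t)| := le_abs_self _
      _ = |a s t - ξ s * ξ t| * |ζ s * ζ t| := abs_mul _ _
      _ ≤ |a s t - ξ s * ξ t| * (2 * |ξ s * ξ t|) :=
          mul_le_mul_of_nonneg_left h7 (abs_nonneg _)
      _ ≤ (ξ s * ξ t) ^ 2 + (a s t - ξ s * ξ t) ^ 2 := by
          have h8 := sq_nonneg (|a s t - ξ s * ξ t| - |ξ s * ξ t|)
          have h9 : |a s t - ξ s * ξ t| ^ 2 = (a s t - ξ s * ξ t) ^ 2 := sq_abs _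
          have h10 : |ξ s * ξ t| ^ 2 = (ξ s * ξ t) ^ 2 := sq_abs _
          nlinarith
  -- step 5
  have h5 : qf P w (fun s t => B s t * ((ξ s * ξ t) ^ 2 + (a s t - ξ s * ξ t) ^ 2)) ≤
      qf P w (fun s t => B s t * a s t ^ 2) := by
    have h6 := ((hB.mul (hGx.mul hGo)).smul (c := 2) (by norm_num)).qf_nonneg P w
    have e3 : qf P w (fun s t => B s t * ((ξ s * ξ t) ^ 2 + (a s t - ξ s * ξ t) ^ 2)) =
        qf P w (fun s t => B s t * a s t ^ 2) -
          qf P w (fun s t => 2 * (B s t * ((ξ s * ξ t) * (a s t - ξ s * ξ t)))) := by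
      rw [← qf_sub]
      apply qf_congr
      intro s _ t _
      ring
    rw [e3]
    linarith
  have e6 : qf P w (fun s t => B s t * (1 + 2 * a s t + 2 * a s t ^ 2)) =
      qf P w B + 2 * qf P w (fun s t => B s t * a s t) +
        2 * qf P w (fun s t => B s t * a s t ^ 2) := by
    rw [← qf_smul, ← qf_smul, ← qf_add, ← qf_add]
    apply qf_congr
    intro s _ t _
    ring
  rw [e1, e6]
  linarith

end Pool.Agent.W_MP_fefad7_co.Sharp
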