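import Pool.Agent.W_MP_fefad7_co.Sharp.Assemble

set_option autoImplicit false

namespace Pool.Agent.W_MP_fefad7_co.Sharp

open Finset

variable {n k q M : ℕ} {b m η χ θ ρ z l ϖ E1 E2 C3 : ℝ}

/-- First multiplier. -/
noncomputable def l1 (k n : ℕ) (C3 : ℝ) : ℝ := 1 / (8 * D0 k n C3 * 2 ^ n)

/-- Second multiplier. -/
noncomputable def l2 (k n : ℕ) (η χ ρ : ℝ) : ℝ := 1 / (8 * E0 k n η χ ρ)

lemma E0_pos (k n : ℕ) (η χ ρ : ℝ) : 0 < E0 k n η χ ρ := Real.exp_pos _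

lemma sq_sum_le_qf_kap {U : Finset (Clause n)} (W : (Fin n → Bool) → ℝ) :
    (∑ s, W s) ^ 2 ≤ psi ((q + 1 : ℕ) : ℝ) (kap k) M (hc b m) U W ∧
    qf Finset.univ W (fun s t => (n : ℝ) ^ 18 * gR k s t ^ 12) ≤
      psi ((q + 1 : ℕ) : ℝ) (kap k) M (hc b m) U W := by
  have hQ : (0 : ℝ) < ((q + 1 : ℕ) : ℝ) := by positivity
  have hG : Gram (fun s t => 2 * ker ((q + 1 : ℕ) : ℝ) (hc b m) U s t) :=
    (gram_ker hQ.le _ _).smul (by norm_num)
  have h1 := gle_one_tex (M + 2) hG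
  have h2 : GLe (kap (n := n) k)
      (fun s t => kap k s t * tex (M + 2) (2 * ker ((q + 1 : ℕ) : ℝ) (hc b m) U s t)) :=
    (GLe.mul (GLe.refl (kap (n := n) k)) h1 (gram_kap k) (gram_tex (M + 2) hG)).congr
      fun s t => by simp
  constructor
  · rw [← qf_one]
    have h3 : GLe (fun _ _ : Fin n → Bool => (1 : ℝ)) (kap k) :=
      (gram_kap_sub k).congr fun s t => by
        unfold kap
        ring
    exact (GLe.trans h3 h2).qf_le Finset.univ W
  · have h3 : GLe (fun s t : Fin n → Bool => (n : ℝ) ^ 18 * gR k s t ^ 12) (kap k) :=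
      gram_one.congr fun s t => by
        unfold kap
        ring
    exact (GLe.trans h3 h2).qf_le Finset.univ W

lemma Data.invariants (D : Data k n q b m η χ θ ρ z l ϖ E1 E2 C3 M) {U : Finset (Clause n)}
    {W : (Fin n → Bool) → ℝ}
    (hJ : (2 : ℝ) ^ n / 2 ≤ jpot ((q + 1 : ℕ) : ℝ) ρ (l1 k n C3) (l2 k n η χ ρ) (kap (k + 2)) M
      (hc b m) U W) :
    0 ≤ ∑ s, W s ∧ ∑ s, W s ≤ 8 * D0 k n C3 * 2 ^ n ∧
    psi ((q + 1 : ℕ) : ℝ) (kap (k + 2)) M (hc b m) U W ≤ (8 * D0 k n C3 * 2 ^ n) ^ 2 ∧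
    ∑ s, W s ^ 2 ≤ 64 * E0 k n η χ ρ * (D0 k n C3 * 2 ^ n) := by
  have hD := D.D0_pos
  have hE := E0_pos k n η χ ρ
  have hP : (0 : ℝ) < 2 ^ n := by positivity
  obtain ⟨h1, _⟩ := sq_sum_le_qf_kap (q := q) (M := M) (b := b) (m := m) (k := k + 2) (U := U) W
  set Z := ∑ s, W s with hZ
  set Ψ := psi ((q + 1 : ℕ) : ℝ) (kap (k + 2)) M (hc b m) U W with hΨ
  set S := sqf ((q + 1 : ℕ) : ℝ) ρ (hc b m) U W with hS
  have hS0 : 0 ≤ S := Finset.sum_nonneg fun s _ => by positivity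
  have hΨ0 : 0 ≤ Ψ := le_trans (sq_nonneg _) h1
  have hl1 : 0 < l1 k n C3 := by unfold l1; positivity
  have hl2 : 0 < l2 k n η χ ρ := by unfold l2; positivity
  have hJ' : (2 : ℝ) ^ n / 2 ≤ Z - l1 k n C3 * Ψ - l2 k n η χ ρ * S := hJ
  have hl1' : l1 k n C3 * (8 * D0 k n C3 * 2 ^ n) = 1 := by
    unfold l1
    field_simp
  have hl2' : l2 k n η χ ρ * (8 * E0 k n η χ ρ) = 1 := by
    unfold l2
    field_simp
  have hZpos : 0 < Z := by
    have := mul_nonneg hl1.le hΨ0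
    have := mul_nonneg hl2.le hS0
    linarith
  have h2 : l1 k n C3 * Ψ ≤ Z := by
    have := mul_nonneg hl2.le hS0
    linarith
  have h3 : l2 k n η χ ρ * S ≤ Z := by
    have := mul_nonneg hl1.le hΨ0
    linarith
  have hΨle : Ψ ≤ 8 * D0 k n C3 * 2 ^ n * Z := by
    calc Ψ = (l1 k n C3 * (8 * D0 k n C3 * 2 ^ n)) * Ψ := by rw [hl1', one_mul]
      _ = 8 * D0 k n C3 * 2 ^ n * (l1 k n C3 * Ψ) := by ring
      _ ≤ _ := mul_le_mul_of_nonneg_left h2 (by positivity)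
  have hZle : Z ≤ 8 * D0 k n C3 * 2 ^ n := by
    have h4 : Z * Z ≤ 8 * D0 k n C3 * 2 ^ n * Z := by
      calc Z * Z = Z ^ 2 := by ring
        _ ≤ Ψ := h1
        _ ≤ _ := hΨle
    exact le_of_mul_le_mul_right h4 hZpos
  have hSle : S ≤ 8 * E0 k n η χ ρ * Z := by
    calc S = (l2 k n η χ ρ * (8 * E0 k n η χ ρ)) * S := by rw [hl2', one_mul]
      _ = 8 * E0 k n η χ ρ * (l2 k n η χ ρ * S) := by ring
      _ ≤ _ := mul_le_mul_of_nonneg_left h3 (by positivity)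
  refine ⟨hZpos.le, hZle, ?_, ?_⟩
  · calc Ψ ≤ 8 * D0 k n C3 * 2 ^ n * Z := hΨle
      _ ≤ 8 * D0 k n C3 * 2 ^ n * (8 * D0 k n C3 * 2 ^ n) :=
          mul_le_mul_of_nonneg_left hZle (by positivity)
      _ = _ := by ring
  · have h5 : ∑ s, W s ^ 2 ≤ S := by
      rw [hS]
      unfold sqf
      refine Finset.sum_le_sum fun s _ => ?_
      apply le_mul_of_one_le_right (sq_nonneg _)
      apply Real.one_le_exp
      apply mul_nonneg D.rho_pos.le
      unfold ker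
      apply div_nonneg _ (by positivity)
      exact Finset.sum_nonneg fun c _ => mul_self_nonneg _
    calc ∑ s, W s ^ 2 ≤ S := h5
      _ ≤ 8 * E0 k n η χ ρ * Z := hSle
      _ ≤ 8 * E0 k n η χ ρ * (8 * D0 k n C3 * 2 ^ n) :=
          mul_le_mul_of_nonneg_left hZle (by positivity)
      _ = _ := by ring

/-- Weight of the assignments with a large average over the offer. -/
lemma Data.loss1 (D : Data k n q b m η χ θ ρ z l ϖ E1 E2 C3 M) {U O : Finset (Clause n)}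
    (hO : O ⊆ board (k + 2) n) (hcard : O.card = q + 1)
    {W : (Fin n → Bool) → ℝ} (hW : ∀ s, 0 ≤ W s)
    (hJ : (2 : ℝ) ^ n / 2 ≤ jpot ((q + 1 : ℕ) : ℝ) ρ (l1 k n C3) (l2 k n η χ ρ) (kap (k + 2)) M
      (hc b m) U W) :
    ∑ s ∈ Finset.univ.filter (fun s => ¬ |avg1 O (hc b m) s| ≤ θ), W s ≤
      (2 / θ) ^ 12 * (4 ^ (k + 2) * ((k + 2).factorial : ℝ)) ^ 6 *
        (8 * D0 k n C3 * 2 ^ n) / (n : ℝ) ^ 3 := by
  have hnR : (0 : ℝ) < n := by exact_mod_cast D.hn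
  have hQ : (0 : ℝ) < ((q + 1 : ℕ) : ℝ) := by positivity
  have hfact : (0 : ℝ) < (k + 2).factorial := by exact_mod_cast Nat.factorial_pos _
  have hD := D.D0_pos
  have hθ := D.th_pos
  have hne : O.Nonempty := Finset.card_pos.mp (by omega)
  obtain ⟨_, _, hΨ, _⟩ := D.invariants hJ
  obtain ⟨_, h0⟩ := sq_sum_le_qf_kap (q := q) (M := M) (b := b) (m := m) (k := k + 2) (U := U) W
  have h1 := tail_bound θ D.th_pos hne (hc b m) (gc (k + 2) b m)
    (fun c hc' s => (hc_sub_gc D.hP (hO hc') s).trans D.deg2) W hW _ (gle_gc D.hP D.hn hO) 12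
    (by decide)
  set A : ℝ := (4 * (n : ℝ)) ^ (k + 2) / O.card with hA
  have hA0 : 0 ≤ A := by positivity
  have hAle : A ≤ 4 ^ (k + 2) * ((k + 2).factorial : ℝ) * n := by
    rw [hA, hcard]
    have h2 := D.dens
    have h3 : (n : ℝ) ^ (k + 2) / ((k + 2).factorial * ((q + 1 : ℕ) : ℝ)) ≤ n := by
      refine h2.trans ?_
      have := D.chi_le
      nlinarith
    rw [div_le_iff₀ (by positivity)] at h3
    rw [div_le_iff₀ hQ, mul_pow]
    calc (4 : ℝ) ^ (k + 2) * (n : ℝ) ^ (k + 2) ≤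
        4 ^ (k + 2) * (n * ((k + 2).factorial * ((q + 1 : ℕ) : ℝ))) :=
          mul_le_mul_of_nonneg_left h3 (by positivity)
      _ = _ := by ring
  have h2 : qf Finset.univ W (fun s t => (A * gR (k + 2) s t) ^ 12) ≤
      (4 ^ (k + 2) * ((k + 2).factorial : ℝ)) ^ 12 / (n : ℝ) ^ 6 *
        (8 * D0 k n C3 * 2 ^ n) ^ 2 := by
    have e1 : qf Finset.univ W (fun s t => (A * gR (k + 2) s t) ^ 12) =
        A ^ 12 / (n : ℝ) ^ 18 * qf Finset.univ W (fun s t => (n : ℝ) ^ 18 * gR (k + 2) s t ^ 12) := by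
      rw [← qf_smul]
      apply qf_congr
      intro s _ t _
      field_simp
    rw [e1]
    have h3 : A ^ 12 / (n : ℝ) ^ 18 ≤ (4 ^ (k + 2) * ((k + 2).factorial : ℝ)) ^ 12 / (n : ℝ) ^ 6 := by
      have h4 : A ^ 12 ≤ (4 ^ (k + 2) * ((k + 2).factorial : ℝ) * n) ^ 12 :=
        pow_le_pow_left₀ hA0 hAle 12
      rw [div_le_div_iff₀ (by positivity) (by positivity)]
      calc A ^ 12 * (n : ℝ) ^ 6 ≤ (4 ^ (k + 2) * ((k + 2).factorial : ℝ) * n) ^ 12 * (n : ℝ) ^ 6 :=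
            mul_le_mul_of_nonneg_right h4 (by positivity)
        _ = _ := by ring
    have h5 : 0 ≤ qf Finset.univ W (fun s t => (n : ℝ) ^ 18 * gR (k + 2) s t ^ 12) :=
      (gram_kap_sub (k + 2)).qf_nonneg _ _
    exact mul_le_mul h3 (h0.trans hΨ) h5 (by positivity)
  set F : ℝ := 4 ^ (k + 2) * ((k + 2).factorial : ℝ) with hF
  have hF0 : 0 < F := by positivity
  set G : ℝ := 8 * D0 k n C3 * 2 ^ n with hG
  have hG0 : 0 < G := by positivity
  have h3 : (∑ s ∈ Finset.univ.filter (fun s => ¬ |avg1 O (hc b m) s| ≤ θ), W s) ^ 2 ≤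
      ((2 / θ) ^ 12 * F ^ 6 * G / (n : ℝ) ^ 3) ^ 2 := by
    refine h1.trans ?_
    calc ((2 / θ) ^ 12) ^ 2 * qf Finset.univ W (fun s t => (A * gR (k + 2) s t) ^ 12) ≤
        ((2 / θ) ^ 12) ^ 2 * (F ^ 12 / (n : ℝ) ^ 6 * G ^ 2) :=
          mul_le_mul_of_nonneg_left h2 (by positivity)
      _ = _ := by
          rw [div_pow, mul_pow, mul_pow]
          ring
  exact le_of_sq_le_sq h3 (by positivity)
where
  le_of_sq_le_sq {a b : ℝ} (h : a ^ 2 ≤ b ^ 2) (hb : 0 ≤ b) : a ≤ b :=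
    le_trans (le_abs_self a) (abs_le_of_sq_le_sq h hb)

/-- Loss caused by the truncation. -/
lemma Data.loss2 (D : Data k n q b m η χ θ ρ z l ϖ E1 E2 C3 M) {U V : Finset (Clause n)}
    (hV : V ⊆ board (k + 2) n)
    {W : (Fin n → Bool) → ℝ} (hW : ∀ s, 0 ≤ W s)
    (hJ : (2 : ℝ) ^ n / 2 ≤ jpot ((q + 1 : ℕ) : ℝ) ρ (l1 k n C3) (l2 k n η χ ρ) (kap (k + 2)) M
      (hc b m) U W) :
    l1 k n C3 * qf Finset.univ W
      (fun s t => kap (k + 2) s t * errT M (2 * ker ((q + 1 : ℕ) : ℝ) (hc b m) V s t)) ≤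
      (1 + ((k + 2 : ℕ) : ℝ) ^ 12 * (n : ℝ) ^ 18) * (8 * D0 k n C3 * 2 ^ n * E1 +
        8 * E2 * Real.exp (n * (Real.exp (-(2 * l)) + 2 * z * l)) * E0 k n η χ ρ) := by
  have hnR : (0 : ℝ) < n := by exact_mod_cast D.hn
  have hD := D.D0_pos
  have hE := E0_pos k n η χ ρ
  have hP : (0 : ℝ) < 2 ^ n := by positivity
  obtain ⟨hZ0, hZ, _, hS⟩ := D.invariants hJ
  have hE1 : 0 ≤ E1 := by
    refine le_trans (errT_nonneg M 0) (D.hE1 0 ?_)
    rw [abs_zero]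
    have h5 := D.mid
    have h9 := D.hP.eta_nonneg
    have : 0 ≤ 1 - z := by linarith [D.z_le]
    have h10 : 0 ≤ (1 - z) ^ (k + 2) + (2 * η + 2 ^ (k + 2) * η ^ 2) := by
      positivity
    have : 0 ≤ ϖ := h10.trans h5
    positivity
  have hE2 : 0 ≤ E2 := by
    refine le_trans (errT_nonneg M 0) (D.hE2 0 ?_)
    rw [abs_zero]
    positivity
  set K : ℝ := 1 + ((k + 2 : ℕ) : ℝ) ^ 12 * (n : ℝ) ^ 18 with hK
  have hK0 : 0 < K := by positivity
  have h1 : qf Finset.univ W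
      (fun s t => kap (k + 2) s t * errT M (2 * ker ((q + 1 : ℕ) : ℝ) (hc b m) V s t)) ≤
      qf Finset.univ W (fun s t => K * (E1 * 1 +
        E2 * (if (1 - 2 * z) * n < ov s t then (1 : ℝ) else 0))) := by
    apply qf_mono (fun s _ => hW s)
    intro s _ t _
    apply mul_le_mul (kap_le (k + 2) s t) _ (errT_nonneg _ _) hK0.le
    split_ifs with h
    · have := D.hE2 _ (D.two_ker_le hV s t)
      linarith
    · push Not at h
      have := D.hE1 _ (D.two_ker_le_mid hV s t h)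
      linarith
  have h2 : qf Finset.univ W (fun s t => K * (E1 * 1 +
        E2 * (if (1 - 2 * z) * n < ov s t then (1 : ℝ) else 0))) =
      K * (E1 * (∑ s, W s) ^ 2 +
        E2 * qf Finset.univ W (fun s t => if (1 - 2 * z) * n < ov s t then (1 : ℝ) else 0)) := by
    rw [qf_smul, qf_add, qf_smul, qf_smul, qf_one]
  have h3 := near_pairs_le W z l D.l_nonneg
  set N : ℝ := Real.exp (n * (Real.exp (-(2 * l)) + 2 * z * l)) with hN
  have hN0 : 0 < N := Real.exp_pos _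
  have hl1 : 0 < l1 k n C3 := by unfold l1; positivity
  have hl1' : l1 k n C3 * (8 * D0 k n C3 * 2 ^ n) = 1 := by
    unfold l1
    field_simp
  have h4 : (∑ s, W s) ^ 2 ≤ (8 * D0 k n C3 * 2 ^ n) ^ 2 := pow_le_pow_left₀ hZ0 hZ 2
  have h5 : qf Finset.univ W (fun s t => if (1 - 2 * z) * n < ov s t then (1 : ℝ) else 0) ≤
      N * (64 * E0 k n η χ ρ * (D0 k n C3 * 2 ^ n)) :=
    h3.trans (mul_le_mul_of_nonneg_left hS hN0.le)
  calc _ ≤ l1 k n C3 * (K * (E1 * (8 * D0 k n C3 * 2 ^ n) ^ 2 +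
        E2 * (N * (64 * E0 k n η χ ρ * (D0 k n C3 * 2 ^ n))))) := by
        apply mul_le_mul_of_nonneg_left _ hl1.le
        refine h1.trans ?_
        rw [h2]
        apply mul_le_mul_of_nonneg_left _ hK0.le
        exact add_le_add (mul_le_mul_of_nonneg_left h4 hE1) (mul_le_mul_of_nonneg_left h5 hE2)
    _ = (l1 k n C3 * (8 * D0 k n C3 * 2 ^ n)) * (K * (8 * D0 k n C3 * 2 ^ n * E1 +
        8 * E2 * N * E0 k n η χ ρ)) := by ring
    _ = _ := by rw [hl1', one_mul]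

/-- Client wins the Waiter-Client game under explicit numerical conditions. -/
theorem Data.clientWins (D : Data k n q b m η χ θ ρ z l ϖ E1 E2 C3 M)
    (hfin : (2 / θ) ^ 12 * (4 ^ (k + 2) * ((k + 2).factorial : ℝ)) ^ 6 *
        (8 * D0 k n C3) / (n : ℝ) ^ 3 +
      (1 + ((k + 2 : ℕ) : ℝ) ^ 12 * (n : ℝ) ^ 18) * (8 * D0 k n C3 * E1 +
        8 * E2 * Real.exp (n * (Real.exp (-(2 * l)) + 2 * z * l)) * (E0 k n η χ ρ / 2 ^ n)) ≤
      1 / (2 ^ (k + 5) * n)) :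
    ClientWinsWC q (board (k + 2) n) ∅ := by
  have hnR : (0 : ℝ) < n := by exact_mod_cast D.hn
  have hQ : (0 : ℝ) < ((q + 1 : ℕ) : ℝ) := by positivity
  have hfact : (0 : ℝ) < (k + 2).factorial := by exact_mod_cast Nat.factorial_pos _
  have hD := D.D0_pos
  have hE := E0_pos k n η χ ρ
  have hP : (0 : ℝ) < 2 ^ n := by positivity
  have hl1 : 0 < l1 k n C3 := by unfold l1; positivity
  have hl2 : 0 < l2 k n η χ ρ := by unfold l2; positivity
  have hl1' : l1 k n C3 * (8 * D0 k n C3 * 2 ^ n) = 1 := by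
    unfold l1
    field_simp
  have hl2' : l2 k n η χ ρ * (8 * E0 k n η χ ρ) = 1 := by
    unfold l2
    field_simp
  set δ : ℝ := 2 ^ n / (2 ^ (k + 5) * n) with hδ
  have hδ0 : 0 < δ := by positivity
  refine clientWinsWC_of_jpot q (kap (k + 2)) (gram_kap (k + 2))
    (fun s t => le_trans zero_le_one (one_le_kap _ s t)) M D.hM θ D.th_le ρ D.rho (l1 k n C3)
    (l2 k n η χ ρ) hl1.le hl2.le (hc b m) (board (k + 2) n)
    (fun c hcb s => abs_hc_le_one D.hP hcb s) (fun c hcb s h => hc_viol hcb s h)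
    δ (2 ^ n / 2) hδ0.le (by positivity) ?_ _ (board (k + 2) n) ∅ (fun _ => 1) le_rfl
    (Finset.Subset.refl _) (fun _ => zero_le_one) (by simp) ?_
  · intro U hU O hO hcard W hW hJ
    have h1 := D.loss1 (hO.trans hU) hcard hW hJ
    have h2 := D.loss2 (V := U \ O) (Finset.sdiff_subset.trans hU) hW hJ
    refine (add_le_add h1 h2).trans ?_
    have h3 := mul_le_mul_of_nonneg_right hfin hP.le
    refine le_trans (le_of_eq ?_) (h3.trans (le_of_eq ?_))
    · field_simp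
    · rw [hδ]
      ring
  · have h1 := D.psi_init
    have h2 := D.sqf_init
    have h3 : l1 k n C3 * psi ((q + 1 : ℕ) : ℝ) (kap (k + 2)) M (hc b m) (board (k + 2) n)
        (fun _ => 1) ≤ 2 ^ n / 8 := by
      calc _ ≤ l1 k n C3 * (D0 k n C3 * (2 ^ n) ^ 2) := mul_le_mul_of_nonneg_left h1 hl1.le
        _ = (l1 k n C3 * (8 * D0 k n C3 * 2 ^ n)) * (2 ^ n / 8) := by ring
        _ = _ := by rw [hl1', one_mul]
    have h4 : l2 k n η χ ρ * sqf ((q + 1 : ℕ) : ℝ) ρ (hc b m) (board (k + 2) n)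
        (fun _ => 1) ≤ 2 ^ n / 8 := by
      calc _ ≤ l2 k n η χ ρ * (2 ^ n * E0 k n η χ ρ) := mul_le_mul_of_nonneg_left h2 hl2.le
        _ = (l2 k n η χ ρ * (8 * E0 k n η χ ρ)) * (2 ^ n / 8) := by ring
        _ = _ := by rw [hl2', one_mul]
    have h5 : δ * (((board (k + 2) n).card : ℝ) / ((q + 1 : ℕ) : ℝ)) ≤ 2 ^ n / 8 := by
      have h6 := card_board_le (k + 2) n
      have h7 := D.dens
      have h8 : (n : ℝ) ^ (k + 2) / ((k + 2).factorial * ((q + 1 : ℕ) : ℝ)) ≤ n := by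
        refine h7.trans ?_
        have := D.chi_le
        nlinarith
      have h9 : ((board (k + 2) n).card : ℝ) / ((q + 1 : ℕ) : ℝ) ≤ 2 ^ (k + 2) * n := by
        rw [div_le_iff₀ (by positivity)] at h8 ⊢
        have h10 : (k + 2).factorial * ((board (k + 2) n).card : ℝ) ≤
            (k + 2).factorial * (2 ^ (k + 2) * n * ((q + 1 : ℕ) : ℝ)) := by
          refine h6.trans ?_
          rw [mul_pow]
          calc (2 : ℝ) ^ (k + 2) * (n : ℝ) ^ (k + 2) ≤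
              2 ^ (k + 2) * (n * ((k + 2).factorial * ((q + 1 : ℕ) : ℝ))) :=
                mul_le_mul_of_nonneg_left h8 (by positivity)
            _ = _ := by ring
        exact le_of_mul_le_mul_left h10 hfact
      calc δ * (((board (k + 2) n).card : ℝ) / ((q + 1 : ℕ) : ℝ)) ≤ δ * (2 ^ (k + 2) * n) :=
            mul_le_mul_of_nonneg_left h9 hδ0.le
        _ = 2 ^ n / 8 := by
            rw [hδ, show k + 5 = (k + 2) + 3 from rfl, pow_add _ (k + 2) 3]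
            field_simp
            norm_num
    have h6 : jpot ((q + 1 : ℕ) : ℝ) ρ (l1 k n C3) (l2 k n η χ ρ) (kap (k + 2)) M (hc b m)
        (board (k + 2) n) (fun _ => 1) = 2 ^ n -
        l1 k n C3 * psi ((q + 1 : ℕ) : ℝ) (kap (k + 2)) M (hc b m) (board (k + 2) n) (fun _ => 1) -
        l2 k n η χ ρ * sqf ((q + 1 : ℕ) : ℝ) ρ (hc b m) (board (k + 2) n) (fun _ => 1) := by
      unfold jpot
      congr 2
      simp
    rw [h6]
    linarith

end Pool.Agent.W_MP_fefad7_co.Sharp
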