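import Mathlib

set_option autoImplicit false

namespace Pool.Agent.W_MP_fefad7_co.Sharp

open Finset

variable {S : Type*}

/-- `K` is a Gram kernel: a finite sum of kernels `f s * f t`. -/
def Gram (K : S → S → ℝ) : Prop :=
  ∃ (ι : Type) (_ : Fintype ι) (f : ι → S → ℝ), ∀ s t, K s t = ∑ i, f i s * f i t

lemma Gram.congr {K L : S → S → ℝ} (hK : Gram K) (h : ∀ s t, L s t = K s t) : Gram L := by
  obtain ⟨ι, hι, f, hf⟩ := hK
  exact ⟨ι, hι, f, fun s t => by rw [h, hf]⟩

lemma gram_zero : Gram (fun _ _ : S => (0 : ℝ)) :=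
  ⟨Empty, inferInstance, fun _ _ => 0, fun s t => by simp⟩

lemma gram_rankOne (f : S → ℝ) : Gram (fun s t => f s * f t) :=
  ⟨Unit, inferInstance, fun _ => f, fun s t => by simp⟩

lemma gram_one : Gram (fun _ _ : S => (1 : ℝ)) :=
  (gram_rankOne (fun _ : S => (1 : ℝ))).congr fun s t => by simp

lemma Gram.add {K L : S → S → ℝ} (hK : Gram K) (hL : Gram L) :
    Gram (fun s t => K s t + L s t) := by
  obtain ⟨ι, hι, f, hf⟩ := hK
  obtain ⟨κ, hκ, g, hg⟩ := hL
  refine ⟨ι ⊕ κ, inferInstance, Sum.elim f g, fun s t => ?_⟩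
  rw [Fintype.sum_sum_type]
  simp only [Sum.elim_inl, Sum.elim_inr, hf, hg]

lemma Gram.mul {K L : S → S → ℝ} (hK : Gram K) (hL : Gram L) :
    Gram (fun s t => K s t * L s t) := by
  obtain ⟨ι, hι, f, hf⟩ := hK
  obtain ⟨κ, hκ, g, hg⟩ := hL
  refine ⟨ι × κ, inferInstance, fun p s => f p.1 s * g p.2 s, fun s t => ?_⟩
  show K s t * L s t = ∑ i : ι × κ, f i.1 s * g i.2 s * (f i.1 t * g i.2 t)
  rw [hf, hg, Fintype.sum_prod_type, Finset.sum_mul_sum]
  refine Finset.sum_congr rfl fun i _ => Finset.sum_congr rfl fun j _ => ?_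
  ring

lemma Gram.smul {K : S → S → ℝ} (hK : Gram K) {c : ℝ} (hc : 0 ≤ c) :
    Gram (fun s t => c * K s t) := by
  obtain ⟨ι, hι, f, hf⟩ := hK
  refine ⟨ι, hι, fun i s => Real.sqrt c * f i s, fun s t => ?_⟩
  show c * K s t = ∑ i, Real.sqrt c * f i s * (Real.sqrt c * f i t)
  rw [hf, Finset.mul_sum]
  refine Finset.sum_congr rfl fun i _ => ?_
  have := Real.mul_self_sqrt hc
  linear_combination (-(f i s * f i t)) * this

lemma gram_const {c : ℝ} (hc : 0 ≤ c) : Gram (fun _ _ : S => c) :=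
  (gram_one.smul hc).congr fun s t => by simp

/-- Rescaling of the kernel. -/
lemma Gram.scale {K : S → S → ℝ} (hK : Gram K) (g : S → ℝ) :
    Gram (fun s t => g s * g t * K s t) :=
  (gram_rankOne g).mul hK

lemma gram_sum {ι : Type*} (F : Finset ι) (K : ι → S → S → ℝ) (h : ∀ i ∈ F, Gram (K i)) :
    Gram (fun s t => ∑ i ∈ F, K i s t) := by
  classical
  induction F using Finset.induction_on with
  | empty => simpa using gram_zero
  | insert a F ha ih =>
    refine ((h a (Finset.mem_insert_self a F)).add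
      (ih fun i hi => h i (Finset.mem_insert_of_mem hi))).congr fun s t => ?_
    rw [Finset.sum_insert ha]

lemma Gram.pow {K : S → S → ℝ} (hK : Gram K) (j : ℕ) : Gram (fun s t => K s t ^ j) := by
  induction j with
  | zero => exact gram_one.congr fun s t => by simp
  | succ j ih => exact (ih.mul hK).congr fun s t => by rw [pow_succ]

/-- The Gram order. -/
def GLe (X Y : S → S → ℝ) : Prop := Gram (fun s t => Y s t - X s t)

lemma GLe.refl (X : S → S → ℝ) : GLe X X := gram_zero.congr fun s t => by simp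

lemma GLe.trans {X Y Z : S → S → ℝ} (h : GLe X Y) (h' : GLe Y Z) : GLe X Z :=
  (Gram.add h h').congr fun s t => by ring

lemma Gram.gle {X : S → S → ℝ} (h : Gram X) : GLe (fun _ _ => 0) X :=
  h.congr fun s t => by ring

lemma GLe.gram {X Y : S → S → ℝ} (h : GLe X Y) (hX : Gram X) : Gram Y :=
  (hX.add h).congr fun s t => by ring

lemma GLe.add {X Y X' Y' : S → S → ℝ} (h : GLe X Y) (h' : GLe X' Y') :
    GLe (fun s t => X s t + X' s t) (fun s t => Y s t + Y' s t) :=
  (Gram.add h h').congr fun s t => by ring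

lemma GLe.smul {X Y : S → S → ℝ} (h : GLe X Y) {c : ℝ} (hc : 0 ≤ c) :
    GLe (fun s t => c * X s t) (fun s t => c * Y s t) :=
  (Gram.smul h hc).congr fun s t => by ring

lemma GLe.mul {X Y X' Y' : S → S → ℝ} (h : GLe X Y) (h' : GLe X' Y') (hX : Gram X)
    (hY' : Gram Y') : GLe (fun s t => X s t * X' s t) (fun s t => Y s t * Y' s t) :=
  ((Gram.mul h hY').add (Gram.mul hX h')).congr fun s t => by ring

lemma GLe.pow {X Y : S → S → ℝ} (h : GLe X Y) (hX : Gram X) (j : ℕ) :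
    GLe (fun s t => X s t ^ j) (fun s t => Y s t ^ j) := by
  induction j with
  | zero => exact (GLe.refl (fun _ _ => 1)).congr fun s t => by simp
  | succ j ih =>
    have hY : Gram Y := h.gram hX
    exact (ih.mul h (hX.pow j) hY).congr fun s t => by simp only [pow_succ]

lemma gle_sum {ι : Type*} (F : Finset ι) (X Y : ι → S → S → ℝ)
    (h : ∀ i ∈ F, GLe (X i) (Y i)) :
    GLe (fun s t => ∑ i ∈ F, X i s t) (fun s t => ∑ i ∈ F, Y i s t) :=
  (gram_sum F (fun i s t => Y i s t - X i s t) h).congr fun s t => by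
    rw [Finset.sum_sub_distrib]

/-- The quadratic form of a kernel. -/
noncomputable def qf (P : Finset S) (w : S → ℝ) (K : S → S → ℝ) : ℝ :=
  ∑ s ∈ P, ∑ t ∈ P, w s * w t * K s t

lemma qf_congr (P : Finset S) (w : S → ℝ) {K L : S → S → ℝ}
    (h : ∀ s ∈ P, ∀ t ∈ P, K s t = L s t) : qf P w K = qf P w L := by
  unfold qf
  refine Finset.sum_congr rfl fun s hs => Finset.sum_congr rfl fun t ht => ?_
  rw [h s hs t ht]

lemma qf_add (P : Finset S) (w : S → ℝ) (K L : S → S → ℝ) :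
    qf P w (fun s t => K s t + L s t) = qf P w K + qf P w L := by
  unfold qf
  simp only [mul_add, Finset.sum_add_distrib]

lemma qf_sub (P : Finset S) (w : S → ℝ) (K L : S → S → ℝ) :
    qf P w (fun s t => K s t - L s t) = qf P w K - qf P w L := by
  unfold qf
  simp only [mul_sub, Finset.sum_sub_distrib]

lemma qf_smul (P : Finset S) (w : S → ℝ) (c : ℝ) (K : S → S → ℝ) :
    qf P w (fun s t => c * K s t) = c * qf P w K := by
  unfold qf
  simp only [Finset.mul_sum]
  refine Finset.sum_congr rfl fun s _ => Finset.sum_congr rfl fun t _ => ?_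
  ring

lemma Gram.qf_nonneg {K : S → S → ℝ} (hK : Gram K) (P : Finset S) (w : S → ℝ) :
    0 ≤ qf P w K := by
  obtain ⟨ι, hι, f, hf⟩ := hK
  have : qf P w K = ∑ i, (∑ s ∈ P, w s * f i s) ^ 2 := by
    unfold qf
    have h1 : ∀ i : ι, (∑ s ∈ P, w s * f i s) ^ 2 =
        ∑ s ∈ P, ∑ t ∈ P, (w s * f i s) * (w t * f i t) := by
      intro i
      rw [sq, Finset.sum_mul_sum]
    simp only [h1, hf, Finset.mul_sum]
    rw [Finset.sum_comm (s := (Finset.univ : Finset ι))]
    refine Finset.sum_congr rfl fun s _ => ?_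
    rw [Finset.sum_comm (s := (Finset.univ : Finset ι))]
    refine Finset.sum_congr rfl fun t _ => ?_
    refine Finset.sum_congr rfl fun i _ => ?_
    ring
  rw [this]
  exact Finset.sum_nonneg fun i _ => sq_nonneg _

lemma GLe.qf_le {X Y : S → S → ℝ} (h : GLe X Y) (P : Finset S) (w : S → ℝ) :
    qf P w X ≤ qf P w Y := by
  have h1 := Gram.qf_nonneg h P w
  rw [qf_sub] at h1
  linarith

lemma qf_mono {P : Finset S} {w : S → ℝ} (hw : ∀ s ∈ P, 0 ≤ w s) {K L : S → S → ℝ}
    (h : ∀ s ∈ P, ∀ t ∈ P, K s t ≤ L s t) : qf P w K ≤ qf P w L := by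
  unfold qf
  refine Finset.sum_le_sum fun s hs => Finset.sum_le_sum fun t ht => ?_
  exact mul_le_mul_of_nonneg_left (h s hs t ht) (mul_nonneg (hw s hs) (hw t ht))

lemma qf_nonneg {P : Finset S} {w : S → ℝ} (hw : ∀ s ∈ P, 0 ≤ w s) {K : S → S → ℝ}
    (h : ∀ s ∈ P, ∀ t ∈ P, 0 ≤ K s t) : 0 ≤ qf P w K := by
  unfold qf
  refine Finset.sum_nonneg fun s hs => Finset.sum_nonneg fun t ht => ?_
  exact mul_nonneg (mul_nonneg (hw s hs) (hw t ht)) (h s hs t ht)

lemma qf_subset {P P' : Finset S} (hP : P ⊆ P') {w : S → ℝ} (hw : ∀ s ∈ P', 0 ≤ w s)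
    {K : S → S → ℝ} (h : ∀ s ∈ P', ∀ t ∈ P', 0 ≤ K s t) : qf P w K ≤ qf P' w K := by
  unfold qf
  calc ∑ s ∈ P, ∑ t ∈ P, w s * w t * K s t ≤ ∑ s ∈ P, ∑ t ∈ P', w s * w t * K s t := by
        refine Finset.sum_le_sum fun s hs => ?_
        refine Finset.sum_le_sum_of_subset_of_nonneg hP fun t ht _ => ?_
        exact mul_nonneg (mul_nonneg (hw s (hP hs)) (hw t ht)) (h s (hP hs) t ht)
    _ ≤ ∑ s ∈ P', ∑ t ∈ P', w s * w t * K s t := by
        refine Finset.sum_le_sum_of_subset_of_nonneg hP fun s hs _ => ?_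
        refine Finset.sum_nonneg fun t ht => ?_
        exact mul_nonneg (mul_nonneg (hw s hs) (hw t ht)) (h s hs t ht)

lemma qf_one (P : Finset S) (w : S → ℝ) : qf P w (fun _ _ => 1) = (∑ s ∈ P, w s) ^ 2 := by
  unfold qf
  rw [sq, Finset.sum_mul_sum]
  simp

lemma qf_rankOne (P : Finset S) (w f : S → ℝ) :
    qf P w (fun s t => f s * f t) = (∑ s ∈ P, w s * f s) ^ 2 := by
  unfold qf
  rw [sq, Finset.sum_mul_sum]
  refine Finset.sum_congr rfl fun s _ => Finset.sum_congr rfl fun t _ => ?_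
  ring

end Pool.Agent.W_MP_fefad7_co.Sharp
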