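import Pool.Agent.W_MP_fefad7_co.Sharp.ClauseKer

set_option autoImplicit false

namespace Pool.Agent.W_MP_fefad7_co.Sharp

open Finset

variable {n k : ℕ}

lemma co_zero {b m η : ℝ} (hP : Params k b m η) : co k b m 0 = 0 := by
  have hm : m ≠ 0 := by
    have := hP.m_ge
    intro h
    rw [h] at this
    norm_num at this
  unfold co
  simp only [pow_zero, one_mul, Nat.sub_zero, if_true]
  rw [← hP.m_eq, div_self hm, sub_self]

lemma co_one {b m η : ℝ} (hP : Params k b m η) : co k b m 1 = 0 := by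
  unfold co
  rw [pow_one, pow_one, hP.crit]
  simp

lemma abs_co_le {b m η : ℝ} (hP : Params k b m η) {j : ℕ} (hj : j ≤ k) :
    |co k b m j| ≤ 2 * (1 / 2) ^ k := by
  have hx : (0 : ℝ) < (1 / 2) ^ k := by positivity
  rcases Nat.eq_zero_or_pos j with rfl | hjpos
  · rw [co_zero hP, abs_zero]
    positivity
  have hm : 0 < m := lt_of_lt_of_le (by norm_num) hP.m_ge
  have hb := hP.b_pos
  have hb1 := hP.b_le
  unfold co
  rw [if_neg (by omega), sub_zero, abs_div, abs_mul, abs_pow, abs_neg, abs_one, one_pow, one_mul,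
    abs_of_pos hm, div_le_iff₀ hm]
  have h1 : b ^ j * (1 - b) ^ (k - j) ≤ (1 / 2) ^ k := by
    rw [← hP.crit]
    obtain ⟨i, rfl⟩ : ∃ i, j = i + 1 := ⟨j - 1, by omega⟩
    have e : k - 1 = i + (k - (i + 1)) := by omega
    rw [e, pow_succ, pow_add]
    have h2 : b ^ i ≤ (1 - b) ^ i := pow_le_pow_left₀ hb.le (by linarith) i
    have h3 : 0 ≤ (1 - b) ^ (k - (i + 1)) := pow_nonneg (by linarith) _
    calc b ^ i * b * (1 - b) ^ (k - (i + 1)) = b ^ i * (b * (1 - b) ^ (k - (i + 1))) := by ring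
      _ ≤ (1 - b) ^ i * (b * (1 - b) ^ (k - (i + 1))) :=
          mul_le_mul_of_nonneg_right h2 (by positivity)
      _ = _ := by ring
  have h0 : 0 ≤ b ^ j * (1 - b) ^ (k - j) :=
    mul_nonneg (pow_nonneg hb.le _) (pow_nonneg (by linarith) _)
  have h4 : |b ^ j * (1 - b) ^ (k - j) - (1 / 2) ^ k| ≤ (1 / 2) ^ k := by
    rw [abs_le]
    constructor <;> linarith
  have h5 : (1 : ℝ) / 2 ≤ m := hP.m_ge
  nlinarith

lemma co_sq_le {b m η : ℝ} (hP : Params k b m η) {j : ℕ} (hj : j ≤ k) :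
    co k b m j ^ 2 ≤ 4 * (1 / 4) ^ k := by
  have h1 := abs_co_le hP hj
  have h2 : |co k b m j| ^ 2 ≤ (2 * (1 / 2) ^ k) ^ 2 := pow_le_pow_left₀ (abs_nonneg _) h1 2
  rw [sq_abs] at h2
  refine h2.trans (le_of_eq ?_)
  rw [mul_pow, ← pow_mul, mul_comm k 2, pow_mul]
  norm_num

lemma card_fin_le (J : Finset (Fin k)) : J.card ≤ k := by
  have := Finset.card_le_univ J
  simpa using this

lemma abs_khat_le {b m η : ℝ} (hP : Params k b m η) {Q : ℝ} (hQ : 0 < Q) (s t : Fin n → Bool) :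
    |khat k b m Q s t| ≤ 4 * ((n : ℝ) ^ k / (k.factorial * Q)) := by
  have hfact : (0 : ℝ) < k.factorial := by exact_mod_cast Nat.factorial_pos k
  unfold khat
  rw [abs_div, abs_of_pos (show (0 : ℝ) < k.factorial * Q by positivity), mul_div_assoc']
  apply div_le_div_of_nonneg_right _ (by positivity)
  have h1 : ∀ J : Finset (Fin k), |co k b m J.card ^ 2 *
        ((2 * ov s t) ^ J.card * (2 * (n : ℝ)) ^ (k - J.card))| ≤
        4 * (1 / 4) ^ k * (2 * (n : ℝ)) ^ k := by
    intro J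
    have hJ := card_fin_le J
    rw [abs_mul, abs_of_nonneg (sq_nonneg _), abs_mul, abs_pow, abs_mul, abs_two,
      abs_of_nonneg (show 0 ≤ (2 * (n : ℝ)) ^ (k - J.card) by positivity)]
    apply mul_le_mul (co_sq_le hP hJ) _ (by positivity) (by positivity)
    calc (2 * |ov s t|) ^ J.card * (2 * (n : ℝ)) ^ (k - J.card) ≤
        (2 * (n : ℝ)) ^ J.card * (2 * (n : ℝ)) ^ (k - J.card) := by
          apply mul_le_mul_of_nonneg_right _ (by positivity)
          exact pow_le_pow_left₀ (by positivity)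
            (mul_le_mul_of_nonneg_left (abs_ov_le s t) (by norm_num)) _
      _ = (2 * (n : ℝ)) ^ k := by
          rw [← pow_add, Nat.add_sub_cancel' hJ]
  calc |∑ J : Finset (Fin k), co k b m J.card ^ 2 *
        ((2 * ov s t) ^ J.card * (2 * (n : ℝ)) ^ (k - J.card))| ≤
      ∑ J : Finset (Fin k), |co k b m J.card ^ 2 *
        ((2 * ov s t) ^ J.card * (2 * (n : ℝ)) ^ (k - J.card))| := Finset.abs_sum_le_sum_abs _ _
    _ ≤ ∑ _J : Finset (Fin k), 4 * (1 / 4) ^ k * (2 * (n : ℝ)) ^ k :=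
        Finset.sum_le_sum fun J _ => h1 J
    _ = 4 * (n : ℝ) ^ k := by
        rw [Finset.sum_const, Finset.card_univ, Fintype.card_finset, Fintype.card_fin,
          nsmul_eq_mul]
        push_cast
        rw [mul_pow]
        have : (2 : ℝ) ^ k * ((1 / 4) ^ k * 2 ^ k) = 1 := by
          rw [← mul_pow, ← mul_pow]
          norm_num
        linear_combination (4 * (n : ℝ) ^ k) * this

lemma sum_card_ge_two (k : ℕ) {u v : ℝ} (hu : 0 ≤ u) (hv : 0 ≤ v) :
    ∑ J : Finset (Fin (k + 2)), (if 2 ≤ J.card then u ^ J.card * v ^ (k + 2 - J.card) else 0) ≤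
      ((k + 2 : ℕ).choose 2 : ℝ) * (u ^ 2 * (u + v) ^ k) := by
  have h1 := Finset.sum_powerset_apply_card
    (fun j => if 2 ≤ j then u ^ j * v ^ (k + 2 - j) else 0) (x := (Finset.univ : Finset (Fin (k + 2))))
  rw [Finset.powerset_univ, Finset.card_univ, Fintype.card_fin] at h1
  rw [h1]
  rw [Finset.sum_range_succ', Finset.sum_range_succ']
  simp only [nsmul_eq_mul]
  rw [if_neg (by norm_num), if_neg (by norm_num)]
  simp only [mul_zero, add_zero]
  rw [add_pow, Finset.mul_sum, Finset.mul_sum]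
  refine Finset.sum_le_sum fun i hi => ?_
  have hi' : i ≤ k := by
    have := Finset.mem_range.mp hi
    omega
  rw [if_pos (by omega)]
  have e1 : k + 2 - (i + 1 + 1) = k - i := by omega
  have e2 : i + 1 + 1 = i + 2 := rfl
  rw [e1, e2]
  have h2 : (k + 2).choose (i + 2) ≤ (k + 2).choose 2 * k.choose i := by
    have h3 := Nat.choose_mul (n := k + 2) (k := i + 2) (s := 2) (by omega)
    rw [show k + 2 - 2 = k by omega, show i + 2 - 2 = i by omega] at h3
    rw [← h3]
    have h4 : 1 ≤ (i + 2).choose 2 := Nat.choose_pos (by omega)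
    exact Nat.le_mul_of_pos_right _ h4
  have h2' : ((k + 2).choose (i + 2) : ℝ) ≤ ((k + 2).choose 2 : ℝ) * (k.choose i : ℝ) := by
    exact_mod_cast h2
  calc ((k + 2).choose (i + 2) : ℝ) * (u ^ (i + 2) * v ^ (k - i)) ≤
      ((k + 2).choose 2 : ℝ) * (k.choose i : ℝ) * (u ^ (i + 2) * v ^ (k - i)) :=
        mul_le_mul_of_nonneg_right h2' (by positivity)
    _ = _ := by ring

lemma abs_khat_le_small {b m η : ℝ} (hP : Params (k + 2) b m η) {Q : ℝ} (hQ : 0 < Q)
    (z : ℝ) (hn : 0 < n) (s t : Fin n → Bool)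
    (hov : |ov s t| ≤ (1 - 2 * z) * n) :
    |khat (k + 2) b m Q s t| ≤ ((n : ℝ) ^ (k + 2) / ((k + 2).factorial * Q)) *
      ((((k + 2 : ℕ).choose 2 : ℝ) * (1 - z) ^ k) * (ov s t / n) ^ 2) := by
  have hfact : (0 : ℝ) < (k + 2).factorial := by exact_mod_cast Nat.factorial_pos _
  have hnR : (0 : ℝ) < n := by exact_mod_cast hn
  unfold khat
  rw [abs_div, abs_of_pos (show (0 : ℝ) < (k + 2).factorial * Q by positivity), div_mul_eq_mul_div]
  apply div_le_div_of_nonneg_right _ (by positivity)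
  have h1 : ∀ J : Finset (Fin (k + 2)), |co (k + 2) b m J.card ^ 2 *
        ((2 * ov s t) ^ J.card * (2 * (n : ℝ)) ^ (k + 2 - J.card))| ≤
        4 * (1 / 4) ^ (k + 2) * (if 2 ≤ J.card then
          (2 * |ov s t|) ^ J.card * (2 * (n : ℝ)) ^ (k + 2 - J.card) else 0) := by
    intro J
    have hJ := card_fin_le J
    split_ifs with h2
    · rw [abs_mul, abs_of_nonneg (sq_nonneg _), abs_mul, abs_pow, abs_mul, abs_two,
        abs_of_nonneg (show 0 ≤ (2 * (n : ℝ)) ^ (k + 2 - J.card) by positivity)]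
      exact mul_le_mul_of_nonneg_right (co_sq_le hP hJ) (by positivity)
    · have h3 : co (k + 2) b m J.card = 0 := by
        rcases Nat.eq_zero_or_pos J.card with h | h
        · rw [h]; exact co_zero hP
        · have : J.card = 1 := by omega
          rw [this]; exact co_one hP
      rw [h3]
      simp
  calc |∑ J : Finset (Fin (k + 2)), co (k + 2) b m J.card ^ 2 *
        ((2 * ov s t) ^ J.card * (2 * (n : ℝ)) ^ (k + 2 - J.card))| ≤
      ∑ J : Finset (Fin (k + 2)), |co (k + 2) b m J.card ^ 2 *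
        ((2 * ov s t) ^ J.card * (2 * (n : ℝ)) ^ (k + 2 - J.card))| :=
        Finset.abs_sum_le_sum_abs _ _
    _ ≤ ∑ J : Finset (Fin (k + 2)), 4 * (1 / 4) ^ (k + 2) * (if 2 ≤ J.card then
          (2 * |ov s t|) ^ J.card * (2 * (n : ℝ)) ^ (k + 2 - J.card) else 0) :=
        Finset.sum_le_sum fun J _ => h1 J
    _ = 4 * (1 / 4) ^ (k + 2) * ∑ J : Finset (Fin (k + 2)), (if 2 ≤ J.card then
          (2 * |ov s t|) ^ J.card * (2 * (n : ℝ)) ^ (k + 2 - J.card) else 0) := by
        rw [Finset.mul_sum]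
    _ ≤ 4 * (1 / 4) ^ (k + 2) * (((k + 2 : ℕ).choose 2 : ℝ) * ((2 * |ov s t|) ^ 2 *
          (2 * |ov s t| + 2 * (n : ℝ)) ^ k)) :=
        mul_le_mul_of_nonneg_left (sum_card_ge_two k (by positivity) (by positivity))
          (by positivity)
    _ ≤ 4 * (1 / 4) ^ (k + 2) * (((k + 2 : ℕ).choose 2 : ℝ) * ((2 * |ov s t|) ^ 2 *
          (4 * n * (1 - z)) ^ k)) := by
        have h5 : (2 * |ov s t| + 2 * (n : ℝ)) ^ k ≤ (4 * n * (1 - z)) ^ k := by
          apply pow_le_pow_left₀ (by positivity)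
          linarith
        have h6 : 0 ≤ (2 * |ov s t|) ^ 2 := by positivity
        apply mul_le_mul_of_nonneg_left _ (by positivity)
        apply mul_le_mul_of_nonneg_left _ (by positivity)
        exact mul_le_mul_of_nonneg_left h5 h6
    _ = _ := by
        have e1 : (2 * |ov s t|) ^ 2 = 4 * (ov s t) ^ 2 := by
          rw [mul_pow, sq_abs]
          norm_num
        have e2 : (ov s t / n) ^ 2 = ov s t ^ 2 / (n : ℝ) ^ 2 := div_pow _ _ _
        have e3 : (4 * (n : ℝ) * (1 - z)) ^ k = 4 ^ k * (n : ℝ) ^ k * (1 - z) ^ k := by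
          rw [mul_pow, mul_pow]
        have e4 : (4 : ℝ) * (1 / 4) ^ (k + 2) * 4 * 4 ^ k = 1 := by
          rw [pow_add, one_div, inv_pow]
          field_simp
        have e6 : (n : ℝ) ^ (k + 2) * ((((k + 2 : ℕ).choose 2 : ℝ) * (1 - z) ^ k) *
            (ov s t ^ 2 / (n : ℝ) ^ 2)) =
            ((k + 2 : ℕ).choose 2 : ℝ) * (1 - z) ^ k * ov s t ^ 2 * (n : ℝ) ^ k := by
          rw [pow_add]
          field_simp
        rw [e1, e2, e3, e6]
        linear_combination (((k + 2 : ℕ).choose 2 : ℝ) * (1 - z) ^ k * ov s t ^ 2 *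
          (n : ℝ) ^ k) * e4

end Pool.Agent.W_MP_fefad7_co.Sharp
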