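import Pool.Agent.W_MP_fefad7_co.Sharp.Fixed

set_option autoImplicit false

namespace Pool.Agent.W_MP_fefad7_co.Sharp

open Finset Filter Topology

/-- `x ^ j / j!` for `x ≤ 8 n` and `j ≤ J`. -/
lemma pow_div_le_near {μ : ℝ} (hμ : 0 < μ) (hμ1 : μ ≤ 1) (n : ℕ) {x : ℝ} (hx0 : 0 ≤ x)
    (hx : x ≤ 8 * n) {j : ℕ} {J : ℝ} (hj : (j : ℝ) ≤ J) :
    x ^ j / (j.factorial : ℝ) ≤ Real.exp (J * Real.log (8 / μ) + μ * n) := by
  have h8 : (1 : ℝ) ≤ 8 / μ := by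
    rw [le_div_iff₀ hμ]
    linarith
  have hfact : (0 : ℝ) < j.factorial := by exact_mod_cast Nat.factorial_pos j
  have h1 : (μ * n) ^ j / (j.factorial : ℝ) ≤ Real.exp (μ * n) :=
    Real.pow_div_factorial_le_exp _ (by positivity) j
  have h2 : x ^ j ≤ (8 / μ) ^ j * (μ * n) ^ j := by
    rw [← mul_pow]
    apply pow_le_pow_left₀ hx0
    have : 8 / μ * (μ * n) = 8 * n := by field_simp
    rw [this]
    exact hx
  have h3 : (8 / μ) ^ j ≤ Real.exp (J * Real.log (8 / μ)) := by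
    have e : (8 / μ) ^ j = Real.exp (j * Real.log (8 / μ)) := by
      rw [Real.exp_nat_mul, Real.exp_log (by positivity)]
    rw [e]
    apply Real.exp_le_exp.mpr
    exact mul_le_mul_of_nonneg_right hj (Real.log_nonneg h8)
  calc x ^ j / (j.factorial : ℝ) ≤ ((8 / μ) ^ j * (μ * n) ^ j) / (j.factorial : ℝ) :=
        div_le_div_of_nonneg_right h2 hfact.le
    _ = (8 / μ) ^ j * ((μ * n) ^ j / (j.factorial : ℝ)) := by ring
    _ ≤ Real.exp (J * Real.log (8 / μ)) * Real.exp (μ * n) :=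
        mul_le_mul h3 h1 (by positivity) (Real.exp_pos _).le
    _ = _ := by rw [Real.exp_add]

/-- `x ^ j / j!` for small `x` and large `j`. -/
lemma pow_div_le_mid {μ : ℝ} (hμ : 0 < μ) (n : ℕ) {x : ℝ} (hx0 : 0 ≤ x)
    (hx : x ≤ Real.exp (-(2 / μ)) * n) {j : ℕ} (hj : μ * n ≤ (j : ℝ)) :
    x ^ j / (j.factorial : ℝ) ≤ Real.exp (-n) := by
  have hfact : (0 : ℝ) < j.factorial := by exact_mod_cast Nat.factorial_pos j
  have h1 : (n : ℝ) ^ j / (j.factorial : ℝ) ≤ Real.exp n :=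
    Real.pow_div_factorial_le_exp _ (by positivity) j
  have h2 : x ^ j ≤ Real.exp (-(2 / μ)) ^ j * (n : ℝ) ^ j := by
    rw [← mul_pow]
    exact pow_le_pow_left₀ hx0 hx j
  have h3 : Real.exp (-(2 / μ)) ^ j ≤ Real.exp (-(2 * n)) := by
    rw [← Real.exp_nat_mul]
    apply Real.exp_le_exp.mpr
    have h4 : 2 * (n : ℝ) ≤ j * (2 / μ) := by
      calc 2 * (n : ℝ) = (μ * n) * (2 / μ) := by field_simp
        _ ≤ _ := mul_le_mul_of_nonneg_right hj (by positivity)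
    linarith
  calc x ^ j / (j.factorial : ℝ) ≤ (Real.exp (-(2 / μ)) ^ j * (n : ℝ) ^ j) / (j.factorial : ℝ) :=
        div_le_div_of_nonneg_right h2 hfact.le
    _ = Real.exp (-(2 / μ)) ^ j * ((n : ℝ) ^ j / (j.factorial : ℝ)) := by ring
    _ ≤ Real.exp (-(2 * n)) * Real.exp n := mul_le_mul h3 h1 (by positivity) (Real.exp_pos _).le
    _ = Real.exp (-n) := by
        rw [← Real.exp_add]
        congr 1
        ring

lemma poly_exp_le (c : ℝ) (hc : 0 < c) (n : ℕ) (hn : 0 < n) :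
    (n : ℝ) ^ 20 * Real.exp (-(c * n)) ≤ ((Nat.factorial 21 : ℝ) / c ^ 21) / n := by
  have hnR : (0 : ℝ) < n := by exact_mod_cast hn
  have h1 : (c * n) ^ 21 / (Nat.factorial 21 : ℝ) ≤ Real.exp (c * n) :=
    Real.pow_div_factorial_le_exp _ (by positivity) 21
  have hf : (0 : ℝ) < (Nat.factorial 21 : ℝ) := by positivity
  rw [div_le_iff₀ hf] at h1
  rw [le_div_iff₀ hnR, le_div_iff₀ (by positivity)]
  have h2 : Real.exp (-(c * n)) * Real.exp (c * n) = 1 := by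
    rw [← Real.exp_add]
    simp
  calc (n : ℝ) ^ 20 * Real.exp (-(c * n)) * n * c ^ 21 = Real.exp (-(c * n)) * (c * n) ^ 21 := by
        ring
    _ ≤ Real.exp (-(c * n)) * (Real.exp (c * n) * (Nat.factorial 21 : ℝ)) :=
        mul_le_mul_of_nonneg_left h1 (Real.exp_pos _).le
    _ = (Real.exp (-(c * n)) * Real.exp (c * n)) * (Nat.factorial 21 : ℝ) := by ring
    _ = _ := by rw [h2, one_mul]

/-- All the conditions on `k`. -/
lemma eventually_k (z θ ϖ c χρ : ℝ) (hz0 : 0 < z) (hz : z ≤ 1 / 8) (hθ : 0 < θ) (hϖ : 0 < ϖ)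
    (hc : 0 < c) : ∀ᶠ k : ℕ in atTop,
      3 ≤ k + 2 ∧ ((k + 2 : ℕ) : ℝ) * (1 / 2) ^ (k + 2) ≤ 1 / 8 ∧
      ((k + 2 : ℕ) : ℝ) ^ 2 * (1 / 2) ^ (k + 2) ≤ θ / 2 ∧
      (1 - z) ^ (k + 2) + (2 * (6 * (((k + 2 : ℕ) : ℝ) * (1 / 2) ^ (k + 2))) +
        2 ^ (k + 2) * (6 * (((k + 2 : ℕ) : ℝ) * (1 / 2) ^ (k + 2))) ^ 2) ≤ ϖ ∧
      2 * (6 * (((k + 2 : ℕ) : ℝ) * (1 / 2) ^ (k + 2))) +
        2 ^ (k + 2) * (6 * (((k + 2 : ℕ) : ℝ) * (1 / 2) ^ (k + 2))) ^ 2 ≤ 1 / 4 ∧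
      χρ * (2 * (6 * (((k + 2 : ℕ) : ℝ) * (1 / 2) ^ (k + 2))) +
        2 ^ (k + 2) * (6 * (((k + 2 : ℕ) : ℝ) * (1 / 2) ^ (k + 2))) ^ 2) ≤ c ∧
      ((k + 2 : ℕ).choose 2 : ℝ) * (1 - z) ^ k ≤ 1 / 16 := by
  have hshift : Tendsto (fun k : ℕ => k + 2) atTop atTop := tendsto_add_atTop_nat 2
  have t1 : Tendsto (fun k : ℕ => ((k + 2 : ℕ) : ℝ) * (1 / 2) ^ (k + 2)) atTop (𝓝 0) := by
    have h := (tendsto_pow_const_mul_const_pow_of_abs_lt_one 1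
      (r := (1 / 2 : ℝ)) (by rw [abs_of_pos] <;> norm_num)).comp hshift
    simpa [Function.comp_def] using h
  have t2 : Tendsto (fun k : ℕ => ((k + 2 : ℕ) : ℝ) ^ 2 * (1 / 2) ^ (k + 2)) atTop (𝓝 0) :=
    (tendsto_pow_const_mul_const_pow_of_abs_lt_one 2
      (r := (1 / 2 : ℝ)) (by rw [abs_of_pos] <;> norm_num)).comp hshift
  have hz1 : |1 - z| < 1 := by
    rw [abs_of_pos (by linarith)]
    linarith
  have t3 : Tendsto (fun k : ℕ => (1 - z) ^ (k + 2)) atTop (𝓝 0) :=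
    (tendsto_pow_atTop_nhds_zero_of_abs_lt_one hz1).comp hshift
  have t4 : Tendsto (fun k : ℕ => 2 * (6 * (((k + 2 : ℕ) : ℝ) * (1 / 2) ^ (k + 2))) +
        2 ^ (k + 2) * (6 * (((k + 2 : ℕ) : ℝ) * (1 / 2) ^ (k + 2))) ^ 2) atTop (𝓝 0) := by
    have h := (t1.const_mul 12).add (t2.const_mul 36)
    simp only [mul_zero, add_zero] at h
    refine h.congr fun k => ?_
    have e : (2 : ℝ) ^ (k + 2) * (1 / 2) ^ (k + 2) = 1 := by
      rw [← mul_pow]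
      norm_num
    calc 12 * (((k + 2 : ℕ) : ℝ) * (1 / 2) ^ (k + 2)) +
          36 * (((k + 2 : ℕ) : ℝ) ^ 2 * (1 / 2) ^ (k + 2)) =
          12 * (((k + 2 : ℕ) : ℝ) * (1 / 2) ^ (k + 2)) +
          36 * (((k + 2 : ℕ) : ℝ) ^ 2 * (1 / 2) ^ (k + 2)) * 1 := by ring
      _ = 12 * (((k + 2 : ℕ) : ℝ) * (1 / 2) ^ (k + 2)) +
          36 * (((k + 2 : ℕ) : ℝ) ^ 2 * (1 / 2) ^ (k + 2)) *
          ((2 : ℝ) ^ (k + 2) * (1 / 2) ^ (k + 2)) := by rw [e]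
      _ = _ := by ring
  have t5 : Tendsto (fun k : ℕ => ((k + 2 : ℕ).choose 2 : ℝ) * (1 - z) ^ k) atTop (𝓝 0) := by
    have h := (tendsto_pow_const_mul_const_pow_of_abs_lt_one 2 hz1).comp hshift
    have h2 := h.const_mul (1 / (1 - z) ^ 2)
    rw [mul_zero] at h2
    have hz2 : 0 < (1 - z) := by linarith
    refine squeeze_zero (fun k => by positivity) (fun k => ?_) h2
    simp only [Function.comp]
    rw [Nat.cast_choose_two, pow_add]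
    have e : 1 / (1 - z) ^ 2 * (((k + 2 : ℕ) : ℝ) ^ 2 * ((1 - z) ^ k * (1 - z) ^ 2)) =
        ((k + 2 : ℕ) : ℝ) ^ 2 * (1 - z) ^ k := by
      field_simp
    rw [e]
    apply mul_le_mul_of_nonneg_right _ (by positivity)
    have h3 : (0 : ℝ) ≤ ((k + 2 : ℕ) : ℝ) := Nat.cast_nonneg _
    nlinarith
  have t6 := t4.const_mul χρ
  rw [mul_zero] at t6
  have t7 := t3.add t4
  rw [add_zero] at t7
  filter_upwards [eventually_ge_atTop 1, t1.eventually_le_const (by norm_num : (0 : ℝ) < 1 / 8),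
    t2.eventually_le_const (by positivity : 0 < θ / 2), t7.eventually_le_const hϖ,
    t4.eventually_le_const (by norm_num : (0 : ℝ) < 1 / 4), t6.eventually_le_const hc,
    t5.eventually_le_const (by norm_num : (0 : ℝ) < 1 / 16)] with k h1 h2 h3 h4 h5 h6 h7
  exact ⟨by omega, h2, h3, h4, h5, h6, h7⟩

end Pool.Agent.W_MP_fefad7_co.Sharp
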