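import Pool.Agent.W_MP_fefad7_co.Sharp.Gram

set_option autoImplicit false

namespace Pool.Agent.W_MP_fefad7_co.Sharp

open Finset

/-- The truncated exponential series. -/
noncomputable def tex (M : ℕ) (x : ℝ) : ℝ := ∑ j ∈ Finset.range (M + 1), x ^ j / (j.factorial : ℝ)

lemma tex_zero (x : ℝ) : tex 0 x = 1 := by simp [tex]

lemma tex_succ (M : ℕ) (x : ℝ) :
    tex (M + 1) x = tex M x + x ^ (M + 1) / ((M + 1).factorial : ℝ) := by
  unfold tex
  rw [Finset.sum_range_succ]

lemma tex_at_zero (M : ℕ) : tex M 0 = 1 := by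
  induction M with
  | zero => exact tex_zero 0
  | succ M ih => rw [tex_succ, ih]; simp

lemma hasDerivAt_tex (M : ℕ) (x : ℝ) : HasDerivAt (tex (M + 1)) (tex M x) x := by
  induction M with
  | zero =>
    have h : tex 1 = fun x => 1 + x := by
      funext y
      rw [tex_succ, tex_zero]
      simp
    rw [h, tex_zero]
    exact (hasDerivAt_id x).const_add 1
  | succ M ih =>
    have h : tex (M + 2) = fun x => tex (M + 1) x + x ^ (M + 2) / ((M + 2).factorial : ℝ) := by
      funext y
      rw [tex_succ]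
    rw [h, tex_succ M x]
    refine ih.add ?_
    have h2 := (hasDerivAt_pow (M + 2) x).div_const ((M + 2).factorial : ℝ)
    refine h2.congr_deriv ?_
    have h3 : ((M + 2).factorial : ℝ) = ((M + 2 : ℕ) : ℝ) * ((M + 1).factorial : ℝ) := by
      rw [Nat.factorial_succ (M + 1)]
      push_cast
      ring
    have h4 : ((M + 1).factorial : ℝ) ≠ 0 := by positivity
    have h5 : ((M + 2 : ℕ) : ℝ) ≠ 0 := by positivity
    rw [h3]
    field_simp
    simp

lemma tex_neg_sign (M : ℕ) : ∀ x : ℝ, 0 ≤ x → 0 ≤ (-1 : ℝ) ^ M * (tex M (-x) - Real.exp (-x)) := by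
  induction M with
  | zero =>
    intro x hx
    rw [tex_zero, pow_zero, one_mul]
    have : Real.exp (-x) ≤ 1 := Real.exp_le_one_iff.mpr (by linarith)
    linarith
  | succ M ih =>
    intro x hx
    set u : ℝ → ℝ := fun y => (-1 : ℝ) ^ (M + 1) * (tex (M + 1) (-y) - Real.exp (-y)) with hu
    have hder : ∀ y : ℝ, HasDerivAt u ((-1 : ℝ) ^ M * (tex M (-y) - Real.exp (-y))) y := by
      intro y
      have h1 : HasDerivAt (fun y : ℝ => -y) (-1) y := (hasDerivAt_id y).neg
      have h2 : HasDerivAt (fun y => tex (M + 1) (-y)) (tex M (-y) * (-1)) y :=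
        (hasDerivAt_tex M (-y)).comp y h1
      have h3 : HasDerivAt (fun y => Real.exp (-y)) (Real.exp (-y) * (-1)) y :=
        (Real.hasDerivAt_exp (-y)).comp y h1
      have h4 : HasDerivAt u _ y := (h2.sub h3).const_mul ((-1 : ℝ) ^ (M + 1))
      refine h4.congr_deriv ?_
      rw [pow_succ]
      ring
    have hmono : MonotoneOn u (Set.Ici 0) := by
      apply monotoneOn_of_deriv_nonneg (convex_Ici 0)
      · exact fun y _ => (hder y).continuousAt.continuousWithinAt
      · exact fun y _ => (hder y).differentiableAt.differentiableWithinAt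
      · intro y hy
        rw [(hder y).deriv]
        apply ih
        rw [interior_Ici] at hy
        exact le_of_lt hy
    have h0 : u 0 = 0 := by
      simp [hu, tex_at_zero]
    have h1 := hmono (Set.mem_Ici.mpr le_rfl) (Set.mem_Ici.mpr hx) hx
    rw [h0] at h1
    exact h1

lemma tex_pos {M : ℕ} (hM : Even M) (x : ℝ) : 0 < tex M x := by
  rcases le_or_gt 0 x with hx | hx
  · have h1 : (1 : ℝ) ≤ tex M x := by
      unfold tex
      have h2 : (x ^ 0 / ((Nat.factorial 0 : ℕ) : ℝ)) ≤
          ∑ j ∈ Finset.range (M + 1), x ^ j / (j.factorial : ℝ) :=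
        Finset.single_le_sum (f := fun j => x ^ j / (j.factorial : ℝ))
          (fun j _ => by positivity) (by simp)
      simpa using h2
    linarith
  · have h1 := tex_neg_sign M (-x) (by linarith)
    rw [hM.neg_one_pow, one_mul, neg_neg] at h1
    have := Real.exp_pos x
    linarith

lemma tex_le_exp (M : ℕ) {x : ℝ} (hx : 0 ≤ x) : tex M x ≤ Real.exp x :=
  Real.sum_le_exp_of_nonneg hx _

lemma tex_mono (M : ℕ) {x y : ℝ} (hx : 0 ≤ x) (hxy : x ≤ y) : tex M x ≤ tex M y := by
  unfold tex
  refine Finset.sum_le_sum fun j _ => ?_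
  apply div_le_div_of_nonneg_right (pow_le_pow_left₀ hx hxy j) (by positivity)

lemma tex_le_abs (M : ℕ) (x : ℝ) : tex M x ≤ tex M |x| := by
  unfold tex
  refine Finset.sum_le_sum fun j _ => ?_
  apply div_le_div_of_nonneg_right _ (by positivity)
  calc x ^ j ≤ |x ^ j| := le_abs_self _
    _ = |x| ^ j := abs_pow x j

variable {S : Type*}

lemma gram_tex (M : ℕ) {K : S → S → ℝ} (hK : Gram K) : Gram (fun s t => tex M (K s t)) := by
  unfold tex
  refine gram_sum _ (fun j s t => K s t ^ j / (j.factorial : ℝ)) fun j _ => ?_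
  refine ((hK.pow j).smul (c := 1 / (j.factorial : ℝ)) (by positivity)).congr fun s t => ?_
  ring

lemma gle_tex (M : ℕ) {X Y : S → S → ℝ} (hX : Gram X) (h : GLe X Y) :
    GLe (fun s t => tex M (X s t)) (fun s t => tex M (Y s t)) := by
  unfold tex
  refine gle_sum _ (fun j s t => X s t ^ j / (j.factorial : ℝ))
    (fun j s t => Y s t ^ j / (j.factorial : ℝ)) fun j _ => ?_
  refine ((h.pow hX j).smul (c := 1 / (j.factorial : ℝ)) (by positivity)).congr fun s t => ?_
  ring

lemma gle_one_tex (M : ℕ) {K : S → S → ℝ} (hK : Gram K) :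
    GLe (fun _ _ => 1) (fun s t => tex M (K s t)) := by
  have h := gle_tex M (gram_zero (S := S)) hK.gle
  exact h.congr fun s t => by
    show tex M (K s t) - 1 = tex M (K s t) - tex M 0
    rw [tex_at_zero]

lemma gram_pow_remainder {X Y : S → S → ℝ} (hX : Gram X) (hY : Gram Y) (j : ℕ) :
    Gram (fun s t => (X s t + Y s t) ^ (j + 2) - X s t ^ (j + 2) -
      (j + 2 : ℝ) * X s t ^ (j + 1) * Y s t -
      ((j + 2 : ℝ) * (j + 1) / 2) * X s t ^ j * Y s t ^ 2) := by
  induction j with
  | zero =>
    refine gram_zero.congr fun s t => ?_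
    push_cast
    ring
  | succ j ih =>
    have h1 := (hX.add hY).mul ih
    have h2 : Gram (fun s t => ((j + 2 : ℝ) * (j + 1) / 2) * (X s t ^ j * Y s t ^ 3)) :=
      ((hX.pow j).mul (hY.pow 3)).smul (by positivity)
    refine (h1.add h2).congr fun s t => ?_
    push_cast
    ring

/-- Second order expansion of the truncated exponential in the Gram order. -/
lemma gram_tex_remainder {X Y : S → S → ℝ} (hX : Gram X) (hY : Gram Y) (L : ℕ) :
    Gram (fun s t => tex (L + 2) (X s t + Y s t) - tex (L + 2) (X s t) -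
      tex (L + 1) (X s t) * Y s t - tex L (X s t) * Y s t ^ 2 / 2) := by
  induction L with
  | zero =>
    refine gram_zero.congr fun s t => ?_
    simp only [tex_succ, tex_zero, Nat.factorial]
    push_cast
    ring
  | succ L ih =>
    have h1 := (gram_pow_remainder hX hY (L + 1)).smul
      (c := 1 / ((L + 3).factorial : ℝ)) (by positivity)
    refine (ih.add h1).congr fun s t => ?_
    have e3 : ((L + 3).factorial : ℝ) = (L + 3 : ℝ) * ((L + 2) * ((L + 1).factorial : ℝ)) := by
      rw [Nat.factorial_succ (L + 2), Nat.factorial_succ (L + 1)]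
      push_cast
      ring
    have e2 : ((L + 2).factorial : ℝ) = (L + 2 : ℝ) * ((L + 1).factorial : ℝ) := by
      rw [Nat.factorial_succ (L + 1)]
      push_cast
      ring
    have hne : ((L + 1).factorial : ℝ) ≠ 0 := by positivity
    have hne2 : (L + 2 : ℝ) ≠ 0 := by positivity
    have hne3 : (L + 3 : ℝ) ≠ 0 := by positivity
    rw [tex_succ (L + 2) (X s t + Y s t), tex_succ (L + 2) (X s t), tex_succ (L + 1) (X s t),
      tex_succ L (X s t)]
    rw [show L + 2 + 1 = L + 3 from rfl, show L + 1 + 1 = L + 2 from rfl, e3, e2]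
    push_cast
    field_simp
    ring

end Pool.Agent.W_MP_fefad7_co.Sharp
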