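import Pool.Agent.W_MP_fefad7_co.Defs
import Pool.Agent.W_MP_fefad7_co.Sharp.TruncExp

set_option autoImplicit false

namespace Pool.Agent.W_MP_fefad7_co.Sharp

open Finset

variable {n k : ℕ}

/-- Truth value (as a sign) of a literal. -/
noncomputable def sg (s : Fin n → Bool) (l : Literal n) : ℝ := if s l.1 = l.2 then 1 else -1

/-- Overlap of two assignments: agreements minus disagreements. -/
noncomputable def ov (s t : Fin n → Bool) : ℝ := ∑ i, (if s i = t i then (1 : ℝ) else -1)

lemma abs_sg (s : Fin n → Bool) (l : Literal n) : |sg s l| = 1 := by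
  unfold sg
  split_ifs <;> simp

lemma sum_sg (s : Fin n → Bool) : ∑ l : Literal n, sg s l = 0 := by
  rw [Fintype.sum_prod_type]
  refine Finset.sum_eq_zero fun i _ => ?_
  rw [Fintype.sum_bool]
  unfold sg
  cases s i <;> simp

lemma sum_sg_mul (s t : Fin n → Bool) : ∑ l : Literal n, sg s l * sg t l = 2 * ov s t := by
  unfold ov
  rw [Fintype.sum_prod_type, Finset.mul_sum]
  refine Finset.sum_congr rfl fun i _ => ?_
  rw [Fintype.sum_bool]
  unfold sg
  cases hs : s i <;> cases ht : t i <;> simp <;> norm_num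

lemma sum_one_lit : ∑ _l : Literal n, (1 : ℝ) = 2 * n := by
  simp
  ring

lemma gram_ov : Gram (ov : (Fin n → Bool) → (Fin n → Bool) → ℝ) := by
  have h := gram_sum (Finset.univ : Finset (Fin n))
    (fun i (s t : Fin n → Bool) => (if s i then (1 : ℝ) else -1) * (if t i then (1 : ℝ) else -1))
    fun i _ => gram_rankOne (fun s : Fin n → Bool => (if s i then (1 : ℝ) else -1))
  refine h.congr fun s t => ?_
  unfold ov
  refine Finset.sum_congr rfl fun i _ => ?_
  cases s i <;> cases t i <;> simp

lemma abs_ov_le (s t : Fin n → Bool) : |ov s t| ≤ n := by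
  unfold ov
  calc |∑ i : Fin n, (if s i = t i then (1 : ℝ) else -1)|
      ≤ ∑ i : Fin n, |(if s i = t i then (1 : ℝ) else -1)| := Finset.abs_sum_le_sum_abs _ _
    _ = ∑ _i : Fin n, (1 : ℝ) := by
        refine Finset.sum_congr rfl fun i _ => ?_
        split_ifs <;> simp
    _ = n := by simp

lemma ov_self (s : Fin n → Bool) : ov s s = n := by
  simp [ov]

/-- Product of the signs over a set of positions of a tuple of literals. -/
noncomputable def chi (J : Finset (Fin k)) (p : Fin k → Literal n) (s : Fin n → Bool) : ℝ :=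
  ∏ i ∈ J, sg s (p i)

lemma abs_chi (J : Finset (Fin k)) (p : Fin k → Literal n) (s : Fin n → Bool) :
    |chi J p s| = 1 := by
  unfold chi
  rw [Finset.abs_prod]
  exact Finset.prod_eq_one fun i _ => abs_sg s (p i)

lemma sum_tuple_prod (f : Fin k → Literal n → ℝ) :
    ∑ p : Fin k → Literal n, ∏ i, f i (p i) = ∏ i, ∑ l, f i l := by
  rw [Finset.prod_univ_sum, Fintype.piFinset_univ]

lemma chi_orth (J J' : Finset (Fin k)) (s t : Fin n → Bool) :
    ∑ p : Fin k → Literal n, chi J p s * chi J' p t =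
      if J = J' then (2 * ov s t) ^ J.card * (2 * (n : ℝ)) ^ (k - J.card) else 0 := by
  classical
  have e1 : ∀ p : Fin k → Literal n, chi J p s * chi J' p t =
      ∏ i, ((if i ∈ J then sg s (p i) else 1) * (if i ∈ J' then sg t (p i) else 1)) := by
    intro p
    unfold chi
    rw [Finset.prod_mul_distrib]
    congr 1
    · rw [Finset.prod_ite_mem, Finset.univ_inter]
    · rw [Finset.prod_ite_mem, Finset.univ_inter]
  simp only [e1]
  rw [sum_tuple_prod (fun i l => (if i ∈ J then sg s l else 1) * (if i ∈ J' then sg t l else 1))]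
  split_ifs with h
  · subst h
    have e2 : ∀ i : Fin k, ∑ l : Literal n, ((if i ∈ J then sg s l else 1) *
        (if i ∈ J then sg t l else 1)) = if i ∈ J then 2 * ov s t else 2 * (n : ℝ) := by
      intro i
      by_cases hi : i ∈ J
      · simp only [hi, if_true]
        exact sum_sg_mul s t
      · simp only [hi, if_false, mul_one]
        exact sum_one_lit
    simp only [e2]
    rw [Finset.prod_ite, Finset.prod_const, Finset.prod_const]
    congr 2
    · congr 1
      ext i
      simp
    · have : (Finset.univ.filter fun i : Fin k => i ∉ J) = Jᶜ := by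
        ext i
        simp
      rw [this, Finset.card_compl, Fintype.card_fin]
  · obtain ⟨i, hi⟩ : ∃ i, ¬ (i ∈ J ↔ i ∈ J') := by
      by_contra hcon
      push Not at hcon
      exact h (Finset.ext hcon)
    apply Finset.prod_eq_zero (Finset.mem_univ i)
    by_cases h1 : i ∈ J
    · have h2 : i ∉ J' := fun h2 => hi ⟨fun _ => h2, fun _ => h1⟩
      simp only [h1, h2, if_true, if_false, mul_one]
      exact sum_sg s
    · have h2 : i ∈ J' := by
        by_contra h2
        exact hi ⟨fun h3 => absurd h3 h1, fun h3 => absurd h3 h2⟩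
      simp only [h1, h2, if_true, if_false, one_mul]
      exact sum_sg t

/-- A function of a tuple of literals given by its Fourier expansion. -/
noncomputable def fexp (α : Finset (Fin k) → ℝ) (p : Fin k → Literal n) (s : Fin n → Bool) : ℝ :=
  ∑ J : Finset (Fin k), α J * chi J p s

lemma sum_fexp_mul (α : Finset (Fin k) → ℝ) (s t : Fin n → Bool) :
    ∑ p : Fin k → Literal n, fexp α p s * fexp α p t =
      ∑ J : Finset (Fin k), α J ^ 2 * ((2 * ov s t) ^ J.card * (2 * (n : ℝ)) ^ (k - J.card)) := by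
  classical
  unfold fexp
  simp only [Finset.sum_mul_sum]
  rw [Finset.sum_comm]
  refine Finset.sum_congr rfl fun J _ => ?_
  rw [Finset.sum_comm]
  have e1 : ∀ J' : Finset (Fin k), ∑ p : Fin k → Literal n,
      α J * chi J p s * (α J' * chi J' p t) =
      α J * α J' * (if J = J' then (2 * ov s t) ^ J.card * (2 * (n : ℝ)) ^ (k - J.card) else 0) := by
    intro J'
    rw [← chi_orth J J' s t, Finset.mul_sum]
    refine Finset.sum_congr rfl fun p _ => ?_
    ring
  simp only [e1]
  rw [Finset.sum_eq_single J]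
  · rw [if_pos rfl]
    ring
  · intro J' _ hJ'
    rw [if_neg (Ne.symm hJ'), mul_zero]
  · intro h
    exact absurd (Finset.mem_univ J) h

/-- The function of a tuple of literals used for the weights. -/
noncomputable def hf (b m : ℝ) (p : Fin k → Literal n) (s : Fin n → Bool) : ℝ :=
  (∏ i, (-(b * sg s (p i)) + (1 - b)) - ∏ i, (-(1 / 2 * sg s (p i)) + 1 / 2)) / m - 1

/-- Fourier coefficients of `hf`. -/
noncomputable def co (k : ℕ) (b m : ℝ) (j : ℕ) : ℝ :=
  ((-1) ^ j * (b ^ j * (1 - b) ^ (k - j) - (1 / 2) ^ k)) / m - if j = 0 then 1 else 0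

lemma prod_sg_expand (b c : ℝ) (p : Fin k → Literal n) (s : Fin n → Bool) :
    ∏ i, (-(b * sg s (p i)) + c) =
      ∑ J : Finset (Fin k), (-1) ^ J.card * (b ^ J.card * c ^ (k - J.card)) * chi J p s := by
  classical
  rw [Finset.prod_add, Finset.powerset_univ]
  refine Finset.sum_congr rfl fun J _ => ?_
  have e1 : ∏ i ∈ J, -(b * sg s (p i)) = (-1) ^ J.card * b ^ J.card * chi J p s := by
    unfold chi
    rw [← mul_pow, ← Finset.prod_const, ← Finset.prod_mul_distrib]
    refine Finset.prod_congr rfl fun i _ => ?_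
    ring
  have e2 : ∏ _i ∈ Finset.univ \ J, c = c ^ (k - J.card) := by
    rw [Finset.prod_const, ← Finset.compl_eq_univ_sdiff, Finset.card_compl, Fintype.card_fin]
  rw [e1, e2]
  ring

lemma hf_eq_fexp (b m : ℝ) (p : Fin k → Literal n) (s : Fin n → Bool) :
    hf b m p s = fexp (fun J => co k b m J.card) p s := by
  classical
  unfold hf fexp
  rw [prod_sg_expand, prod_sg_expand, ← Finset.sum_sub_distrib, Finset.sum_div]
  have e1 : ∑ J : Finset (Fin k), (if J.card = 0 then (1 : ℝ) else 0) * chi J p s = 1 := by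
    rw [Finset.sum_eq_single ∅]
    · simp [chi]
    · intro J _ hJ
      have : J.card ≠ 0 := fun h => hJ (Finset.card_eq_zero.mp h)
      simp [this]
    · intro h
      exact absurd (Finset.mem_univ _) h
  calc _ = ∑ J : Finset (Fin k), ((-1) ^ J.card * (b ^ J.card * (1 - b) ^ (k - J.card)) * chi J p s
        - (-1) ^ J.card * ((1 / 2) ^ J.card * (1 / 2) ^ (k - J.card)) * chi J p s) / m -
        ∑ J : Finset (Fin k), (if J.card = 0 then (1 : ℝ) else 0) * chi J p s := by rw [e1]
    _ = _ := ?_
  rw [← Finset.sum_sub_distrib]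
  refine Finset.sum_congr rfl fun J _ => ?_
  have hJ : J.card ≤ k := by
    have := Finset.card_le_univ J
    simpa using this
  have e2 : ((1 : ℝ) / 2) ^ J.card * (1 / 2) ^ (k - J.card) = (1 / 2) ^ k := by
    rw [← pow_add, Nat.add_sub_cancel' hJ]
  unfold co
  rw [e2]
  ring

lemma sum_hf_mul (b m : ℝ) (s t : Fin n → Bool) :
    ∑ p : Fin k → Literal n, hf b m p s * hf b m p t =
      ∑ J : Finset (Fin k), co k b m J.card ^ 2 *
        ((2 * ov s t) ^ J.card * (2 * (n : ℝ)) ^ (k - J.card)) := by
  simp only [hf_eq_fexp]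
  exact sum_fexp_mul _ s t

/-- The part of degree at least three. -/
noncomputable def gf (b m : ℝ) (p : Fin k → Literal n) (s : Fin n → Bool) : ℝ :=
  fexp (fun J => if 3 ≤ J.card then co k b m J.card else 0) p s

/-- Indicator (as a product) that all literals of a tuple are false. -/
noncomputable def vf (p : Fin k → Literal n) (s : Fin n → Bool) : ℝ :=
  ∏ i, (-(1 / 2 * sg s (p i)) + 1 / 2)

lemma vf_eq_one {p : Fin k → Literal n} {s : Fin n → Bool} (h : ∀ i, s (p i).1 ≠ (p i).2) :
    vf p s = 1 := by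
  unfold vf
  refine Finset.prod_eq_one fun i _ => ?_
  simp only [sg, h i, if_false]
  norm_num

lemma vf_eq_zero {p : Fin k → Literal n} {s : Fin n → Bool} (h : ∃ i, s (p i).1 = (p i).2) :
    vf p s = 0 := by
  obtain ⟨i, hi⟩ := h
  unfold vf
  apply Finset.prod_eq_zero (Finset.mem_univ i)
  simp only [sg, hi, if_true]
  norm_num

lemma vf_nonneg (p : Fin k → Literal n) (s : Fin n → Bool) : 0 ≤ vf p s := by
  unfold vf
  refine Finset.prod_nonneg fun i _ => ?_
  unfold sg
  split_ifs <;> norm_num

lemma sum_vf (s : Fin n → Bool) : ∑ p : Fin k → Literal n, vf p s = (n : ℝ) ^ k := by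
  unfold vf
  rw [sum_tuple_prod (fun _ l => -(1 / 2 * sg s l) + 1 / 2)]
  have e : ∑ l : Literal n, (-(1 / 2 * sg s l) + 1 / 2) = n := by
    rw [Finset.sum_add_distrib, Finset.sum_neg_distrib, ← Finset.mul_sum, sum_sg]
    simp
  rw [e]
  simp

lemma sum_vf_mul (s t : Fin n → Bool) :
    ∑ p : Fin k → Literal n, vf p s * vf p t = (((n : ℝ) + ov s t) / 2) ^ k := by
  unfold vf
  simp only [← Finset.prod_mul_distrib]
  rw [sum_tuple_prod (fun _ l => (-(1 / 2 * sg s l) + 1 / 2) * (-(1 / 2 * sg t l) + 1 / 2))]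
  have e : ∑ l : Literal n, (-(1 / 2 * sg s l) + 1 / 2) * (-(1 / 2 * sg t l) + 1 / 2) =
      ((n : ℝ) + ov s t) / 2 := by
    have e1 : ∀ l : Literal n, (-(1 / 2 * sg s l) + 1 / 2) * (-(1 / 2 * sg t l) + 1 / 2) =
        1 / 4 * (sg s l * sg t l) - 1 / 4 * sg s l - 1 / 4 * sg t l + 1 / 4 * 1 := by
      intro l
      ring
    simp only [e1]
    rw [Finset.sum_add_distrib, Finset.sum_sub_distrib, Finset.sum_sub_distrib,
      ← Finset.mul_sum, ← Finset.mul_sum, ← Finset.mul_sum, ← Finset.mul_sum, sum_sg_mul, sum_sg,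
      sum_sg, sum_one_lit]
    ring
  rw [e, Finset.prod_const, Finset.card_univ, Fintype.card_fin]

end Pool.Agent.W_MP_fefad7_co.Sharp
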