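import Pool.Agent.W_MP_fefad7_co.Sharp.Param

set_option autoImplicit false

namespace Pool.Agent.W_MP_fefad7_co.Sharp

open Finset Filter Topology

/-- The final numerical estimate. -/
lemma fin_estimate (k n : ℕ) (hn : 0 < n) (A B C4 c θ' : ℝ) (hB : 0 ≤ B)
    (hC4 : 0 ≤ C4) (hc : 0 < c) (D E1 E2 N E : ℝ)
    (hθ' : 0 ≤ θ') (hD : D ≤ B * (n + 1)) (hD0 : 0 ≤ D) (hE1 : E1 = 6 * Real.exp (-n))
    (hE2 : E2 = 6 * C4 * Real.exp (c * n)) (hN : N ≤ Real.exp (2 * c * n)) (hN0 : 0 ≤ N)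
    (hE : E ≤ Real.exp (-(4 * c) * n)) (hE0 : 0 ≤ E) (hA' : A = θ' * 8 * B)
    (hbig : (2 * A + (1 + ((k + 2 : ℕ) : ℝ) ^ 12) * (96 * B * ((Nat.factorial 21 : ℝ) / 1 ^ 21) +
      48 * C4 * ((Nat.factorial 21 : ℝ) / c ^ 21))) * 2 ^ (k + 5) ≤ n) :
    θ' * (8 * D) / (n : ℝ) ^ 3 +
      (1 + ((k + 2 : ℕ) : ℝ) ^ 12 * (n : ℝ) ^ 18) * (8 * D * E1 + 8 * E2 * N * E) ≤
      1 / (2 ^ (k + 5) * n) := by
  have hnR : (0 : ℝ) < n := by exact_mod_cast hn
  have hn1 : (1 : ℝ) ≤ n := by exact_mod_cast hn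
  have hD2 : D ≤ 2 * B * n := by nlinarith
  set K : ℝ := ((k + 2 : ℕ) : ℝ) ^ 12 with hK
  have hK0 : 0 ≤ K := by positivity
  set P1 : ℝ := (Nat.factorial 21 : ℝ) / 1 ^ 21 with hP1
  set Pc : ℝ := (Nat.factorial 21 : ℝ) / c ^ 21 with hPc
  have hP10 : 0 ≤ P1 := by positivity
  have hPc0 : 0 ≤ Pc := by positivity
  have h1 : θ' * (8 * D) / (n : ℝ) ^ 3 ≤ 2 * A / (n : ℝ) ^ 2 := by
    rw [div_le_div_iff₀ (by positivity) (by positivity), hA']
    have : θ' * (8 * D) ≤ θ' * (8 * (2 * B * n)) := by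
      apply mul_le_mul_of_nonneg_left _ hθ'
      linarith
    calc θ' * (8 * D) * (n : ℝ) ^ 2 ≤ θ' * (8 * (2 * B * n)) * (n : ℝ) ^ 2 :=
          mul_le_mul_of_nonneg_right this (by positivity)
      _ = _ := by ring
  have h2 : 1 + K * (n : ℝ) ^ 18 ≤ (1 + K) * (n : ℝ) ^ 18 := by
    have : (1 : ℝ) ≤ (n : ℝ) ^ 18 := one_le_pow₀ hn1
    nlinarith
  have hE1n : 0 ≤ E1 := by rw [hE1]; positivity
  have hE2n : 0 ≤ E2 := by rw [hE2]; positivity
  have h3 : 8 * D * E1 ≤ 96 * B * (n * Real.exp (-(1 * n))) := by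
    rw [hE1, one_mul]
    calc 8 * D * (6 * Real.exp (-n)) ≤ 8 * (2 * B * n) * (6 * Real.exp (-n)) := by
          apply mul_le_mul_of_nonneg_right _ (by positivity)
          linarith
      _ = _ := by ring
  have h4 : 8 * E2 * N * E ≤ 48 * C4 * Real.exp (-(c * n)) := by
    have h5 : N * E ≤ Real.exp (2 * c * n) * Real.exp (-(4 * c) * n) :=
      mul_le_mul hN hE hE0 (Real.exp_pos _).le
    calc 8 * E2 * N * E = 8 * E2 * (N * E) := by ring
      _ ≤ 8 * E2 * (Real.exp (2 * c * n) * Real.exp (-(4 * c) * n)) :=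
          mul_le_mul_of_nonneg_left h5 (by positivity)
      _ = 48 * C4 * (Real.exp (c * n) * Real.exp (2 * c * n) * Real.exp (-(4 * c) * n)) := by
          rw [hE2]
          ring
      _ = _ := by
          rw [← Real.exp_add, ← Real.exp_add]
          congr 2
          ring
  have h6 : (n : ℝ) ^ 18 * (96 * B * (n * Real.exp (-(1 * n)))) ≤ 96 * B * (P1 / (n : ℝ) ^ 2) := by
    have h7 := poly_exp_le 1 one_pos n hn
    have h8 : (n : ℝ) ^ 19 * Real.exp (-(1 * n)) ≤ P1 / (n : ℝ) ^ 2 := by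
      rw [le_div_iff₀ (by positivity)]
      rw [le_div_iff₀ hnR] at h7
      calc (n : ℝ) ^ 19 * Real.exp (-(1 * n)) * (n : ℝ) ^ 2 =
          (n : ℝ) ^ 20 * Real.exp (-(1 * n)) * n := by ring
        _ ≤ _ := h7
    calc (n : ℝ) ^ 18 * (96 * B * (n * Real.exp (-(1 * n)))) =
        96 * B * ((n : ℝ) ^ 19 * Real.exp (-(1 * n))) := by ring
      _ ≤ _ := mul_le_mul_of_nonneg_left h8 (by positivity)
  have h9 : (n : ℝ) ^ 18 * (48 * C4 * Real.exp (-(c * n))) ≤ 48 * C4 * (Pc / (n : ℝ) ^ 2) := by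
    have h7 := poly_exp_le c hc n hn
    have h8 : (n : ℝ) ^ 18 * Real.exp (-(c * n)) ≤ Pc / (n : ℝ) ^ 2 := by
      rw [le_div_iff₀ (by positivity)]
      rw [le_div_iff₀ hnR] at h7
      calc (n : ℝ) ^ 18 * Real.exp (-(c * n)) * (n : ℝ) ^ 2 =
          (n : ℝ) ^ 20 * Real.exp (-(c * n)) * 1 := by ring
        _ ≤ (n : ℝ) ^ 20 * Real.exp (-(c * n)) * n :=
            mul_le_mul_of_nonneg_left hn1 (by positivity)
        _ ≤ _ := h7
    calc (n : ℝ) ^ 18 * (48 * C4 * Real.exp (-(c * n))) =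
        48 * C4 * ((n : ℝ) ^ 18 * Real.exp (-(c * n))) := by ring
      _ ≤ _ := mul_le_mul_of_nonneg_left h8 (by positivity)
  have h10 : (1 + K * (n : ℝ) ^ 18) * (8 * D * E1 + 8 * E2 * N * E) ≤
      (1 + K) * (96 * B * (P1 / (n : ℝ) ^ 2) + 48 * C4 * (Pc / (n : ℝ) ^ 2)) := by
    calc (1 + K * (n : ℝ) ^ 18) * (8 * D * E1 + 8 * E2 * N * E) ≤
        ((1 + K) * (n : ℝ) ^ 18) * (96 * B * (n * Real.exp (-(1 * n))) +
          48 * C4 * Real.exp (-(c * n))) := by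
          apply mul_le_mul h2 (add_le_add h3 h4) _ (by positivity)
          positivity
      _ = (1 + K) * ((n : ℝ) ^ 18 * (96 * B * (n * Real.exp (-(1 * n)))) +
          (n : ℝ) ^ 18 * (48 * C4 * Real.exp (-(c * n)))) := by ring
      _ ≤ _ := mul_le_mul_of_nonneg_left (add_le_add h6 h9) (by positivity)
  calc θ' * (8 * D) / (n : ℝ) ^ 3 +
      (1 + K * (n : ℝ) ^ 18) * (8 * D * E1 + 8 * E2 * N * E) ≤
      2 * A / (n : ℝ) ^ 2 + (1 + K) * (96 * B * (P1 / (n : ℝ) ^ 2) +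
        48 * C4 * (Pc / (n : ℝ) ^ 2)) := add_le_add h1 h10
    _ = (2 * A + (1 + K) * (96 * B * P1 + 48 * C4 * Pc)) / (n : ℝ) ^ 2 := by ring
    _ ≤ 1 / (2 ^ (k + 5) * n) := by
        rw [div_le_div_iff₀ (by positivity) (by positivity)]
        calc (2 * A + (1 + K) * (96 * B * P1 + 48 * C4 * Pc)) * (2 ^ (k + 5) * n) =
            ((2 * A + (1 + K) * (96 * B * P1 + 48 * C4 * Pc)) * 2 ^ (k + 5)) * n := by ring
          _ ≤ n * n := mul_le_mul_of_nonneg_right hbig hnR.le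
          _ = 1 * (n : ℝ) ^ 2 := by ring

lemma near_final (C4 : ℝ) (hC4 : 0 ≤ C4) (u M n : ℝ) (hn : 0 ≤ n)
    (hM : M ≤ n + 2) (hu : u ≤ 3 / 100 * n) :
    (M + 2 + 1) * (C4 * Real.exp u) ≤ 37 * C4 * Real.exp (9 / 128 * n) := by
  have h3 : M + 2 + 1 ≤ n + 5 := by linarith
  have h4 : n + 5 ≤ 37 * Real.exp (n / 32) := by
    have h5 := Real.add_one_le_exp (n / 32)
    have h6 : 1 ≤ Real.exp (n / 32) := Real.one_le_exp (by positivity)
    linarith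
  have h5 : Real.exp u ≤ Real.exp (3 / 100 * n) := Real.exp_le_exp.mpr hu
  calc (M + 2 + 1) * (C4 * Real.exp u) ≤
      (37 * Real.exp (n / 32)) * (C4 * Real.exp (3 / 100 * n)) := by
        apply mul_le_mul (h3.trans h4) _ (by positivity) (by positivity)
        exact mul_le_mul_of_nonneg_left h5 hC4
    _ = 37 * C4 * (Real.exp (n / 32) * Real.exp (3 / 100 * n)) := by ring
    _ ≤ 37 * C4 * Real.exp (9 / 128 * n) := by
        apply mul_le_mul_of_nonneg_left _ (by positivity)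
        rw [← Real.exp_add]
        apply Real.exp_le_exp.mpr
        linarith

/-- Choice of the constants. -/
lemma exists_consts (χ : ℝ) (h0 : 0 < χ) (h1 : χ < Real.log 2) :
    ∃ θ ρ c s μ l z ϖ C4 : ℝ, χ ≤ 7 / 10 ∧ 0 < θ ∧ θ ≤ 1 / 4 ∧ 1 ≤ ρ * (1 - θ) ^ 2 ∧ 0 < ρ ∧
      ρ * χ = Real.log 2 - 5 * c ∧ 0 < c ∧ 0 < s ∧ s ≤ 1 / 800 ∧ s ≤ c / 24 ∧ 0 < μ ∧ μ ≤ 1 ∧
      0 ≤ Real.log (8 / μ) ∧ μ * Real.log (8 / μ) + μ ≤ 24 * s ∧ 0 ≤ l ∧ 0 < z ∧ z ≤ 1 / 8 ∧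
      2 * ϖ = Real.exp (-(2 / μ)) ∧ 0 < ϖ ∧ Real.exp (-(2 * l)) + 2 * z * l ≤ 2 * c ∧
      C4 = Real.exp (4 * Real.log (8 / μ)) ∧ 0 < C4 ∧ 1 ≤ C4 := by
  have hL2 : 0 < Real.log 2 := Real.log_pos (by norm_num)
  have hL2' : Real.log 2 < 7 / 10 := lt_trans Real.log_two_lt_d9 (by norm_num)
  set r : ℝ := χ / Real.log 2 with hr
  have hr0 : 0 < r := by positivity
  have hr1 : r < 1 := by rw [hr, div_lt_one hL2]; exact h1
  have hχr : χ = r * Real.log 2 := by rw [hr]; field_simp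
  set θ : ℝ := min (1 / 4) ((1 - r) / 4) with hθ
  have hθ0 : 0 < θ := lt_min (by norm_num) (by linarith)
  have hθ1 : θ ≤ 1 / 4 := min_le_left _ _
  have hθ2 : θ ≤ (1 - r) / 4 := min_le_right _ _
  have hθsq : (1 + r) / 2 ≤ (1 - θ) ^ 2 := by nlinarith
  have hθpos : 0 < (1 - θ) ^ 2 := by nlinarith
  set ρ : ℝ := 1 / (1 - θ) ^ 2 with hρ
  have hρ0 : 0 < ρ := by positivity
  have hρ1 : ρ * (1 - θ) ^ 2 = 1 := by rw [hρ]; exact one_div_mul_cancel hθpos.ne'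
  have hρχ : ρ * χ < Real.log 2 := by
    rw [hρ, one_div, inv_mul_eq_div, div_lt_iff₀ hθpos, hχr]
    nlinarith
  set c : ℝ := (Real.log 2 - ρ * χ) / 5 with hc
  have hc0 : 0 < c := by rw [hc]; linarith
  have hρχ0 : 0 < ρ * χ := by positivity
  have hc1 : c < 1 := by rw [hc]; linarith
  set s : ℝ := min (1 / 800) (c / 24) with hs
  have hs0 : 0 < s := lt_min (by norm_num) (by linarith)
  have hs1 : s ≤ 1 / 800 := min_le_left _ _
  have hs2 : s ≤ c / 24 := min_le_right _ _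
  set μ : ℝ := 8 * s ^ 2 with hμ
  have hμ0 : 0 < μ := by positivity
  have hμ1 : μ ≤ 1 := by nlinarith
  have h8μ : 8 / μ = (1 / s) ^ 2 := by
    rw [hμ]
    field_simp
  have hlog0 : 0 ≤ Real.log (8 / μ) := by
    apply Real.log_nonneg
    rw [le_div_iff₀ hμ0]
    linarith
  have hG : μ * Real.log (8 / μ) + μ ≤ 24 * s := by
    have h2 : Real.log (8 / μ) ≤ 2 / s := by
      rw [h8μ, Real.log_pow]
      have h3 := Real.log_le_sub_one_of_pos (show 0 < 1 / s by positivity)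
      push_cast
      calc 2 * Real.log (1 / s) ≤ 2 * (1 / s - 1) := by linarith
        _ ≤ 2 * (1 / s) := by linarith
        _ = 2 / s := by ring
    have h4 : μ * Real.log (8 / μ) ≤ 16 * s := by
      calc μ * Real.log (8 / μ) ≤ μ * (2 / s) := mul_le_mul_of_nonneg_left h2 hμ0.le
        _ = 16 * s := by rw [hμ]; field_simp; norm_num
    nlinarith
  set l : ℝ := 1 / c with hl
  have hl0 : 0 ≤ l := by positivity
  set z : ℝ := min (1 / 8) (c ^ 2 / 2) with hz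
  have hz0 : 0 < z := lt_min (by norm_num) (by positivity)
  have hz1 : z ≤ 1 / 8 := min_le_left _ _
  have hz2 : z ≤ c ^ 2 / 2 := min_le_right _ _
  set ϖ : ℝ := Real.exp (-(2 / μ)) / 2 with hϖ
  have hϖ0 : 0 < ϖ := by positivity
  have hN2 : Real.exp (-(2 * l)) + 2 * z * l ≤ 2 * c := by
    have h2 : Real.exp (-(2 * l)) ≤ c / 2 := by
      rw [Real.exp_neg]
      have h3 : 2 / c ≤ Real.exp (2 * l) := by
        have := Real.add_one_le_exp (2 * l)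
        have e : 2 * l = 2 / c := by rw [hl]; ring
        rw [e] at this ⊢
        linarith
      calc (Real.exp (2 * l))⁻¹ ≤ (2 / c)⁻¹ := inv_anti₀ (by positivity) h3
        _ = c / 2 := by rw [inv_div]
    have h4 : 2 * z * l ≤ c := by
      rw [hl]
      calc 2 * z * (1 / c) ≤ 2 * (c ^ 2 / 2) * (1 / c) := by
            apply mul_le_mul_of_nonneg_right _ (by positivity)
            linarith
        _ = c := by field_simp
    linarith
  set C4 : ℝ := Real.exp (4 * Real.log (8 / μ)) with hC4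
  have hC40 : 0 < C4 := Real.exp_pos _
  have hC41 : 1 ≤ C4 := Real.one_le_exp (by positivity)
  exact ⟨θ, ρ, c, s, μ, l, z, ϖ, C4, by linarith, hθ0, hθ1, hρ1.ge, hρ0, by rw [hc]; ring, hc0,
    hs0, hs1, hs2, hμ0, hμ1, hlog0, hG, hl0, hz0, hz1, by rw [hϖ]; ring, hϖ0, hN2, hC4, hC40, hC41⟩

/-- **Sharp upper bound for the Waiter-Client game.** -/
theorem clientWinsWC_sharp (χ : ℝ) (h0 : 0 < χ) (h1 : χ < Real.log 2) :
    ∃ k0 : ℕ, ∀ k ≥ k0, ∃ n0 : ℕ, ∀ n ≥ n0, ∀ q : ℕ,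
      (n : ℝ) ^ k / (k.factorial * ((q + 1 : ℕ) : ℝ)) ≤ χ * n →
        ClientWinsWC q (board k n) ∅ := by
  obtain ⟨θ, ρ, c, s, μ, l, z, ϖ, C4, hχ7, hθ0, hθ1, hρ1, hρ0, hρχ, hc0, hs0, hs1, hs2, hμ0, hμ1,
    hlog0, hG, hl0, hz0, hz1, hϖ, hϖ0, hN2, hC4, hC40, hC41⟩ := exists_consts χ h0 h1
  obtain ⟨k0, hk0⟩ := eventually_atTop.mp (eventually_k z θ ϖ c (ρ * χ) hz0 hz1 hθ0 hϖ0 hc0)
  refine ⟨k0 + 2, ?_⟩
  intro k' hk'
  obtain ⟨k, rfl⟩ : ∃ k, k' = k + 2 := ⟨k' - 2, by omega⟩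
  obtain ⟨hk3, hx8, hdeg2, hmid, hsmall, hρχκ, hquad⟩ := hk0 k (by omega)
  obtain ⟨b, m, hP⟩ := exists_params (k + 2) hk3 hx8
  generalize 6 * (((k + 2 : ℕ) : ℝ) * (1 / 2) ^ (k + 2)) = η at hmid hsmall hρχκ hP
  obtain ⟨C3, hC3⟩ : ∃ C3 : ℝ, C3 = 37 * C4 := ⟨_, rfl⟩
  have hC30 : 0 < C3 := by rw [hC3]; positivity
  obtain ⟨θ', hθ'⟩ : ∃ θ' : ℝ, (2 / θ) ^ 12 * (4 ^ (k + 2) * ((k + 2).factorial : ℝ)) ^ 6 = θ' :=
    ⟨_, rfl⟩
  have hθ'0 : 0 ≤ θ' := by rw [← hθ']; positivity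
  obtain ⟨B, hB⟩ : ∃ B : ℝ, B = C2 k * C3 := ⟨_, rfl⟩
  have hC2 := C2_pos k
  have hB0 : 0 ≤ B := by rw [hB]; positivity
  obtain ⟨T, hT⟩ : ∃ T : ℝ, T = (2 * (θ' * 8 * B) + (1 + ((k + 2 : ℕ) : ℝ) ^ 12) *
      (96 * B * ((Nat.factorial 21 : ℝ) / 1 ^ 21) +
      48 * C4 * ((Nat.factorial 21 : ℝ) / c ^ 21))) * 2 ^ (k + 5) := ⟨_, rfl⟩
  refine ⟨⌈T⌉₊ + 1, ?_⟩
  intro n hn q hq
  have hnpos : 0 < n := by omega
  have hnR : (0 : ℝ) < n := by exact_mod_cast hnpos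
  have hTn : T ≤ n := by
    calc T ≤ (⌈T⌉₊ : ℝ) := Nat.le_ceil _
      _ ≤ n := by
        have : ⌈T⌉₊ ≤ n := by omega
        exact_mod_cast this
  -- the degree of the truncation
  obtain ⟨M, hM⟩ : ∃ M : ℕ, M = 2 * ⌈μ * n / 2⌉₊ := ⟨_, rfl⟩
  have hM1 : μ * n ≤ M := by
    have := Nat.le_ceil (μ * n / 2)
    rw [hM]
    push_cast
    linarith
  have hM2 : (M : ℝ) ≤ μ * n + 2 := by
    have := Nat.ceil_lt_add_one (show 0 ≤ μ * n / 2 by positivity)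
    rw [hM]
    push_cast
    linarith
  have hexp : ∀ J : ℝ, J ≤ μ * n + 4 →
      Real.exp (J * Real.log (8 / μ) + μ * n) ≤ C4 * Real.exp (24 * s * n) := by
    intro J hJ
    rw [hC4, ← Real.exp_add]
    apply Real.exp_le_exp.mpr
    have h2 : J * Real.log (8 / μ) ≤ (μ * n + 4) * Real.log (8 / μ) :=
      mul_le_mul_of_nonneg_right hJ hlog0
    have h3 : (μ * Real.log (8 / μ) + μ) * n ≤ 24 * s * n :=
      mul_le_mul_of_nonneg_right hG hnR.le
    linarith only [h2, h3]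
  have hD : Data k n q b m η χ θ ρ z l ϖ (6 * Real.exp (-n)) (6 * C4 * Real.exp (c * n)) C3 M := by
    have hEven : Even M := ⟨⌈μ * n / 2⌉₊, by rw [hM, two_mul]⟩
    refine Data.mk hnpos hP h0 hχ7 hq hθ0 hθ1 hρ1 hρ0 hdeg2 hz0.le hz1 hl0 hmid
      hsmall hquad hEven ?_ ?_ ?_ ?_
    · intro x hx
      have hx' : |x| ≤ Real.exp (-(2 / μ)) * n := by
        refine hx.trans (le_of_eq ?_)
        rw [hϖ]
      have h2 := pow_div_le_mid hμ0 n (abs_nonneg x) hx' (j := M + 2) (by push_cast; linarith)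
      have h3 := pow_div_le_mid hμ0 n (abs_nonneg x) hx' (j := M + 1) (by push_cast; linarith)
      unfold errT
      linarith
    · intro x hx
      have hx' : |x| ≤ 8 * n := by linarith
      have h2 := pow_div_le_near hμ0 hμ1 n (abs_nonneg x) hx' (j := M + 2) (J := μ * n + 4)
        (by push_cast; linarith)
      have h3 := pow_div_le_near hμ0 hμ1 n (abs_nonneg x) hx' (j := M + 1) (J := μ * n + 4)
        (by push_cast; linarith)
      have h4 := hexp (μ * n + 4) le_rfl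
      have h5 : Real.exp (24 * s * n) ≤ Real.exp (c * n) := by
        apply Real.exp_le_exp.mpr
        apply mul_le_mul_of_nonneg_right _ hnR.le
        linarith
      have h6 : C4 * Real.exp (24 * s * n) ≤ C4 * Real.exp (c * n) :=
        mul_le_mul_of_nonneg_left h5 hC40.le
      unfold errT
      linarith
    · rw [hC3]
      linarith
    · intro x hx0 hx
      unfold tex
      have h2 : ∀ j ∈ Finset.range (M + 2 + 1), x ^ j / (j.factorial : ℝ) ≤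
          C4 * Real.exp (24 * s * n) := by
        intro j hj
        have hj' : j ≤ M + 2 := by
          have := Finset.mem_range.mp hj
          omega
        have hjR : (j : ℝ) ≤ μ * n + 4 := by
          have : (j : ℝ) ≤ (M : ℝ) + 2 := by exact_mod_cast hj'
          linarith
        exact (pow_div_le_near hμ0 hμ1 n hx0 hx hjR).trans (hexp _ le_rfl)
      refine (Finset.sum_le_sum h2).trans ?_
      rw [Finset.sum_const, Finset.card_range, nsmul_eq_mul]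
      push_cast
      rw [hC3]
      have hMn : (M : ℝ) ≤ n + 2 := by
        have := mul_le_mul_of_nonneg_right hμ1 hnR.le
        linarith only [this, hM2]
      have hsn : 24 * s * n ≤ 3 / 100 * n :=
        mul_le_mul_of_nonneg_right (by linarith only [hs1]) hnR.le
      exact near_final C4 hC40.le (24 * s * n) (M : ℝ) n hnR.le hMn hsn
  refine hD.clientWins ?_
  rw [hθ']
  rw [hT] at hTn
  refine fin_estimate k n hnpos (θ' * 8 * B) B C4 c θ' hB0 hC40.le hc0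
    (D0 k n C3) (6 * Real.exp (-n)) (6 * C4 * Real.exp (c * n))
    (Real.exp (n * (Real.exp (-(2 * l)) + 2 * z * l))) (E0 k n η χ ρ / 2 ^ n) hθ'0 ?_
    hD.D0_pos.le rfl rfl ?_ (Real.exp_pos _).le ?_ ?_ rfl hTn
  · unfold D0
    rw [hB]
  · apply Real.exp_le_exp.mpr
    have := mul_le_mul_of_nonneg_left hN2 hnR.le
    linarith
  · unfold E0
    have h2 : (2 : ℝ) ^ n = Real.exp (Real.log 2 * n) := by
      rw [mul_comm, Real.exp_nat_mul, Real.exp_log (by norm_num)]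
    rw [h2, ← Real.exp_sub]
    apply Real.exp_le_exp.mpr
    have h3 : ρ * (χ * n * (1 + (2 * η + 2 ^ (k + 2) * η ^ 2))) =
        (ρ * χ + ρ * χ * (2 * η + 2 ^ (k + 2) * η ^ 2)) * n := by ring
    rw [h3]
    have h5 : (ρ * χ + ρ * χ * (2 * η + 2 ^ (k + 2) * η ^ 2)) * n ≤ (Real.log 2 - 5 * c + c) * n := by
      apply mul_le_mul_of_nonneg_right _ hnR.le
      linarith
    linarith
  · exact div_nonneg (E0_pos k n η χ ρ).le (by positivity)

end Pool.Agent.W_MP_fefad7_co.Sharp
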